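import Pool.Agent.Work.MP_3bf421_lc_FZ.Defs

set_option autoImplicit false

/-!
The expectation over a random subset.
-/

namespace Pool.Agent.Work.MP_3bf421_lc_FZ

open Finset

variable {n : ℕ}

theorem Ew_weight_nonneg {q : ℝ} (h0 : 0 ≤ q) (h1 : q ≤ 1) (G T : Finset (Fin n)) :
    0 ≤ q ^ T.card * (1 - q) ^ (G \ T).card := by
  have : 0 ≤ 1 - q := by linarith
  positivity

theorem Ew_mono {q : ℝ} (h0 : 0 ≤ q) (h1 : q ≤ 1) (G : Finset (Fin n))
    {F F' : Finset (Fin n) → ℝ} (h : ∀ T, T ⊆ G → F T ≤ F' T) : Ew G q F ≤ Ew G q F' := by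
  unfold Ew
  refine sum_le_sum fun T hT => ?_
  exact mul_le_mul_of_nonneg_left (h T (mem_powerset.1 hT)) (Ew_weight_nonneg h0 h1 G T)

theorem Ew_nonneg {q : ℝ} (h0 : 0 ≤ q) (h1 : q ≤ 1) (G : Finset (Fin n))
    {F : Finset (Fin n) → ℝ} (h : ∀ T, T ⊆ G → 0 ≤ F T) : 0 ≤ Ew G q F := by
  unfold Ew
  refine sum_nonneg fun T hT => ?_
  exact mul_nonneg (Ew_weight_nonneg h0 h1 G T) (h T (mem_powerset.1 hT))

theorem Ew_congr (G : Finset (Fin n)) (q : ℝ) {F F' : Finset (Fin n) → ℝ}
    (h : ∀ T, T ⊆ G → F T = F' T) : Ew G q F = Ew G q F' := by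
  unfold Ew
  refine sum_congr rfl fun T hT => ?_
  rw [h T (mem_powerset.1 hT)]

theorem Ew_add (G : Finset (Fin n)) (q : ℝ) (F F' : Finset (Fin n) → ℝ) :
    Ew G q (fun T => F T + F' T) = Ew G q F + Ew G q F' := by
  unfold Ew
  rw [← sum_add_distrib]
  refine sum_congr rfl fun T _ => ?_
  ring

theorem Ew_sub (G : Finset (Fin n)) (q : ℝ) (F F' : Finset (Fin n) → ℝ) :
    Ew G q (fun T => F T - F' T) = Ew G q F - Ew G q F' := by
  unfold Ew
  rw [← sum_sub_distrib]
  refine sum_congr rfl fun T _ => ?_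
  ring

theorem Ew_mul (G : Finset (Fin n)) (q a : ℝ) (F : Finset (Fin n) → ℝ) :
    Ew G q (fun T => a * F T) = a * Ew G q F := by
  unfold Ew
  rw [mul_sum]
  refine sum_congr rfl fun T _ => ?_
  ring

theorem Ew_sum {ι : Type*} (s : Finset ι) (G : Finset (Fin n)) (q : ℝ)
    (F : ι → Finset (Fin n) → ℝ) :
    Ew G q (fun T => ∑ i ∈ s, F i T) = ∑ i ∈ s, Ew G q (F i) := by
  unfold Ew
  rw [sum_comm]
  refine sum_congr rfl fun T _ => ?_
  rw [mul_sum]

theorem Ew_empty (q : ℝ) (F : Finset (Fin n) → ℝ) : Ew ∅ q F = F ∅ := by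
  unfold Ew
  simp

theorem Ew_insert {e : Fin n} {G : Finset (Fin n)} (he : e ∉ G) (q : ℝ)
    (F : Finset (Fin n) → ℝ) :
    Ew (insert e G) q F = (1 - q) * Ew G q F + q * Ew G q (fun T => F (insert e T)) := by
  classical
  unfold Ew
  rw [sum_powerset_insert he, mul_sum, mul_sum]
  congr 1
  · refine sum_congr rfl fun T hT => ?_
    have hTG := mem_powerset.1 hT
    have h1 : insert e G \ T = insert e (G \ T) := by
      rw [insert_sdiff_of_notMem _ (fun h => he (hTG h))]
    rw [h1, card_insert_of_notMem (fun h => he (mem_sdiff.1 h).1), pow_succ]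
    ring
  · refine sum_congr rfl fun T hT => ?_
    have hTG := mem_powerset.1 hT
    have h1 : insert e G \ insert e T = G \ T := by
      ext x
      rw [mem_sdiff, mem_sdiff, mem_insert, mem_insert, not_or]
      constructor
      · rintro ⟨h | h, h2, h3⟩
        · exact absurd h h2
        · exact ⟨h, h3⟩
      · rintro ⟨h2, h3⟩
        exact ⟨Or.inr h2, fun h => he (h ▸ h2), h3⟩
    rw [h1, card_insert_of_notMem (fun h => he (hTG h)), pow_succ]
    ring

theorem Ew_erase {b : Fin n} {G : Finset (Fin n)} (hb : b ∈ G) (q : ℝ)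
    (F : Finset (Fin n) → ℝ) :
    Ew G q F = (1 - q) * Ew (G.erase b) q F + q * Ew (G.erase b) q (fun T => F (insert b T)) := by
  conv_lhs => rw [← insert_erase hb]
  exact Ew_insert (notMem_erase b G) q F

theorem Ew_const (G : Finset (Fin n)) (q a : ℝ) : Ew G q (fun _ => a) = a := by
  classical
  induction G using Finset.induction_on with
  | empty => rw [Ew_empty]
  | @insert e G he ih =>
    rw [Ew_insert he, ih]
    ring

/-- flipping the label of one element -/
theorem Ew_flip {b : Fin n} {G : Finset (Fin n)} (hb : b ∈ G) (q : ℝ)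
    (F : Finset (Fin n) → ℝ) (hF : ∀ T, T ⊆ G.erase b → F (insert b T) = F T) :
    (1 - q) * Ew G q (fun T => if b ∈ T then F T else 0)
      = q * Ew G q (fun T => if b ∈ T then 0 else F T) := by
  rw [Ew_erase hb, Ew_erase hb]
  have h1 : Ew (G.erase b) q (fun T => if b ∈ T then F T else 0) = 0 := by
    rw [Ew_congr (F' := fun _ => 0), Ew_const]
    intro T hT
    rw [if_neg (fun h => (mem_erase.1 (hT h)).1 rfl)]
  have h2 : Ew (G.erase b) q (fun T => if b ∈ insert b T then (0 : ℝ) else F (insert b T)) = 0 := by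
    rw [Ew_congr (F' := fun _ => 0), Ew_const]
    intro T hT
    rw [if_pos (mem_insert_self b T)]
  have h3 : Ew (G.erase b) q (fun T => if b ∈ insert b T then F (insert b T) else 0)
      = Ew (G.erase b) q F := by
    refine Ew_congr _ _ fun T hT => ?_
    rw [if_pos (mem_insert_self b T), hF T hT]
  have h4 : Ew (G.erase b) q (fun T => if b ∈ T then 0 else F T) = Ew (G.erase b) q F := by
    refine Ew_congr _ _ fun T hT => ?_
    rw [if_neg (fun h => (mem_erase.1 (hT h)).1 rfl)]
  rw [h1, h2, h3, h4]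
  ring

/-- the probability that a given element is chosen -/
theorem Ew_mem {b : Fin n} {G : Finset (Fin n)} (hb : b ∈ G) (q : ℝ)
    (F : Finset (Fin n) → ℝ) :
    Ew G q (fun T => if b ∈ T then F T else 0)
      = q * Ew (G.erase b) q (fun T => F (insert b T)) := by
  rw [Ew_erase hb]
  have h1 : Ew (G.erase b) q (fun T => if b ∈ T then F T else 0) = 0 := by
    rw [Ew_congr (F' := fun _ => 0), Ew_const]
    intro T hT
    rw [if_neg (fun h => (mem_erase.1 (hT h)).1 rfl)]
  have h3 : Ew (G.erase b) q (fun T => if b ∈ insert b T then F (insert b T) else 0)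
      = Ew (G.erase b) q (fun T => F (insert b T)) := by
    refine Ew_congr _ _ fun T hT => ?_
    rw [if_pos (mem_insert_self b T)]
  rw [h1, h3]
  ring

end Pool.Agent.Work.MP_3bf421_lc_FZ
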