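import Pool.Agent.Work.MP_3bf421_lc.UN.Greedy

set_option autoImplicit false

/-!
Abel summation along the order of the elements.
-/

namespace Pool.Agent.Work.MP_3bf421_lc_FZ

open Finset

variable {n : ℕ} {α : Type*} [LinearOrder α]

open Classical in
theorem prefix_sum (κ : Fin n → α) (hκ : Function.Injective κ) (A : Fin n → ℝ)
    (hA : ∀ e, 0 ≤ A e) {c : ℝ} (B : Finset (Fin n)) :
    ∀ w : Fin n → ℝ, (∀ e, 0 ≤ w e) → (∀ x y, κ x ≤ κ y → w x ≤ w y) →
    (∀ a ∈ B, c * ((B.filter (fun b => κ a ≤ κ b)).card : ℝ)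
      ≤ ∑ e ∈ univ.filter (fun e => κ a ≤ κ e), A e) →
    c * ∑ b ∈ B, w b ≤ ∑ e, w e * A e := by
  refine _root_.MP_3bf421_lc.UN.min_induction (κ := κ) hκ (p := fun B =>
    ∀ w : Fin n → ℝ, (∀ e, 0 ≤ w e) → (∀ x y, κ x ≤ κ y → w x ≤ w y) →
    (∀ a ∈ B, c * ((B.filter (fun b => κ a ≤ κ b)).card : ℝ)
      ≤ ∑ e ∈ univ.filter (fun e => κ a ≤ κ e), A e) →
    c * ∑ b ∈ B, w b ≤ ∑ e, w e * A e) ?_ ?_ B
  · intro w hw _ _
    rw [sum_empty, mul_zero]
    exact sum_nonneg fun e _ => mul_nonneg (hw e) (hA e)
  · intro b0 B' hb0 hmin ih w hw hmono h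
    set w' : Fin n → ℝ := fun e => max (w e - w b0) 0 with hw'
    have h1 : c * ∑ b ∈ B', w' b ≤ ∑ e, w' e * A e := by
      apply ih w'
      · intro e
        exact le_max_right _ _
      · intro x y hxy
        exact max_le_max_right 0 (by have := hmono x y hxy; linarith)
      · intro a ha
        have h2 := h a (mem_insert_of_mem ha)
        rw [filter_insert, if_neg (not_le.2 (hmin a ha))] at h2
        exact h2
    have h2 := h b0 (mem_insert_self _ _)
    have h3 : (insert b0 B').filter (fun b => κ b0 ≤ κ b) = insert b0 B' := by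
      apply filter_true_of_mem
      intro x hx
      rcases mem_insert.1 hx with rfl | hx
      · exact le_rfl
      · exact (hmin x hx).le
    rw [h3, card_insert_of_notMem hb0] at h2
    have h4 : ∑ b ∈ B', w' b = ∑ b ∈ B', w b - (B'.card : ℝ) * w b0 := by
      rw [← nsmul_eq_mul, ← sum_const, ← sum_sub_distrib]
      refine sum_congr rfl fun b hb => ?_
      rw [hw']
      simp only
      apply max_eq_left
      have := hmono b0 b (hmin b hb).le
      linarith
    have h5 : w b0 * ∑ e ∈ univ.filter (fun e => κ b0 ≤ κ e), A e + ∑ e, w' e * A e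
        ≤ ∑ e, w e * A e := by
      rw [sum_filter, mul_sum, ← sum_add_distrib]
      refine sum_le_sum fun e _ => ?_
      by_cases he : κ b0 ≤ κ e
      · rw [if_pos he]
        have h6 : w' e = w e - w b0 := by
          rw [hw']
          simp only
          apply max_eq_left
          have := hmono b0 e he
          linarith
        rw [h6]
        apply le_of_eq
        ring
      · rw [if_neg he, mul_zero, zero_add]
        have h6 : w' e = 0 := by
          rw [hw']
          simp only
          apply max_eq_right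
          have := hmono e b0 (not_le.1 he).le
          linarith
        rw [h6, zero_mul]
        exact mul_nonneg (hw e) (hA e)
    have h6 : w b0 * (c * ((B'.card + 1 : ℕ) : ℝ))
        ≤ w b0 * ∑ e ∈ univ.filter (fun e => κ b0 ≤ κ e), A e :=
      mul_le_mul_of_nonneg_left h2 (hw b0)
    rw [sum_insert hb0]
    rw [h4] at h1
    push_cast at h6
    have h7 : c * (w b0 + ∑ b ∈ B', w b)
        = w b0 * (c * ((B'.card : ℝ) + 1)) + c * (∑ b ∈ B', w b - (B'.card : ℝ) * w b0) := by ring
    rw [h7]
    linarith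

end Pool.Agent.Work.MP_3bf421_lc_FZ
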