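import Pool.Agent.Work.MP_3bf421_lc_FZ.Loc
import Pool.Agent.Work.MP_3bf421_lc_FZ.Ew
import Pool.Agent.Work.MP_3bf421_lc_FZ.Prefix

set_option autoImplicit false

/-!
The rules in the form of the problem.
-/

namespace Pool.Agent.Work.MP_3bf421_lc_FZ

open Finset
open Pool.Agent.Work.MP_3bf421_lc_LU
open _root_.MP_3bf421_lc.UN (rk fs cont)

variable {n : ℕ}

open Classical in
/-- the decision at time `i` -/
noncomputable def decB (N : ℕ) (lev : ℕ → ℕ → ℕ) (r : Par) (s0 s1 : ℕ)
    (π : Equiv.Perm (Fin n)) (i : Fin n) (wt : Fin n → ℝ) (P : Set (Fin n) → Prop) : Bool :=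
  decide (s0 ≤ s1 ∧ s1 ≤ i.val ∧ ∃ M' : Matroid (Fin n), M'.E = Set.univ ∧
    (∀ S : Set (Fin n), S ⊆ Set.Iic i → (M'.Indep S ↔ P S)) ∧
    AccB M' (keyP π wt) (fun x => lev (rk M' (preP n s0)) (xr M' (keyP π wt) (preP n s0) x))
      N r (preP n s1) (fun x => x.val) i)

/-- the acceptance of the element `e` in terms of the elements -/
def AccE {α : Type*} [LinearOrder α] (M : Matroid (Fin n)) (κ : Fin n → α) (N : ℕ)
    (lev : ℕ → ℕ → ℕ) (r : Par) (s0 s1 : ℕ) (σ : Equiv.Perm (Fin n)) (e : Fin n) : Prop :=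
  AccB M κ (fun x => lev (rk M (pre σ s0)) (xr M κ (pre σ s0) x)) N r (pre σ s1)
    (fun x => (σ.symm x).val) e

theorem decB_iff (M : Matroid (Fin n)) (hE : M.E = Set.univ) (w : Fin n → ℝ)
    (σ π : Equiv.Perm (Fin n)) (N : ℕ) (lev : ℕ → ℕ → ℕ) (r : Par) (s0 s1 : ℕ) (i : Fin n) :
    decB N lev r s0 s1 π i (seenW w σ i) (seenP M σ i) = true ↔
      s0 ≤ s1 ∧ AccE M (keyE w (σ.symm.trans π)) N lev r s0 s1 σ (σ i) := by
  classical
  have hκ : ∀ j l : Fin n, j ≤ i → l ≤ i → (keyP π (seenW w σ i) j < keyP π (seenW w σ i) l ↔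
      keyE w (σ.symm.trans π) (σ j) < keyE w (σ.symm.trans π) (σ l)) := by
    intro j l hj hl
    unfold keyP keyE seenW
    rw [if_pos hj, if_pos hl, Equiv.trans_apply, Equiv.trans_apply, Equiv.symm_apply_apply,
      Equiv.symm_apply_apply]
  have key : ∀ M' : Matroid (Fin n), M'.E = Set.univ →
      (∀ S : Set (Fin n), S ⊆ Set.Iic i → (M'.Indep S ↔ seenP M σ i S)) → s0 ≤ s1 →
      s1 ≤ i.val →
      (AccB M' (keyP π (seenW w σ i)) (fun x => lev (rk M' (preP n s0))
        (xr M' (keyP π (seenW w σ i)) (preP n s0) x)) N r (preP n s1) (fun x => x.val) i ↔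
      AccE M (keyE w (σ.symm.trans π)) N lev r s0 s1 σ (σ i)) := by
    intro M' hE' hP h01 h1i
    have hP' : ∀ S : Set (Fin n), S ⊆ Set.Iic i → (M'.Indep S ↔ M.Indep (σ '' S)) := by
      intro S hS
      rw [hP S hS]
      unfold seenP
      rw [Set.inter_eq_left.2 hS]
    unfold AccE
    refine AccB_loc M M' hE hE' σ i hP' (keyE w (σ.symm.trans π)) (keyP π (seenW w σ i)) hκ
      _ _ ?_ N r s1 h1i
    intro x hx
    beta_reduce
    rw [rk_loc M M' hE hE' σ i hP' (preP n s0) (fun y hy => by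
      rw [mem_preP] at hy
      have : y.val ≤ i.val := by omega
      exact this), map_preP,
      xr_loc M M' hE hE' σ i hP' (keyE w (σ.symm.trans π)) (keyP π (seenW w σ i)) hκ s0
        (by omega) x hx]
  unfold decB
  rw [decide_eq_true_iff]
  constructor
  · rintro ⟨h01, h1i, M', hE', hP, hacc⟩
    exact ⟨h01, (key M' hE' hP h01 h1i).1 hacc⟩
  · rintro ⟨h01, hacc⟩
    have h1i : s1 ≤ i.val := by
      by_contra hcon
      push Not at hcon
      apply hacc.1.1.1
      rw [mem_pre, Equiv.symm_apply_apply]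
      exact hcon
    have hE' : (M.comap σ).E = Set.univ := by
      rw [Matroid.comap_ground_eq, hE, Set.preimage_univ]
    have hP : ∀ S : Set (Fin n), S ⊆ Set.Iic i → ((M.comap σ).Indep S ↔ seenP M σ i S) := by
      intro S hS
      rw [Matroid.comap_indep_iff]
      unfold seenP
      rw [Set.inter_eq_left.2 hS]
      exact ⟨fun h => h.1, fun h => ⟨h, σ.injective.injOn⟩⟩
    exact ⟨h01, h1i, M.comap σ, hE', hP, (key _ hE' hP h01 h1i).2 hacc⟩

theorem decB_indep (M : Matroid (Fin n)) (hE : M.E = Set.univ) (w : Fin n → ℝ)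
    (σ π : Equiv.Perm (Fin n)) (N : ℕ) (lev : ℕ → ℕ → ℕ) (hlev : ∀ y x, lev y x < N) (r : Par)
    (hr : ∀ i i', r.act i = true → r.act i' = true → r.st i < r.st i' → r.en i ≤ r.st i')
    (hst : ∀ i, r.st i ≤ i) (s0 s1 : ℕ) :
    M.Indep (σ '' {i | decB N lev r s0 s1 π i (seenW w σ i) (seenP M σ i) = true}) := by
  have h1 := accB_indep M hE (keyE w (σ.symm.trans π))
    (fun x => lev (rk M (pre σ s0)) (xr M (keyE w (σ.symm.trans π)) (pre σ s0) x)) N
    (fun x => hlev _ _) r hr hst (pre σ s1) (fun x => (σ.symm x).val)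
    (fun x y h => σ.symm.injective (Fin.ext h))
  refine h1.subset ?_
  rintro _ ⟨i, hi, rfl⟩
  exact ((decB_iff M hE w σ π N lev r s0 s1 i).1 hi).2

open Classical in
theorem decB_value (M : Matroid (Fin n)) (hE : M.E = Set.univ) (w : Fin n → ℝ)
    (σ π : Equiv.Perm (Fin n)) (N : ℕ) (lev : ℕ → ℕ → ℕ) (r : Par) (s0 s1 : ℕ)
    (h01 : s0 ≤ s1) :
    ∑ i : Fin n, (if decB N lev r s0 s1 π i (seenW w σ i) (seenP M σ i) = true
      then w (σ i) else 0) =
      ∑ e : Fin n, (if AccE M (keyE w (σ.symm.trans π)) N lev r s0 s1 σ e then w e else 0) := by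
  rw [← Equiv.sum_comp σ (fun e => if AccE M (keyE w (σ.symm.trans π)) N lev r s0 s1 σ e
    then w e else 0)]
  refine sum_congr rfl fun i _ => ?_
  have h1 := decB_iff M hE w σ π N lev r s0 s1 i
  by_cases h2 : AccE M (keyE w (σ.symm.trans π)) N lev r s0 s1 σ (σ i)
  · rw [if_pos h2, if_pos (h1.2 ⟨h01, h2⟩)]
  · rw [if_neg h2, if_neg (fun h => h2 (h1.1 h).2)]

/-- the coins -/
abbrev CT (n L : ℕ) := Fin L × Finset (Fin n) × Finset (Fin n) × Equiv.Perm (Fin n)

open Classical in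
/-- the probability of a coin -/
noncomputable def wt (n L : ℕ) (q : ℝ) (x : CT n L) : ℝ :=
  (1 / L) * (1 / 2 ^ n) * (if x.2.2.1 ⊆ x.2.1ᶜ then
    q ^ x.2.2.1.card * (1 - q) ^ (x.2.1ᶜ \ x.2.2.1).card else 0) * (1 / n.factorial)

theorem sum_if_powerset (A : Finset (Fin n)) (F : Finset (Fin n) → ℝ) :
    ∑ T : Finset (Fin n), (if T ⊆ Aᶜ then F T else 0) = ∑ T ∈ (Aᶜ).powerset, F T := by
  classical
  rw [← sum_filter]
  refine sum_congr ?_ fun _ _ => rfl
  ext T
  rw [mem_powerset, mem_filter]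
  simp

theorem sum_wt (n L : ℕ) (hL : 0 < L) (q : ℝ) : ∑ x : CT n L, wt n L q x = 1 := by
  classical
  rw [Fintype.sum_prod_type]
  have h1 : ∀ l : Fin L, ∑ y : Finset (Fin n) × Finset (Fin n) × Equiv.Perm (Fin n),
      wt n L q (l, y) = 1 / L := by
    intro l
    rw [Fintype.sum_prod_type]
    have h2 : ∀ A : Finset (Fin n), ∑ y : Finset (Fin n) × Equiv.Perm (Fin n),
        wt n L q (l, A, y) = (1 / L) * (1 / 2 ^ n) := by
      intro A
      rw [Fintype.sum_prod_type]
      have h3 : ∀ T : Finset (Fin n), ∑ π : Equiv.Perm (Fin n), wt n L q (l, A, T, π)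
          = (1 / L) * (1 / 2 ^ n) * (if T ⊆ Aᶜ then
            q ^ T.card * (1 - q) ^ (Aᶜ \ T).card * 1 else 0) := by
        intro T
        unfold wt
        simp only
        rw [sum_const, card_univ, Fintype.card_perm, Fintype.card_fin, nsmul_eq_mul]
        have hf : (n.factorial : ℝ) ≠ 0 := by exact_mod_cast n.factorial_ne_zero
        rw [mul_one]
        field_simp
      rw [sum_congr rfl (fun T _ => h3 T), ← mul_sum, sum_if_powerset]
      have h4 := Ew_const Aᶜ q 1
      unfold Ew at h4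
      rw [h4, mul_one]
    rw [sum_congr rfl (fun A _ => h2 A), sum_const, card_univ, Fintype.card_finset,
      Fintype.card_fin, nsmul_eq_mul]
    push_cast
    field_simp
  rw [sum_congr rfl (fun l _ => h1 l), sum_const, card_univ, Fintype.card_fin, nsmul_eq_mul]
  have : (L : ℝ) ≠ 0 := by exact_mod_cast hL.ne'
  field_simp

theorem wt_nonneg (n L : ℕ) {q : ℝ} (h0 : 0 ≤ q) (h1 : q ≤ 1) (x : CT n L) :
    0 ≤ wt n L q x := by
  classical
  have h2 : 0 ≤ 1 - q := by linarith
  unfold wt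
  split_ifs <;> positivity

open Classical in
/-- the total weight of acceptances of `e` -/
noncomputable def tot {α : Type*} [LinearOrder α] (M : Matroid (Fin n)) (κ : Fin n → α) (N : ℕ)
    (lev : ℕ → ℕ → ℕ) (L : ℕ) (r : Fin L → Par) (q : ℝ) (e : Fin n) : ℝ :=
  ∑ A : Finset (Fin n), ∑ T ∈ (Aᶜ).powerset, q ^ T.card * (1 - q) ^ (Aᶜ \ T).card *
    ∑ l : Fin L, ((univ.filter fun σ : Equiv.Perm (Fin n) =>
      AccE M κ N lev (r l) A.card (n - T.card) σ e).card : ℝ)

open Classical in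
theorem total_eq (M : Matroid (Fin n)) (hE : M.E = Set.univ) (w : Fin n → ℝ)
    (N : ℕ) (lev : ℕ → ℕ → ℕ) (L : ℕ) (r : Fin L → Par) (q : ℝ) :
    ∑ σ : Equiv.Perm (Fin n), ∑ x : CT n L, wt n L q x * ∑ i : Fin n,
      (if decB N lev (r x.1) x.2.1.card (n - x.2.2.1.card) x.2.2.2 i (seenW w σ i)
        (seenP M σ i) = true then w (σ i) else 0)
    = (1 / L) * (1 / 2 ^ n) * (1 / n.factorial) * ∑ τ : Equiv.Perm (Fin n), ∑ e : Fin n,
      w e * tot M (keyE w τ) N lev L r q e := by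
  -- for fixed l, A, T
  set G : Fin L → Finset (Fin n) → Finset (Fin n) → Equiv.Perm (Fin n) → Fin n → ℝ :=
    fun l A T τ e => ((univ.filter fun σ : Equiv.Perm (Fin n) =>
      AccE M (keyE w τ) N lev (r l) A.card (n - T.card) σ e).card : ℝ) with hG
  have h1 : ∀ (l : Fin L) (A T : Finset (Fin n)), T ⊆ Aᶜ →
      ∑ σ : Equiv.Perm (Fin n), ∑ π : Equiv.Perm (Fin n), ∑ i : Fin n,
      (if decB N lev (r l) A.card (n - T.card) π i (seenW w σ i)
        (seenP M σ i) = true then w (σ i) else 0)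
      = ∑ τ : Equiv.Perm (Fin n), ∑ e : Fin n, w e * G l A T τ e := by
    intro l A T hT
    have h01 : A.card ≤ n - T.card := by
      have h2 := card_le_card hT
      have h3 := card_compl A
      have h4 := card_le_univ A
      rw [Fintype.card_fin] at h3 h4
      omega
    have h2 : ∀ σ : Equiv.Perm (Fin n), ∑ π : Equiv.Perm (Fin n), ∑ i : Fin n,
        (if decB N lev (r l) A.card (n - T.card) π i (seenW w σ i)
        (seenP M σ i) = true then w (σ i) else 0) =
        ∑ τ : Equiv.Perm (Fin n), ∑ e : Fin n,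
          (if AccE M (keyE w τ) N lev (r l) A.card (n - T.card) σ e then w e else 0) := by
      intro σ
      rw [sum_congr rfl fun π _ => decB_value M hE w σ π N lev (r l) _ _ h01]
      refine Fintype.sum_equiv ((Equiv.mulRight σ.symm : Equiv.Perm (Equiv.Perm (Fin n)))) _ _ ?_
      intro π
      have h3 : (Equiv.mulRight σ.symm) π = σ.symm.trans π := rfl
      rw [h3]
    rw [sum_congr rfl fun σ _ => h2 σ, sum_comm]
    refine sum_congr rfl fun τ _ => ?_
    rw [sum_comm]
    refine sum_congr rfl fun e _ => ?_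
    rw [← sum_filter, sum_const, nsmul_eq_mul, mul_comm]
  have hL : ∑ σ : Equiv.Perm (Fin n), ∑ x : CT n L, wt n L q x * ∑ i : Fin n,
      (if decB N lev (r x.1) x.2.1.card (n - x.2.2.1.card) x.2.2.2 i (seenW w σ i)
        (seenP M σ i) = true then w (σ i) else 0)
      = ∑ l : Fin L, ∑ A : Finset (Fin n), ∑ T : Finset (Fin n),
        (1 / L) * (1 / 2 ^ n) * (if T ⊆ Aᶜ then
          q ^ T.card * (1 - q) ^ (Aᶜ \ T).card else 0) * (1 / n.factorial) *
        ∑ σ : Equiv.Perm (Fin n), ∑ π : Equiv.Perm (Fin n), ∑ i : Fin n,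
      (if decB N lev (r l) A.card (n - T.card) π i (seenW w σ i)
        (seenP M σ i) = true then w (σ i) else 0) := by
    rw [sum_comm, Fintype.sum_prod_type]
    refine sum_congr rfl fun l _ => ?_
    rw [Fintype.sum_prod_type]
    refine sum_congr rfl fun A _ => ?_
    rw [Fintype.sum_prod_type]
    refine sum_congr rfl fun T _ => ?_
    rw [sum_comm (s := (univ : Finset (Equiv.Perm (Fin n)))) (t := (univ : Finset (Equiv.Perm (Fin n))))
      (f := fun σ π => ∑ i : Fin n,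
      (if decB N lev (r l) A.card (n - T.card) π i (seenW w σ i)
        (seenP M σ i) = true then w (σ i) else 0)), mul_sum]
    refine sum_congr rfl fun π _ => ?_
    rw [mul_sum]
    refine sum_congr rfl fun σ _ => ?_
    rfl
  rw [hL]
  have hR : ∀ (τ : Equiv.Perm (Fin n)) (e : Fin n), w e * tot M (keyE w τ) N lev L r q e
      = ∑ l : Fin L, ∑ A : Finset (Fin n), ∑ T : Finset (Fin n),
        (if T ⊆ Aᶜ then q ^ T.card * (1 - q) ^ (Aᶜ \ T).card * (w e * G l A T τ e) else 0) := by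
    intro τ e
    unfold tot
    rw [sum_comm, mul_sum]
    refine sum_congr rfl fun A _ => ?_
    rw [sum_comm, ← sum_if_powerset, mul_sum]
    refine sum_congr rfl fun T _ => ?_
    by_cases hT : T ⊆ Aᶜ
    · simp only [if_pos hT]
      rw [mul_sum, mul_sum]
      refine sum_congr rfl fun l _ => ?_
      ring
    · simp only [if_neg hT]
      rw [mul_zero, sum_const_zero]
  simp only [hR]
  have hswap : ∑ τ : Equiv.Perm (Fin n), ∑ e : Fin n, ∑ l : Fin L, ∑ A : Finset (Fin n),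
      ∑ T : Finset (Fin n), (if T ⊆ Aᶜ then q ^ T.card * (1 - q) ^ (Aᶜ \ T).card *
        (w e * G l A T τ e) else 0)
      = ∑ l : Fin L, ∑ A : Finset (Fin n), ∑ T : Finset (Fin n),
        (if T ⊆ Aᶜ then q ^ T.card * (1 - q) ^ (Aᶜ \ T).card *
          ∑ τ : Equiv.Perm (Fin n), ∑ e : Fin n, w e * G l A T τ e else 0) := by
    have h2 : ∀ τ : Equiv.Perm (Fin n), ∑ e : Fin n, ∑ l : Fin L, ∑ A : Finset (Fin n),
      ∑ T : Finset (Fin n), (if T ⊆ Aᶜ then q ^ T.card * (1 - q) ^ (Aᶜ \ T).card *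
        (w e * G l A T τ e) else 0)
        = ∑ l : Fin L, ∑ A : Finset (Fin n), ∑ T : Finset (Fin n), ∑ e : Fin n,
          (if T ⊆ Aᶜ then q ^ T.card * (1 - q) ^ (Aᶜ \ T).card *
        (w e * G l A T τ e) else 0) := by
      intro τ
      rw [sum_comm]
      refine sum_congr rfl fun l _ => ?_
      rw [sum_comm]
      refine sum_congr rfl fun A _ => ?_
      rw [sum_comm]
    rw [sum_congr rfl (fun τ _ => h2 τ), sum_comm]
    refine sum_congr rfl fun l _ => ?_
    rw [sum_comm]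
    refine sum_congr rfl fun A _ => ?_
    rw [sum_comm]
    refine sum_congr rfl fun T _ => ?_
    by_cases hT : T ⊆ Aᶜ
    · simp only [if_pos hT]
      rw [mul_sum]
      refine sum_congr rfl fun τ _ => ?_
      rw [mul_sum]
    · simp only [if_neg hT]
      rw [sum_const_zero, sum_const_zero]
  rw [hswap, mul_sum]
  refine sum_congr rfl fun l _ => ?_
  rw [mul_sum]
  refine sum_congr rfl fun A _ => ?_
  rw [mul_sum]
  refine sum_congr rfl fun T _ => ?_
  by_cases hT : T ⊆ Aᶜ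
  · simp only [if_pos hT]
    rw [h1 l A T hT]
    ring
  · simp only [if_neg hT]
    ring

open Classical in
/-- **The rules in the form of the problem.** -/
theorem rule_valueB (n L : ℕ) (hL : 0 < L) (N : ℕ) (lev : ℕ → ℕ → ℕ)
    (hlev : ∀ y x, lev y x < N) (r : Fin L → Par)
    (hr : ∀ l i i', (r l).act i = true → (r l).act i' = true → (r l).st i < (r l).st i' →
      (r l).en i ≤ (r l).st i') (hst : ∀ l i, (r l).st i ≤ i) (q : ℝ) (hq0 : 0 ≤ q)
    (hq1 : q ≤ 1) : ∃ m : ℕ, ∃ p : Fin m → ℝ, (∀ s, 0 ≤ p s) ∧ (∑ s, p s = 1) ∧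
    ∃ D : Fin m → Fin n → (Fin n → ℝ) → (Set (Fin n) → Prop) → Bool,
      ∀ (M : Matroid (Fin n)) (w : Fin n → ℝ), M.E = Set.univ → (∀ e, 0 ≤ w e) →
        (∀ (s : Fin m) (σ : Equiv.Perm (Fin n)),
          M.Indep (σ '' {i | D s i (fun j => if j ≤ i then w (σ j) else 0)
              (fun S => M.Indep (σ '' (S ∩ Set.Iic i))) = true})) ∧
        ∀ c : ℝ, 0 ≤ c →
          (∀ κ : Fin n → ℝ ×ₗ Fin n, Function.Injective κ → (∀ x y, κ x ≤ κ y → w x ≤ w y) →
            ∀ a ∈ optB M κ, c * L * (n.factorial : ℝ) * 2 ^ n *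
              (((optB M κ).filter (fun b => κ a ≤ κ b)).card : ℝ) ≤
              ∑ e ∈ univ.filter (fun e => κ a ≤ κ e), tot M κ N lev L r q e) →
          ∀ I : Finset (Fin n), M.Indep (↑I : Set (Fin n)) →
            c * ∑ e ∈ I, w e ≤
              (∑ σ : Equiv.Perm (Fin n), ∑ s : Fin m, p s *
                ∑ i : Fin n, (if D s i (fun j => if j ≤ i then w (σ j) else 0)
                  (fun S => M.Indep (σ '' (S ∩ Set.Iic i))) = true then w (σ i) else 0))
              / (n.factorial : ℝ) := by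
  set e : Fin (Fintype.card (CT n L)) ≃ CT n L := (Fintype.equivFin (CT n L)).symm with he
  refine ⟨Fintype.card (CT n L), fun s => wt n L q (e s), fun s => wt_nonneg n L hq0 hq1 _, ?_,
    fun s i wt' P => decB N lev (r (e s).1) (e s).2.1.card (n - (e s).2.2.1.card) (e s).2.2.2 i
      wt' P, ?_⟩
  · rw [Equiv.sum_comp e (fun x => wt n L q x)]
    exact sum_wt n L hL q
  · intro M w hE hw
    refine ⟨fun s σ => decB_indep M hE w σ _ N lev hlev _ (hr _) (hst _) _ _, ?_⟩
    intro c hc h I hI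
    have hf : (0 : ℝ) < (n.factorial : ℝ) := by exact_mod_cast n.factorial_pos
    have hL0 : (0 : ℝ) < (L : ℝ) := by exact_mod_cast hL
    rw [le_div_iff₀ hf]
    have h1 : ∑ σ : Equiv.Perm (Fin n), ∑ s : Fin (Fintype.card (CT n L)), wt n L q (e s) *
        ∑ i : Fin n, (if decB N lev (r (e s).1) (e s).2.1.card (n - (e s).2.2.1.card)
          (e s).2.2.2 i (fun j => if j ≤ i then w (σ j) else 0)
          (fun S => M.Indep (σ '' (S ∩ Set.Iic i))) = true then w (σ i) else 0)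
        = (1 / L) * (1 / 2 ^ n) * (1 / n.factorial) * ∑ τ : Equiv.Perm (Fin n), ∑ e : Fin n,
      w e * tot M (keyE w τ) N lev L r q e := by
      rw [← total_eq M hE w N lev L r q]
      refine sum_congr rfl fun σ _ => ?_
      exact Equiv.sum_comp e (fun x => wt n L q x * ∑ i : Fin n,
        (if decB N lev (r x.1) x.2.1.card (n - x.2.2.1.card) x.2.2.2 i (seenW w σ i)
        (seenP M σ i) = true then w (σ i) else 0))
    rw [h1]
    have htot0 : ∀ (τ : Equiv.Perm (Fin n)) (x : Fin n), 0 ≤ tot M (keyE w τ) N lev L r q x := by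
      intro τ x
      unfold tot
      refine sum_nonneg fun A _ => sum_nonneg fun T _ => ?_
      exact mul_nonneg (Ew_weight_nonneg hq0 hq1 Aᶜ T) (sum_nonneg fun l _ => Nat.cast_nonneg _)
    have h2 : ∀ τ : Equiv.Perm (Fin n), c * L * (n.factorial : ℝ) * 2 ^ n * ∑ x ∈ I, w x
        ≤ ∑ x : Fin n, w x * tot M (keyE w τ) N lev L r q x := by
      intro τ
      have h3 := greedy_opt M hE (keyE w τ) (keyE_inj w τ) w hw (keyE_mono w τ) I hI
      have h4 := prefix_sum (keyE w τ) (keyE_inj w τ) (tot M (keyE w τ) N lev L r q)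
        (htot0 τ) (c := c * L * (n.factorial : ℝ) * 2 ^ n) (optB M (keyE w τ)) w hw
        (keyE_mono w τ) (fun a ha => h (keyE w τ) (keyE_inj w τ) (keyE_mono w τ) a ha)
      exact (mul_le_mul_of_nonneg_left h3 (by positivity)).trans h4
    have h3 : (n.factorial : ℝ) * (c * L * (n.factorial : ℝ) * 2 ^ n * ∑ x ∈ I, w x)
        ≤ ∑ τ : Equiv.Perm (Fin n), ∑ x : Fin n, w x * tot M (keyE w τ) N lev L r q x := by
      have h4 : (n.factorial : ℝ) * (c * L * (n.factorial : ℝ) * 2 ^ n * ∑ x ∈ I, w x)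
          = ∑ _τ : Equiv.Perm (Fin n), (c * L * (n.factorial : ℝ) * 2 ^ n * ∑ x ∈ I, w x) := by
        rw [sum_const, card_univ, Fintype.card_perm, Fintype.card_fin, nsmul_eq_mul]
      rw [h4]
      exact sum_le_sum fun τ _ => h2 τ
    calc (c * ∑ x ∈ I, w x) * (n.factorial : ℝ)
        = (1 / L) * (1 / 2 ^ n) * (1 / n.factorial) *
          ((n.factorial : ℝ) * (c * L * (n.factorial : ℝ) * 2 ^ n * ∑ x ∈ I, w x)) := by
          field_simp
      _ ≤ _ := mul_le_mul_of_nonneg_left h3 (by positivity)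

end Pool.Agent.Work.MP_3bf421_lc_FZ
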