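import Pool.Agent.Work.MP_3bf421_lc_FZ.Total
import Pool.Agent.Work.MP_3bf421_lc_FZ.RuleB

set_option autoImplicit false

/-!
Unions of matroids: the numbers and the rule.
-/

namespace Pool.Agent.Work.MP_3bf421_lc_FZ

open Finset
open Pool.Agent.Work.MP_3bf421_lc_LU
open _root_.MP_3bf421_lc.UN (rk fs cont)

variable {n : ℕ} {α : Type*} [LinearOrder α]

open Classical in
theorem tot_ge {l : ℕ} (M : Matroid (Fin n)) (hE : M.E = Set.univ) (κ : Fin n → α)
    (hκ : Function.Injective κ) (Ms : Fin l → Matroid (Fin n))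
    (hM : _root_.MP_3bf421_lc.UN.IsUnion M Ms) (k R : ℕ)
    (hk : ∀ j, k ≤ (univ.filter (fun i => Ms i = Ms j)).card)
    (hR : ∀ I : Finset (Fin n), M.Indep (I : Set (Fin n)) → I.card ≤ R)
    (J : ℕ) (hJ : 1 ≤ J) (hRk : (R : ℝ) ^ ((1 : ℝ) / J) ≤ Real.exp 1 ^ k)
    (a : Fin n) (ha : a ∈ optB M κ) (m : ℕ) (hm : J + 1 < 2 ^ m) :
    (1 / 2 ^ 28) / 4 * (n.factorial : ℝ) * 2 ^ n *
      (((optB M κ).filter (fun b => κ a ≤ κ b)).card : ℝ)
    ≤ ∑ e ∈ univ.filter (fun e => κ a ≤ κ e),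
      tot M κ (J + 1) (lev J) (m + 3) (fun l => rr m l) (1 / 2 ^ 28) e := by
  obtain ⟨q, hq⟩ : ∃ q : ℝ, q = 1 / 2 ^ 28 := ⟨_, rfl⟩
  have hq0 : 0 < q := by rw [hq]; positivity
  have hq1 : q ≤ 1 := by rw [hq]; norm_num
  have h1 := sum_FF M hE κ hκ Ms hM k R hk hR J hJ hRk a ha m hm
  have h2 := avg_sets q (FF M κ J m a)
  rw [← hq] at h1 ⊢
  have hf : (0 : ℝ) ≤ (n.factorial : ℝ) := Nat.cast_nonneg _
  have h3 := mul_le_mul_of_nonneg_left h1 hf
  rw [← h2] at h3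
  refine le_trans (le_of_eq (by ring)) (h3.trans ?_)
  unfold tot
  rw [sum_comm]
  refine sum_le_sum fun A _ => ?_
  rw [sum_comm]
  refine sum_le_sum fun T _ => ?_
  rw [← mul_sum]
  refine mul_le_mul_of_nonneg_left ?_ (Ew_weight_nonneg hq0.le hq1 Aᶜ T)
  have h4 : ∑ e ∈ univ.filter (fun e => κ a ≤ κ e), ∑ l : Fin (m + 3),
      ((univ.filter fun σ : Equiv.Perm (Fin n) =>
        AccE M κ (J + 1) (lev J) (rr m l) A.card (n - T.card) σ e).card : ℝ)
      = ∑ σ : Equiv.Perm (Fin n), ∑ l : Fin (m + 3), ((univ.filter (fun e => κ a ≤ κ e ∧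
        AccE M κ (J + 1) (lev J) (rr m l) A.card (n - T.card) σ e)).card : ℝ) := by
    rw [sum_comm]
    rw [sum_comm (s := (univ : Finset (Equiv.Perm (Fin n))))]
    refine sum_congr rfl fun l _ => ?_
    have h5 : ∀ e : Fin n, ((univ.filter fun σ : Equiv.Perm (Fin n) =>
        AccE M κ (J + 1) (lev J) (rr m l) A.card (n - T.card) σ e).card : ℝ)
        = ∑ σ : Equiv.Perm (Fin n), (if AccE M κ (J + 1) (lev J) (rr m l) A.card
          (n - T.card) σ e then (1 : ℝ) else 0) := by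
      intro e
      rw [← sum_filter, sum_const, nsmul_eq_mul, mul_one]
    rw [sum_congr rfl (fun e _ => h5 e), sum_comm]
    refine sum_congr rfl fun σ _ => ?_
    rw [← sum_filter, sum_const, nsmul_eq_mul, mul_one, filter_filter]
  rw [h4]
  refine sum_le_sum fun σ _ => ?_
  exact FF_le M hE κ hκ J m a (pre σ A.card) (pre σ (n - T.card))
    (fun x => (σ.symm x).val) (fun x y h => σ.symm.injective (Fin.ext h))

theorem rr_chain (m l : ℕ) : ∀ i i', (rr m l).act i = true → (rr m l).act i' = true →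
    (rr m l).st i < (rr m l).st i' → (rr m l).en i ≤ (rr m l).st i' := by
  unfold rr
  split_ifs
  · exact scaleP_chain l
  · exact ownP_chain _

theorem rr_st (m l i : ℕ) : (rr m l).st i ≤ i := by
  unfold rr
  split_ifs
  · exact scaleP_st l i
  · exact ownP_st _ i

/-- the number of windows -/
noncomputable def JJ (δ : ℝ) : ℕ := ⌈1 / δ⌉₊

/-- the number of scales -/
noncomputable def mm (δ : ℝ) : ℕ := Nat.log 2 (JJ δ + 1) + 1

theorem one_le_JJ {δ : ℝ} (h : 0 < δ) : 1 ≤ JJ δ := by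
  unfold JJ
  exact Nat.one_le_ceil_iff.2 (by positivity)

theorem JJ_lt (δ : ℝ) : JJ δ + 1 < 2 ^ mm δ := by
  unfold mm
  exact Nat.lt_pow_succ_log_self (by norm_num) _

theorem window_exp {δ : ℝ} (h0 : 0 < δ) (k R : ℕ) (hk : δ * Real.log (R + 1) ≤ k) :
    (R : ℝ) ^ ((1 : ℝ) / JJ δ) ≤ Real.exp 1 ^ k := by
  have hJ := one_le_JJ h0
  have hJ' : (0 : ℝ) < JJ δ := by exact_mod_cast hJ
  rw [Real.exp_one_pow]
  rcases Nat.eq_zero_or_pos R with hR | hR
  · rw [hR, Nat.cast_zero, Real.zero_rpow (by positivity)]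
    positivity
  · have hR' : (0 : ℝ) < R := by exact_mod_cast hR
    have hR1 : (1 : ℝ) ≤ R := by exact_mod_cast hR
    rw [Real.rpow_def_of_pos hR']
    apply Real.exp_le_exp.2
    have h1 : 1 / (JJ δ : ℝ) ≤ δ := by
      rw [div_le_iff₀ hJ']
      have h2 : 1 / δ ≤ (JJ δ : ℝ) := Nat.le_ceil _
      rw [div_le_iff₀ h0] at h2
      linarith
    have h2 : Real.log R ≤ Real.log (R + 1) := Real.log_le_log hR' (by linarith)
    have h3 : 0 ≤ Real.log R := Real.log_nonneg hR1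
    calc Real.log R * (1 / (JJ δ : ℝ)) ≤ Real.log (R + 1) * δ :=
          mul_le_mul h2 h1 (by positivity) (by linarith)
      _ = δ * Real.log (R + 1) := mul_comm _ _
      _ ≤ k := hk

/-- the ratio -/
noncomputable def cc (δ : ℝ) : ℝ := (1 / 2 ^ 28) / 4 / (mm δ + 3 : ℕ)

theorem cc_pos (δ : ℝ) : 0 < cc δ := by
  unfold cc
  positivity

theorem cc_ge {δ : ℝ} (h0 : 0 < δ) : 1 / (10 ^ 10 * Real.log (2 + 1 / δ)) ≤ cc δ := by
  have hδ : 0 < 1 / δ := by positivity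
  have hlog2 : 0.6931471803 < Real.log 2 := Real.log_two_gt_d9
  have hx : Real.log 2 ≤ Real.log (2 + 1 / δ) := Real.log_le_log (by norm_num) (by linarith)
  have h1 : (mm δ : ℝ) + 3 ≤ 5 * Real.log (2 + 1 / δ) / Real.log 2 := by
    have h2 : ((JJ δ + 1 : ℕ) : ℝ) ≤ 2 + 1 / δ := by
      have : (JJ δ : ℝ) < 1 / δ + 1 := Nat.ceil_lt_add_one hδ.le
      push_cast
      linarith
    have h3 : (2 : ℝ) ^ (Nat.log 2 (JJ δ + 1)) ≤ 2 + 1 / δ := by
      have h4 : 2 ^ (Nat.log 2 (JJ δ + 1)) ≤ JJ δ + 1 := Nat.pow_log_le_self 2 (by omega)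
      have h5 : ((2 ^ (Nat.log 2 (JJ δ + 1)) : ℕ) : ℝ) ≤ ((JJ δ + 1 : ℕ) : ℝ) := by
        exact_mod_cast h4
      push_cast at h5 h2
      linarith
    have h4 : (Nat.log 2 (JJ δ + 1) : ℝ) * Real.log 2 ≤ Real.log (2 + 1 / δ) := by
      rw [← Real.log_pow]
      exact Real.log_le_log (by positivity) h3
    have h5 : (mm δ : ℝ) = (Nat.log 2 (JJ δ + 1) : ℝ) + 1 := by
      unfold mm
      push_cast
      ring
    rw [h5, le_div_iff₀ (by linarith)]
    nlinarith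
  unfold cc
  have h2 : (0 : ℝ) < ((mm δ + 3 : ℕ) : ℝ) := by positivity
  have h3 : 0 < Real.log (2 + 1 / δ) := by linarith
  rw [div_div, div_div, div_le_div_iff₀ (by positivity) (by positivity), one_mul, one_mul]
  have h4 : ((mm δ + 3 : ℕ) : ℝ) ≤ 7.22 * Real.log (2 + 1 / δ) := by
    push_cast
    refine h1.trans ?_
    rw [div_le_iff₀ (by linarith)]
    nlinarith
  calc (2 : ℝ) ^ 28 * (4 * ((mm δ + 3 : ℕ) : ℝ))
      ≤ 2 ^ 28 * (4 * (7.22 * Real.log (2 + 1 / δ))) := by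
        apply mul_le_mul_of_nonneg_left _ (by positivity)
        linarith
    _ ≤ 10 ^ 10 * Real.log (2 + 1 / δ) := by
        have : (2 : ℝ) ^ 28 * (4 * 7.22) ≤ 10 ^ 10 := by norm_num
        nlinarith

open Classical in
/-- **The rule for unions.** -/
theorem union_rule {δ : ℝ} (h0 : 0 < δ) (n : ℕ) :
    ∃ m : ℕ, ∃ p : Fin m → ℝ, (∀ s, 0 ≤ p s) ∧ (∑ s, p s = 1) ∧
    ∃ D : Fin m → Fin n → (Fin n → ℝ) → (Set (Fin n) → Prop) → Bool,
      ∀ (M : Matroid (Fin n)) (w : Fin n → ℝ), M.E = Set.univ → (∀ e, 0 ≤ w e) →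
        (∀ (s : Fin m) (σ : Equiv.Perm (Fin n)),
          M.Indep (σ '' {i | D s i (fun j => if j ≤ i then w (σ j) else 0)
              (fun S => M.Indep (σ '' (S ∩ Set.Iic i))) = true})) ∧
        ((∃ (l k R : ℕ) (Ms : Fin l → Matroid (Fin n)),
          _root_.MP_3bf421_lc.UN.IsUnion M Ms ∧
          (∀ j, k ≤ (univ.filter (fun i => Ms i = Ms j)).card) ∧
          (∀ I : Finset (Fin n), M.Indep (↑I : Set (Fin n)) → I.card ≤ R) ∧
          δ * Real.log (R + 1) ≤ k) →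
          ∀ I : Finset (Fin n), M.Indep (↑I : Set (Fin n)) →
            cc δ * ∑ e ∈ I, w e ≤
              (∑ σ : Equiv.Perm (Fin n), ∑ s : Fin m, p s *
                ∑ i : Fin n, (if D s i (fun j => if j ≤ i then w (σ j) else 0)
                  (fun S => M.Indep (σ '' (S ∩ Set.Iic i))) = true then w (σ i) else 0))
              / (n.factorial : ℝ)) := by
  obtain ⟨m, p, hp0, hp1, D, hD⟩ := rule_valueB n (mm δ + 3) (by omega) (JJ δ + 1) (lev (JJ δ))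
    (fun y x => Nat.lt_succ_of_le (lev_le (JJ δ) y x)) (fun l => rr (mm δ) l)
    (fun l => rr_chain (mm δ) l) (fun l i => rr_st (mm δ) l i) (1 / 2 ^ 28) (by positivity)
    (by norm_num)
  refine ⟨m, p, hp0, hp1, D, fun M w hE hw => ?_⟩
  obtain ⟨h1, h2⟩ := hD M w hE hw
  refine ⟨h1, ?_⟩
  rintro ⟨l, k, R, Ms, hM, hk, hR, hkR⟩
  refine h2 (cc δ) (cc_pos δ).le ?_
  intro κ hκ _ a ha
  have h3 := tot_ge M hE κ hκ Ms hM k R hk hR (JJ δ) (one_le_JJ h0) (window_exp h0 k R hkR)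
    a ha (mm δ) (JJ_lt δ)
  refine le_trans (le_of_eq ?_) h3
  have h4 : cc δ * ((mm δ + 3 : ℕ) : ℝ) = (1 / 2 ^ 28) / 4 := by
    unfold cc
    have h5 : ((mm δ + 3 : ℕ) : ℝ) ≠ 0 := by positivity
    field_simp
  rw [h4]

end Pool.Agent.Work.MP_3bf421_lc_FZ
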