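import Pool.Agent.Work.MP_3bf421_lc_FZ.Ew
import Pool.Agent.Work.MP_3bf421_lc_LU.Sum

set_option autoImplicit false

/-!
Random orders and random sets.
-/

namespace Pool.Agent.Work.MP_3bf421_lc_FZ

open Finset
open Pool.Agent.Work.MP_3bf421_lc_LU

variable {n : ℕ}

theorem card_lt (a : ℕ) (ha : a ≤ n) : (univ.filter (fun i : Fin n => i.val < a)).card = a := by
  have h1 : univ.filter (fun i : Fin n => i.val < a)
      = (univ : Finset (Fin a)).map (Fin.castLEEmb ha) := by
    ext i
    rw [mem_filter, mem_map]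
    constructor
    · rintro ⟨_, h⟩
      exact ⟨⟨i.val, h⟩, mem_univ _, by ext; rfl⟩
    · rintro ⟨j, _, h⟩
      refine ⟨mem_univ _, ?_⟩
      rw [← h]
      exact j.2
  rw [h1, card_map, card_univ, Fintype.card_fin]

open Classical in
/-- a permutation whose first blocks are given -/
theorem exists_perm (A D : Finset (Fin n)) (hAD : A ⊆ D) :
    ∃ ρ : Equiv.Perm (Fin n), pre ρ A.card = A ∧ pre ρ D.card = D := by
  have hA : A.card ≤ n := by simpa using card_le_univ A
  have hD : D.card ≤ n := by simpa using card_le_univ D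
  have hADc := card_le_card hAD
  set f : Fin n → Fin 3 := fun i => if i.val < A.card then 0 else if i.val < D.card then 1 else 2
    with hf
  set g : Fin n → Fin 3 := fun x => if x ∈ A then 0 else if x ∈ D then 1 else 2 with hg
  have hf0 : ∀ i, f i = 0 ↔ i.val < A.card := by
    intro i
    rw [hf]
    simp only
    split_ifs with h1 h2
    · simp [h1]
    · simp [h1]
    · simp [h1]
  have hf1 : ∀ i, f i = 1 ↔ (¬ i.val < A.card ∧ i.val < D.card) := by
    intro i
    rw [hf]
    simp only
    split_ifs with h1 h2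
    · simp [h1]
    · simp [h1, h2]
    · simp [h1, h2]
  have hg0 : ∀ i, g i = 0 ↔ i ∈ A := by
    intro i
    rw [hg]
    simp only
    split_ifs with h1 h2
    · simp [h1]
    · simp [h1]
    · simp [h1]
  have hg1 : ∀ i, g i = 1 ↔ (i ∉ A ∧ i ∈ D) := by
    intro i
    rw [hg]
    simp only
    split_ifs with h1 h2
    · simp [h1]
    · simp [h1, h2]
    · simp [h1, h2]
  have c0 : (univ.filter (fun i => f i = 0)).card = (univ.filter (fun i => g i = 0)).card := by
    have e1 : univ.filter (fun i => f i = 0) = univ.filter (fun i : Fin n => i.val < A.card) :=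
      filter_congr fun i _ => hf0 i
    have e2 : univ.filter (fun i => g i = 0) = A := by
      ext i
      rw [mem_filter, hg0]
      simp
    rw [e1, e2, card_lt _ hA]
  have c1 : (univ.filter (fun i => f i = 1)).card = (univ.filter (fun i => g i = 1)).card := by
    have e1 : (univ.filter (fun i => f i = 1)) ∪ (univ.filter (fun i => f i = 0))
        = univ.filter (fun i : Fin n => i.val < D.card) := by
      ext i
      rw [mem_union, mem_filter, mem_filter, mem_filter, hf0, hf1]
      constructor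
      · rintro (⟨_, h⟩ | ⟨_, h⟩)
        · exact ⟨mem_univ _, h.2⟩
        · exact ⟨mem_univ _, by omega⟩
      · rintro ⟨_, h⟩
        by_cases h2 : i.val < A.card
        · exact Or.inr ⟨mem_univ _, h2⟩
        · exact Or.inl ⟨mem_univ _, h2, h⟩
    have e2 : (univ.filter (fun i => g i = 1)) ∪ (univ.filter (fun i => g i = 0)) = D := by
      ext i
      rw [mem_union, mem_filter, mem_filter, hg0, hg1]
      constructor
      · rintro (⟨_, h⟩ | ⟨_, h⟩)
        · exact h.2
        · exact hAD h
      · intro h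
        by_cases h2 : i ∈ A
        · exact Or.inr ⟨mem_univ _, h2⟩
        · exact Or.inl ⟨mem_univ _, h2, h⟩
    have d1 : Disjoint (univ.filter (fun i => f i = 1)) (univ.filter (fun i => f i = 0)) := by
      rw [disjoint_left]
      intro i h1 h2
      rw [mem_filter] at h1 h2
      rw [h1.2] at h2
      exact absurd h2.2 (by decide)
    have d2 : Disjoint (univ.filter (fun i => g i = 1)) (univ.filter (fun i => g i = 0)) := by
      rw [disjoint_left]
      intro i h1 h2
      rw [mem_filter] at h1 h2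
      rw [h1.2] at h2
      exact absurd h2.2 (by decide)
    have e3 := card_union_of_disjoint d1
    have e4 := card_union_of_disjoint d2
    rw [e1, card_lt _ hD] at e3
    rw [e2] at e4
    omega
  have c2 : (univ.filter (fun i => f i = 2)).card = (univ.filter (fun i => g i = 2)).card := by
    have key : ∀ u : Fin n → Fin 3, (univ.filter (fun i => u i = 0)).card
        + (univ.filter (fun i => u i = 1)).card + (univ.filter (fun i => u i = 2)).card = n := by
      intro u
      have h1 := card_eq_sum_card_fiberwise (f := u) (s := univ) (t := univ)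
        (fun x _ => mem_univ _)
      rw [card_univ, Fintype.card_fin, Fin.sum_univ_three] at h1
      exact h1.symm
    have h1 := key f
    have h2 := key g
    omega
  have hfib : ∀ j : Fin 3, Fintype.card {x // f x = j} = Fintype.card {x // g x = j} := by
    intro j
    rw [Fintype.card_subtype, Fintype.card_subtype]
    fin_cases j
    · exact c0
    · exact c1
    · exact c2
  set ρ : Equiv.Perm (Fin n) := (Equiv.sigmaFiberEquiv f).symm.trans
    ((Equiv.sigmaCongrRight (fun j => Fintype.equivOfCardEq (hfib j))).trans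
      (Equiv.sigmaFiberEquiv g)) with hρ
  have hgρ : ∀ x, g (ρ x) = f x := by
    intro x
    rw [hρ]
    simp only [Equiv.trans_apply]
    exact ((Fintype.equivOfCardEq (hfib (f x))) ⟨x, rfl⟩).2
  have hgs : ∀ x, g x = f (ρ.symm x) := by
    intro x
    rw [← hgρ, Equiv.apply_symm_apply]
  refine ⟨ρ, ?_, ?_⟩
  · ext x
    rw [mem_pre, ← hf0, ← hgs, hg0]
  · ext x
    rw [mem_pre]
    constructor
    · intro h
      by_cases h2 : (ρ.symm x).val < A.card
      · rw [← hf0, ← hgs, hg0] at h2
        exact hAD h2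
      · have h3 := (hf1 (ρ.symm x)).2 ⟨h2, h⟩
        rw [← hgs, hg1] at h3
        exact h3.2
    · intro h
      by_cases h2 : x ∈ A
      · rw [← hg0, hgs, hf0] at h2
        omega
      · have h3 := (hg1 x).2 ⟨h2, h⟩
        rw [hgs, hf1] at h3
        exact h3.2

theorem pre_trans (ρ τ : Equiv.Perm (Fin n)) (s : ℕ) :
    pre (ρ.trans τ) s = τ.finsetCongr (pre ρ s) := by
  ext x
  rw [mem_pre, Equiv.finsetCongr_apply, mem_map]
  constructor
  · intro h
    exact ⟨τ.symm x, mem_pre.2 h, by simp⟩
  · rintro ⟨y, hy, rfl⟩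
    rw [mem_pre] at hy
    simpa using hy

theorem fc_compl (τ : Equiv.Perm (Fin n)) (T : Finset (Fin n)) :
    τ.finsetCongr Tᶜ = (τ.finsetCongr T)ᶜ := by
  ext x
  rw [Equiv.finsetCongr_apply, Equiv.finsetCongr_apply, mem_compl, mem_map, mem_map]
  constructor
  · rintro ⟨y, hy, rfl⟩ ⟨z, hz, hzy⟩
    have : z = y := τ.injective hzy
    subst this
    exact (mem_compl.1 hy) hz
  · intro h
    refine ⟨τ.symm x, mem_compl.2 fun h2 => h ⟨τ.symm x, h2, by simp⟩, by simp⟩

theorem fc_card (τ : Equiv.Perm (Fin n)) (T : Finset (Fin n)) :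
    (τ.finsetCongr T).card = T.card := by
  rw [Equiv.finsetCongr_apply, card_map]

theorem fc_subset (τ : Equiv.Perm (Fin n)) (S T : Finset (Fin n)) :
    τ.finsetCongr S ⊆ τ.finsetCongr T ↔ S ⊆ T := by
  rw [Equiv.finsetCongr_apply, Equiv.finsetCongr_apply, map_subset_map]

open Classical in
theorem avg_sets (q : ℝ) (F : Finset (Fin n) → Finset (Fin n) → ℝ) :
    ∑ A : Finset (Fin n), ∑ T ∈ (Aᶜ).powerset, q^T.card * (1-q)^(Aᶜ \ T).card *
      ∑ σ : Equiv.Perm (Fin n), F (pre σ A.card) (pre σ (n - T.card))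
    = (n.factorial : ℝ) * ∑ A : Finset (Fin n), Ew Aᶜ q (fun T => F A Tᶜ) := by
  have hw : ∀ A T : Finset (Fin n), T ⊆ Aᶜ → (Aᶜ \ T).card = n - A.card - T.card := by
    intro A T hT
    have h1 := card_sdiff_add_card_eq_card hT
    have h2 := card_compl A
    rw [Fintype.card_fin] at h2
    omega
  set w : ℕ → ℕ → ℝ := fun a t => q ^ t * (1 - q) ^ (n - a - t) with hwd
  -- replace the order by a set
  have h1 : ∀ A : Finset (Fin n), ∀ T ∈ (Aᶜ).powerset, q^T.card * (1-q)^(Aᶜ \ T).card *
      ∑ σ : Equiv.Perm (Fin n), F (pre σ A.card) (pre σ (n - T.card))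
      = ∑ τ : Equiv.Perm (Fin n), w A.card T.card *
        F (τ.finsetCongr A) (τ.finsetCongr T)ᶜ := by
    intro A T hT
    rw [mem_powerset] at hT
    rw [hw A T hT, mul_sum]
    have hAT : A ⊆ Tᶜ := by
      intro x hx
      rw [mem_compl]
      exact fun h => (mem_compl.1 (hT h)) hx
    obtain ⟨ρ, hρ1, hρ2⟩ := exists_perm A Tᶜ hAT
    have hTc : Tᶜ.card = n - T.card := by rw [card_compl, Fintype.card_fin]
    rw [hTc] at hρ2
    refine (Fintype.sum_equiv (Equiv.ofBijective (fun τ : Equiv.Perm (Fin n) => ρ.trans τ)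
      ⟨?_, ?_⟩) _ _ ?_).symm
    · intro τ τ' h
      have h2 : ρ.symm.trans (ρ.trans τ) = ρ.symm.trans (ρ.trans τ') := congrArg _ h
      simpa [← Equiv.trans_assoc] using h2
    · intro σ
      refine ⟨ρ.symm.trans σ, ?_⟩
      simp [← Equiv.trans_assoc]
    · intro τ
      simp only [Equiv.ofBijective_apply]
      rw [pre_trans, pre_trans, hρ1, hρ2, fc_compl]
  have h2 : ∀ A : Finset (Fin n), ∑ T ∈ (Aᶜ).powerset, q^T.card * (1-q)^(Aᶜ \ T).card *
      ∑ σ : Equiv.Perm (Fin n), F (pre σ A.card) (pre σ (n - T.card))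
      = ∑ τ : Equiv.Perm (Fin n), ∑ T : Finset (Fin n), if T ⊆ Aᶜ then w A.card T.card *
        F (τ.finsetCongr A) (τ.finsetCongr T)ᶜ else 0 := by
    intro A
    rw [sum_congr rfl (h1 A), sum_comm]
    refine sum_congr rfl fun τ _ => ?_
    rw [← sum_filter]
    refine sum_congr ?_ fun _ _ => rfl
    ext T
    rw [mem_powerset, mem_filter]
    simp
  rw [sum_congr rfl (fun A _ => h2 A), sum_comm]
  have h3 : ∀ τ : Equiv.Perm (Fin n), ∑ A : Finset (Fin n), ∑ T : Finset (Fin n),
      (if T ⊆ Aᶜ then w A.card T.card * F (τ.finsetCongr A) (τ.finsetCongr T)ᶜ else 0)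
      = ∑ A : Finset (Fin n), ∑ T : Finset (Fin n),
      (if T ⊆ Aᶜ then w A.card T.card * F A Tᶜ else 0) := by
    intro τ
    refine Fintype.sum_equiv τ.finsetCongr _ _ fun A => ?_
    refine Fintype.sum_equiv τ.finsetCongr _ _ fun T => ?_
    rw [fc_card, fc_card]
    have h4 : τ.finsetCongr T ⊆ (τ.finsetCongr A)ᶜ ↔ T ⊆ Aᶜ := by
      rw [← fc_compl τ A, fc_subset]
    by_cases h5 : T ⊆ Aᶜ
    · rw [if_pos h5, if_pos (h4.2 h5)]
    · rw [if_neg h5, if_neg (fun h => h5 (h4.1 h))]
  rw [sum_congr rfl (fun τ _ => h3 τ), sum_const, card_univ, Fintype.card_perm,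
    Fintype.card_fin, nsmul_eq_mul]
  congr 1
  refine sum_congr rfl fun A _ => ?_
  unfold Ew
  rw [← sum_filter]
  refine sum_congr ?_ fun T hT => ?_
  · ext T
    rw [mem_powerset, mem_filter]
    simp
  · rw [mem_powerset] at hT
    rw [hw A T hT]

end Pool.Agent.Work.MP_3bf421_lc_FZ
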