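import Mathlib

set_option autoImplicit false

/-!
A uniformly random set contains at least one eighth of every long prefix of a given set, with
probability at least `7 / 8`.
-/

namespace Pool.Agent.Work.MP_3bf421_lc_FZ

open Finset

variable {n : ℕ} {α : Type*} [LinearOrder α]

/-- the sign of `b` in `A` -/
def sgnA (b : Fin n) (A : Finset (Fin n)) : ℤ := if b ∈ A then 1 else -1

theorem sgnA_sq (b : Fin n) (A : Finset (Fin n)) : sgnA b A * sgnA b A = 1 := by
  unfold sgnA
  split_ifs <;> norm_num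

theorem sum_sgnA {b c : Fin n} (h : b ≠ c) :
    ∑ A : Finset (Fin n), sgnA b A * sgnA c A = 0 := by
  classical
  have hinv : Function.Involutive (fun A : Finset (Fin n) => symmDiff A {b}) := fun A =>
    symmDiff_symmDiff_cancel_right _ _
  have h1 := Equiv.sum_comp (Function.Involutive.toPerm _ hinv)
    (fun A : Finset (Fin n) => sgnA b A * sgnA c A)
  have h2 : ∀ A : Finset (Fin n), sgnA b (Function.Involutive.toPerm _ hinv A) *
      sgnA c (Function.Involutive.toPerm _ hinv A) = - (sgnA b A * sgnA c A) := by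
    intro A
    have e1 : b ∈ symmDiff A {b} ↔ b ∉ A := by
      rw [mem_symmDiff]
      simp
    have e2 : c ∈ symmDiff A {b} ↔ c ∈ A := by
      rw [mem_symmDiff]
      simp [h.symm]
    show sgnA b (symmDiff A {b}) * sgnA c (symmDiff A {b}) = _
    unfold sgnA
    by_cases h3 : b ∈ A <;> by_cases h4 : c ∈ A <;> simp [e1, e2, h3, h4]
  rw [sum_congr rfl fun A _ => h2 A, sum_neg_distrib] at h1
  omega

theorem sum_sq_sgnA (N : Finset (Fin n)) :
    ∑ A : Finset (Fin n), (∑ b ∈ N, sgnA b A) ^ 2 = (N.card : ℤ) * 2 ^ n := by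
  classical
  have h1 : ∀ A : Finset (Fin n), (∑ b ∈ N, sgnA b A) ^ 2 =
      ∑ b ∈ N, ∑ c ∈ N, sgnA b A * sgnA c A := by
    intro A
    rw [sq, sum_mul_sum]
  rw [sum_congr rfl fun A _ => h1 A, sum_comm]
  have h2 : ∀ b ∈ N, ∑ A : Finset (Fin n), ∑ c ∈ N, sgnA b A * sgnA c A = 2 ^ n := by
    intro b hb
    rw [sum_comm, sum_eq_single b]
    · rw [sum_congr rfl fun A _ => sgnA_sq b A]
      simp
    · intro c _ hcb
      exact sum_sgnA hcb.symm
    · exact fun h => absurd hb h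
  rw [sum_congr rfl h2]
  simp

theorem sum_sgnA_eq (N A : Finset (Fin n)) :
    ∑ b ∈ N, sgnA b A = 2 * ((N ∩ A).card : ℤ) - N.card := by
  classical
  have h1 : ∀ b ∈ N, sgnA b A = 2 * (if b ∈ A then 1 else 0) - 1 := by
    intro b _
    unfold sgnA
    split_ifs <;> norm_num
  rw [sum_congr rfl h1, sum_sub_distrib, ← mul_sum, sum_boole, filter_mem_eq_inter]
  simp

/-- **Chebyshev**: few sets contain less than one quarter of `N`. -/
theorem quarter_count (N : Finset (Fin n)) :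
    ((univ : Finset (Finset (Fin n))).filter (fun A => 4 * (N ∩ A).card < N.card)).card * N.card
      ≤ 4 * 2 ^ n := by
  classical
  set F := (univ : Finset (Finset (Fin n))).filter (fun A => 4 * (N ∩ A).card < N.card) with hF
  rcases Nat.eq_zero_or_pos N.card with h0 | h0
  · rw [h0]
    simp
  have h1 : ∀ A ∈ F, (N.card : ℤ) ^ 2 ≤ 4 * (∑ b ∈ N, sgnA b A) ^ 2 := by
    intro A hA
    rw [hF, mem_filter] at hA
    have h2 : 4 * ((N ∩ A).card : ℤ) < N.card := by exact_mod_cast hA.2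
    rw [sum_sgnA_eq]
    have h3 : (0 : ℤ) ≤ (N ∩ A).card := by positivity
    nlinarith
  have h2 : (F.card : ℤ) * (N.card : ℤ) ^ 2 ≤ 4 * ((N.card : ℤ) * 2 ^ n) := by
    calc (F.card : ℤ) * (N.card : ℤ) ^ 2 = ∑ A ∈ F, (N.card : ℤ) ^ 2 := by simp
      _ ≤ ∑ A ∈ F, 4 * (∑ b ∈ N, sgnA b A) ^ 2 := sum_le_sum h1
      _ ≤ ∑ A : Finset (Fin n), 4 * (∑ b ∈ N, sgnA b A) ^ 2 :=
          sum_le_sum_of_subset_of_nonneg (subset_univ _) fun A _ _ => by positivity
      _ = 4 * ((N.card : ℤ) * 2 ^ n) := by rw [← mul_sum, sum_sq_sgnA]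
  have h3 : (0 : ℤ) < N.card := by exact_mod_cast h0
  have h4 : (F.card : ℤ) * (N.card : ℤ) ≤ 4 * 2 ^ n := by
    have : (N.card : ℤ) * ((F.card : ℤ) * (N.card : ℤ)) ≤ (N.card : ℤ) * (4 * 2 ^ n) := by
      nlinarith
    exact le_of_mul_le_mul_left this h3
  exact_mod_cast h4

section prefixes

variable {κ : Fin n → α} (B : Finset (Fin n))

/-- the position of `a` in `B`, counted from the top -/
def posB (κ : Fin n → α) (B : Finset (Fin n)) (a : Fin n) : ℕ :=
  (B.filter (fun b => κ a ≤ κ b)).card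

theorem posB_lt {a x : Fin n} (hx : x ∈ B) (h : κ x < κ a) : posB κ B a < posB κ B x := by
  refine card_lt_card ⟨fun b hb => ?_, fun hcon => ?_⟩
  · rw [mem_filter] at hb ⊢
    exact ⟨hb.1, h.le.trans hb.2⟩
  · have := hcon (mem_filter.2 ⟨hx, le_rfl⟩)
    rw [mem_filter] at this
    exact absurd (this.2.trans_lt h) (lt_irrefl _)

theorem card_top (hκ : Function.Injective κ) {s : ℕ} (hs : s ≤ B.card) :
    (B.filter (fun a => posB κ B a ≤ s)).card = s := by
  classical
  have hinj : Set.InjOn (posB κ B) B := by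
    intro a ha b hb hab
    rcases lt_trichotomy (κ a) (κ b) with h | h | h
    · exact absurd hab (posB_lt B ha h).ne'
    · exact hκ h
    · exact absurd hab (posB_lt B hb h).ne
  have h1 : B.image (posB κ B) = Icc 1 B.card := by
    refine eq_of_subset_of_card_le ?_ ?_
    · intro i hi
      obtain ⟨a, ha, rfl⟩ := mem_image.1 hi
      rw [mem_Icc]
      exact ⟨card_pos.2 ⟨a, mem_filter.2 ⟨ha, le_rfl⟩⟩, card_filter_le _ _⟩
    · rw [card_image_of_injOn hinj]
      simp
  have h2 : (B.filter (fun a => posB κ B a ≤ s)).image (posB κ B) = Icc 1 s := by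
    ext i
    rw [mem_image, mem_Icc]
    constructor
    · rintro ⟨a, ha, rfl⟩
      rw [mem_filter] at ha
      exact ⟨card_pos.2 ⟨a, mem_filter.2 ⟨ha.1, le_rfl⟩⟩, ha.2⟩
    · rintro ⟨h3, h4⟩
      have h5 : i ∈ B.image (posB κ B) := by
        rw [h1, mem_Icc]
        exact ⟨h3, h4.trans hs⟩
      obtain ⟨a, ha, rfl⟩ := mem_image.1 h5
      exact ⟨a, mem_filter.2 ⟨ha, h4⟩, rfl⟩
  have h3 := card_image_of_injOn (hinj.mono (coe_subset.2 (filter_subset
    (fun a => posB κ B a ≤ s) B)))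
  rw [h2] at h3
  rw [← h3]
  simp

theorem top_subset {a : Fin n} {s : ℕ} (hs : s ≤ posB κ B a) :
    B.filter (fun x => posB κ B x ≤ s) ⊆ B.filter (fun b => κ a ≤ κ b) := by
  intro x hx
  rw [mem_filter] at hx ⊢
  refine ⟨hx.1, ?_⟩
  by_contra hcon
  push Not at hcon
  have := posB_lt B hx.1 hcon
  omega

end prefixes

theorem geom_six (k : ℕ) : ∑ m ∈ Ico 6 k, (1 / 2 : ℝ) ^ m ≤ 1 / 32 := by
  rcases Nat.lt_or_ge k 6 with h | h
  · rw [Ico_eq_empty (by omega)]
    norm_num
  · have key : ∀ j : ℕ, ∑ m ∈ Ico 6 (6 + j), (1 / 2 : ℝ) ^ m = 1 / 32 - (1 / 2) ^ (5 + j) := by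
      intro j
      induction j with
      | zero => norm_num
      | succ j ih =>
        rw [← add_assoc, sum_Ico_succ_top (by omega), ih]
        rw [show 6 + j = (5 + j) + 1 by ring, pow_succ, show 5 + (j + 1) = (5 + j) + 1 by ring,
          pow_succ]
        ring
    obtain ⟨j, rfl⟩ := Nat.exists_eq_add_of_le h
    rw [key]
    have : (0 : ℝ) ≤ (1 / 2) ^ (5 + j) := by positivity
    linarith

/-- **Most sets are good.** -/
theorem bad_count (κ : Fin n → α) (hκ : Function.Injective κ) (B : Finset (Fin n)) :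
    8 * ((univ : Finset (Finset (Fin n))).filter (fun A => ¬ ∀ a ∈ B,
      64 ≤ (B.filter (fun b => κ a ≤ κ b)).card →
      (B.filter (fun b => κ a ≤ κ b)).card ≤
        8 * ((B.filter (fun b => κ a ≤ κ b)) ∩ A).card)).card ≤ 2 ^ n := by
  classical
  set P : ℕ → Finset (Fin n) := fun m => B.filter (fun x => posB κ B x ≤ 2 ^ m) with hP
  set I : Finset ℕ := (Ico 6 (n + 1)).filter (fun m => 2 ^ m ≤ B.card) with hI
  set Q : ℕ → Finset (Finset (Fin n)) := fun m =>
    univ.filter (fun A => 4 * (P m ∩ A).card < (P m).card) with hQ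
  have hsub : (univ : Finset (Finset (Fin n))).filter (fun A => ¬ ∀ a ∈ B,
      64 ≤ (B.filter (fun b => κ a ≤ κ b)).card →
      (B.filter (fun b => κ a ≤ κ b)).card ≤
        8 * ((B.filter (fun b => κ a ≤ κ b)) ∩ A).card) ⊆ I.biUnion Q := by
    intro A hA
    rw [mem_filter] at hA
    have h0 := hA.2
    push Not at h0
    obtain ⟨a, ha, h1, h2⟩ := h0
    obtain ⟨m, hm1, hm2⟩ : ∃ m, 2 ^ m ≤ posB κ B a ∧ posB κ B a < 2 ^ (m + 1) :=
      ⟨Nat.log 2 (posB κ B a), Nat.pow_log_le_self 2 (by unfold posB; omega),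
        Nat.lt_pow_succ_log_self (by norm_num) _⟩
    have hposle : posB κ B a ≤ B.card := card_filter_le _ _
    have hBn : B.card ≤ n := by
      have := card_le_univ B
      simpa using this
    have hpos : 64 ≤ posB κ B a := h1
    rw [mem_biUnion]
    refine ⟨m, ?_, ?_⟩
    · rw [hI, mem_filter, mem_Ico]
      refine ⟨⟨?_, ?_⟩, hm1.trans hposle⟩
      · by_contra hcon
        have h3 : 2 ^ (m + 1) ≤ 2 ^ 6 := Nat.pow_le_pow_right (by norm_num) (by omega)
        have : (2 : ℕ) ^ 6 = 64 := by norm_num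
        omega
      · have h3 : m < 2 ^ m := Nat.lt_two_pow_self
        omega
    · rw [hQ, mem_filter]
      refine ⟨mem_univ _, ?_⟩
      have h3 : (P m).card = 2 ^ m := card_top B hκ (hm1.trans hposle)
      have h4 : P m ⊆ B.filter (fun b => κ a ≤ κ b) := top_subset B hm1
      have h5 : (P m ∩ A).card ≤ ((B.filter (fun b => κ a ≤ κ b)) ∩ A).card :=
        card_le_card (inter_subset_inter_right h4)
      have h6 : posB κ B a = (B.filter (fun b => κ a ≤ κ b)).card := rfl
      rw [pow_succ] at hm2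
      omega
  have h1 : ((univ : Finset (Finset (Fin n))).filter (fun A => ¬ ∀ a ∈ B,
      64 ≤ (B.filter (fun b => κ a ≤ κ b)).card →
      (B.filter (fun b => κ a ≤ κ b)).card ≤
        8 * ((B.filter (fun b => κ a ≤ κ b)) ∩ A).card)).card ≤ ∑ m ∈ I, (Q m).card :=
    (card_le_card hsub).trans card_biUnion_le
  have h2 : ∀ m ∈ I, ((Q m).card : ℝ) ≤ 4 * 2 ^ n * (1 / 2) ^ m := by
    intro m hm
    rw [hI, mem_filter] at hm
    have h3 : (P m).card = 2 ^ m := card_top B hκ hm.2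
    have h4 := quarter_count (P m)
    rw [h3] at h4
    have h5 : ((Q m).card : ℝ) * 2 ^ m ≤ 4 * 2 ^ n := by
      have : (Q m).card * 2 ^ m ≤ 4 * 2 ^ n := by
        rw [hQ]
        simpa [h3] using h4
      exact_mod_cast this
    rw [one_div, inv_pow]
    rwa [← div_eq_mul_inv, le_div_iff₀ (by positivity)]
  have h3 : ∑ m ∈ I, (1 / 2 : ℝ) ^ m ≤ 1 / 32 := by
    refine le_trans (sum_le_sum_of_subset_of_nonneg (filter_subset _ _) fun m _ _ => ?_)
      (geom_six (n + 1))
    positivity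
  have h4 : ((∑ m ∈ I, (Q m).card : ℕ) : ℝ) ≤ 4 * 2 ^ n * (1 / 32) := by
    push_cast
    refine (sum_le_sum h2).trans ?_
    rw [← mul_sum]
    exact mul_le_mul_of_nonneg_left h3 (by positivity)
  have h5 : (8 : ℝ) * ((∑ m ∈ I, (Q m).card : ℕ) : ℝ) ≤ 2 ^ n := by linarith
  have h6 : 8 * (∑ m ∈ I, (Q m).card) ≤ 2 ^ n := by exact_mod_cast h5
  omega

end Pool.Agent.Work.MP_3bf421_lc_FZ
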