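import Pool.Agent.Work.MP_3bf421_lc_FZ.Lev

set_option autoImplicit false

/-!
Counting the accepted elements of a class which are spanned by their own class.
-/

namespace Pool.Agent.Work.MP_3bf421_lc_FZ

open Finset
open Pool.Agent.Work.MP_3bf421_lc_LU
open _root_.MP_3bf421_lc.UN (rk fs cont)

variable {n : ℕ} {α : Type*} [LinearOrder α]

open Classical in
/-- the number of elements of the optimum in `C` spanned by the other elements of `C` -/
noncomputable def nb (M : Matroid (Fin n)) (κ : Fin n → α) (C : Finset (Fin n)) : ℕ :=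
  ((optB M κ).filter (fun b => b ∈ C ∧
    b ∈ M.closure ((C.erase b : Finset (Fin n)) : Set (Fin n)))).card

open Classical in
/-- the elements of `C` taken greedily over `Z` -/
noncomputable def gre (M : Matroid (Fin n)) (C Z : Finset (Fin n)) (t : Fin n → ℕ) :
    Finset (Fin n) :=
  C.filter (fun e => e ∉ M.closure {x | x ∈ Z ∨ (x ∈ C ∧ t x < t e)})

theorem gre_span (M : Matroid (Fin n)) (hE : M.E = Set.univ) (C Z : Finset (Fin n))
    (t : Fin n → ℕ) (k : ℕ) : ∀ e ∈ C, t e = k →
    e ∈ M.closure ((Z ∪ gre M C Z t : Finset (Fin n)) : Set (Fin n)) := by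
  classical
  have hsub : ∀ X : Set (Fin n), X ⊆ M.E := fun X => by rw [hE]; exact Set.subset_univ X
  induction' k using Nat.strong_induction_on with k ih
  intro e he hk
  by_cases hg : e ∈ gre M C Z t
  · refine M.subset_closure _ (hsub _) ?_
    rw [mem_coe, mem_union]
    exact Or.inr hg
  · have h1 : e ∈ M.closure {x | x ∈ Z ∨ (x ∈ C ∧ t x < t e)} := by
      by_contra hcon
      apply hg
      unfold gre
      rw [mem_filter]
      exact ⟨he, hcon⟩
    have h2 : {x | x ∈ Z ∨ (x ∈ C ∧ t x < t e)} ⊆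
        M.closure ((Z ∪ gre M C Z t : Finset (Fin n)) : Set (Fin n)) := by
      rintro x (hx | ⟨hx, hxt⟩)
      · refine M.subset_closure _ (hsub _) ?_
        rw [mem_coe, mem_union]
        exact Or.inl hx
      · exact ih (t x) (by omega) x hx rfl
    have h3 := M.closure_subset_closure h2 h1
    rwa [M.closure_closure] at h3

theorem rk_le_gre (M : Matroid (Fin n)) (hE : M.E = Set.univ) (C Z : Finset (Fin n))
    (t : Fin n → ℕ) : rk M C ≤ rk M Z + (gre M C Z t).card := by
  classical
  have h1 := mem_closure_mono_rk M hE (X := C) (Y := Z ∪ gre M C Z t)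
    (fun x hx => gre_span M hE C Z t (t x) x hx rfl)
  have h2 := _root_.MP_3bf421_lc.UN.rk_submod M Z (gre M C Z t)
  have h3 := _root_.MP_3bf421_lc.UN.rk_le_card M (gre M C Z t)
  omega

theorem gre_card_le (M : Matroid (Fin n)) (hE : M.E = Set.univ) (C : Finset (Fin n))
    (t : Fin n → ℕ) (ht : Function.Injective t) : (gre M C ∅ t).card ≤ rk M C := by
  classical
  have h1 := greedy_indep M hE (fun x => OrderDual.toDual (t x))
    (fun x y h => ht (OrderDual.toDual.injective h)) (fun x => x ∈ C)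
  have h2 : M.Indep ((gre M C ∅ t : Finset (Fin n)) : Set (Fin n)) := by
    refine h1.subset ?_
    intro x hx
    rw [mem_coe] at hx
    unfold gre at hx
    rw [mem_filter] at hx
    refine ⟨hx.1, fun h => hx.2 ?_⟩
    refine M.closure_subset_closure ?_ h
    rintro y ⟨h3, h4⟩
    exact Or.inr ⟨h3, OrderDual.toDual_lt_toDual.1 h4⟩
  rw [_root_.MP_3bf421_lc.UN.indep_iff_rk] at h2
  refine h2.trans (_root_.MP_3bf421_lc.UN.rk_mono M ?_)
  unfold gre
  exact filter_subset _ _

open Classical in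
theorem own_count (M : Matroid (Fin n)) (hE : M.E = Set.univ) (κ : Fin n → α)
    (c : Fin n → ℕ) (N : ℕ) (D : Finset (Fin n))
    (ar : Fin n → ℕ) (har : Function.Injective ar) (i : ℕ) (a : Fin n)
    (C : Finset (Fin n))
    (hC : C = univ.filter (fun e => Cd M κ c N (ownP (i % 3)) D e ∧ c e = i)) :
    ((optB M κ).filter (fun b => κ a ≤ κ b ∧ c b = i ∧ b ∉ D ∧ SpN M c N D (i+1) b)).card
    ≤ ((optB M κ).filter (fun b => κ a ≤ κ b ∧ c b = i ∧
        AccB M κ c N (ownP (i % 3)) D ar b)).card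
      + rk M (D.filter (fun y => c y < i - 2)) + min (C.card - rk M C) (nb M κ C) := by
  set Z := D.filter (fun y => c y < i - 2) with hZ
  set S1 := (optB M κ).filter (fun b => κ a ≤ κ b ∧ c b = i ∧ b ∉ D ∧ SpN M c N D (i+1) b)
    with hS1
  set S2 := (optB M κ).filter (fun b => κ a ≤ κ b ∧ c b = i ∧
        AccB M κ c N (ownP (i % 3)) D ar b) with hS2
  have hS1C : ∀ b ∈ S1, b ∈ C := by
    intro b hb
    rw [hS1, mem_filter] at hb
    obtain ⟨hbB, -, hci, hbD, hsp⟩ := hb
    rw [hC, mem_filter]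
    refine ⟨mem_univ _, ⟨⟨hbD, ?_⟩, ?_, ?_⟩, hci⟩
    · intro h
      unfold optB at hbB
      rw [mem_filter] at hbB
      apply hbB.2
      refine M.closure_subset_closure ?_ h
      rintro y ⟨_, h2⟩
      exact h2
    · unfold ownP
      simp only [hci, decide_true]
    · unfold ownP
      simp only [hci]
      exact hsp
  have hsame : ∀ e x, c e = i → ((x ∈ D ∧ c x < (ownP (i % 3)).st (c e)) ∨
      (Cd M κ c N (ownP (i % 3)) D x ∧ (ownP (i % 3)).st (c x) = (ownP (i % 3)).st (c e) ∧
        ar x < ar e)) → (x ∈ Z ∨ (x ∈ C ∧ ar x < ar e)) := by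
    rintro e x he (⟨h1, h2⟩ | ⟨h1, h2, h3⟩)
    · left
      rw [hZ, mem_filter]
      unfold ownP at h2
      simp only [he] at h2
      exact ⟨h1, h2⟩
    · right
      refine ⟨?_, h3⟩
      rw [hC, mem_filter]
      refine ⟨mem_univ _, h1, ?_⟩
      have h4 := h1.2.1
      unfold ownP at h4 h2
      simp only [decide_eq_true_eq, he] at h4 h2
      omega
  have hacc : ∀ b ∈ S1, b ∈ gre M C Z ar → b ∈ S2 := by
    intro b hb hg
    have hbC := hS1C b hb
    rw [hS1, mem_filter] at hb
    rw [hS2, mem_filter]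
    refine ⟨hb.1, hb.2.1, hb.2.2.1, ?_, ?_⟩
    · rw [hC, mem_filter] at hbC
      exact hbC.2.1
    · intro h
      unfold gre at hg
      rw [mem_filter] at hg
      apply hg.2
      refine M.closure_subset_closure ?_ h
      intro x hx
      exact hsame b x hb.2.2.1 hx
  have hsub1 : gre M C Z ar ⊆ gre M C ∅ ar := by
    intro x hx
    unfold gre at hx ⊢
    rw [mem_filter] at hx ⊢
    refine ⟨hx.1, fun h => hx.2 ?_⟩
    refine M.closure_subset_closure ?_ h
    rintro y (h1 | h1)
    · exact absurd h1 (notMem_empty y)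
    · exact Or.inr h1
  have hgC : gre M C ∅ ar ⊆ C := by
    unfold gre
    exact filter_subset _ _
  have h1 := rk_le_gre M hE C Z ar
  have h2 := gre_card_le M hE C ar har
  have h3 := rk_le_gre M hE C ∅ ar
  rw [_root_.MP_3bf421_lc.UN.rk_empty, zero_add] at h3
  have hS1split : S1 ⊆ S2 ∪ ((gre M C ∅ ar) \ (gre M C Z ar)) ∪ (S1 \ gre M C ∅ ar) := by
    intro b hb
    rw [mem_union, mem_union, mem_sdiff, mem_sdiff]
    by_cases hg1 : b ∈ gre M C ∅ ar
    · by_cases hg2 : b ∈ gre M C Z ar
      · exact Or.inl (Or.inl (hacc b hb hg2))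
      · exact Or.inl (Or.inr ⟨hg1, hg2⟩)
    · exact Or.inr ⟨hb, hg1⟩
  have h4 := card_le_card hS1split
  have h5 := card_union_le (S2 ∪ ((gre M C ∅ ar) \ (gre M C Z ar))) (S1 \ gre M C ∅ ar)
  have h6 := card_union_le S2 ((gre M C ∅ ar) \ (gre M C Z ar))
  have h7 : ((gre M C ∅ ar) \ (gre M C Z ar)).card ≤ rk M Z := by
    have := card_sdiff_add_card_eq_card hsub1
    omega
  have h8 : (S1 \ gre M C ∅ ar).card ≤ C.card - rk M C := by
    have h9 : S1 \ gre M C ∅ ar ⊆ C \ gre M C ∅ ar :=
      sdiff_subset_sdiff hS1C (Finset.Subset.refl _)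
    have h10 := card_le_card h9
    have h11 := card_sdiff_add_card_eq_card hgC
    omega
  have h9 : (S1 \ gre M C ∅ ar).card ≤ nb M κ C := by
    unfold nb
    apply card_le_card
    intro b hb
    rw [mem_sdiff] at hb
    have hbC := hS1C b hb.1
    have hbB := hb.1
    rw [hS1, mem_filter] at hbB
    rw [mem_filter]
    refine ⟨hbB.1, hbC, ?_⟩
    by_contra hcon
    apply hb.2
    unfold gre
    rw [mem_filter]
    refine ⟨hbC, fun h => hcon ?_⟩
    refine M.closure_subset_closure ?_ h
    rintro y (h10 | ⟨h10, h11⟩)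
    · exact absurd h10 (notMem_empty y)
    · rw [mem_coe, mem_erase]
      exact ⟨fun h12 => by rw [h12] at h11; exact lt_irrefl _ h11, h10⟩
  have h10 := le_min h8 h9
  omega

end Pool.Agent.Work.MP_3bf421_lc_FZ
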