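import Pool.Agent.Work.MP_3bf421_lc_FZ.MomB
import Pool.Agent.Work.MP_3bf421_lc_FZ.Own
import Pool.Agent.Work.MP_3bf421_lc_TR.XSet
import Pool.Agent.Work.MP_3bf421_lc_TR.XZero
import Pool.Agent.Work.MP_3bf421_lc_LU.BlockA

set_option autoImplicit false

/-!
Unions of matroids: the expected number of elements of the optimum spanned by other candidates.
-/

namespace Pool.Agent.Work.MP_3bf421_lc_FZ

open Finset
open Pool.Agent.Work.MP_3bf421_lc_LU
open Pool.Agent.Work.MP_3bf421_lc_TR (exists_X x0_exists)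
open _root_.MP_3bf421_lc.UN (rk fs cont)

variable {n : ℕ} {α : Type*} [LinearOrder α]

theorem Rel_anti (M : Matroid (Fin n)) (κ : Fin n → α) {A D : Finset (Fin n)} (h : A ⊆ D)
    {e : Fin n} (he : Rel M κ D e) : Rel M κ A e := by
  refine ⟨fun h1 => he.1 (h h1), fun h1 => he.2 ?_⟩
  refine M.closure_subset_closure ?_ h1
  rintro y ⟨a, b⟩
  exact ⟨h a, b⟩

open Classical in
/-- a witness for the spanned elements -/
theorem nb_witness {l : ℕ} (M : Matroid (Fin n)) (hE : M.E = Set.univ) (κ : Fin n → α)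
    (hκ : Function.Injective κ) (Ms : Fin l → Matroid (Fin n))
    (hM : _root_.MP_3bf421_lc.UN.IsUnion M Ms) (k : ℕ)
    (hk : ∀ j, k ≤ (univ.filter (fun i => Ms i = Ms j)).card) (Y : Finset (Fin n)) :
    ∃ J : Finset (Fin n), J ⊆ Y ∧ k * J.card ≤ fs Ms J ∧ nb M κ Y ≤ fs Ms J ∧
      fs Ms J ≤ (Y ∩ cont Ms J).card := by
  obtain ⟨X, hXC, hX1, hX2⟩ := exists_X hM Y
  obtain ⟨J, hJX, hJ1, hJ2⟩ := _root_.MP_3bf421_lc.UN.exists_small_span Ms hk X
  have hcont := _root_.MP_3bf421_lc.UN.subset_cont_of_fs_eq hJX hJ1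
  refine ⟨J, hJX.trans hXC, hJ2, ?_, ?_⟩
  · unfold nb
    set Z := (optB M κ).filter (fun b => b ∈ Y ∧
      b ∈ M.closure ((Y.erase b : Finset (Fin n)) : Set (Fin n))) with hZ
    have hsub : Z ⊆ X := by
      intro e he
      rw [hZ, mem_filter] at he
      obtain ⟨-, heY, hcl⟩ := he
      obtain ⟨D, hD, heD, hDC⟩ := exists_circuit M e _ (notMem_erase e Y) hcl
      refine hX2 D ?_ hD heD
      intro x hx
      by_cases hxe : x = e
      · rw [hxe]; exact heY
      · exact (mem_erase.1 (hDC (mem_erase.2 ⟨hxe, hx⟩))).2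
    have hind : M.Indep ((Z : Finset (Fin n)) : Set (Fin n)) := by
      refine (optB_indep M hE κ hκ).subset ?_
      intro e he
      rw [hZ] at he
      exact (mem_filter.1 (mem_coe.1 he)).1
    have h3 := (hM.indep_iff _).1 hind _ (Finset.Subset.refl _)
    rw [hJ1]
    exact h3.trans (_root_.MP_3bf421_lc.UN.fs_mono Ms hsub)
  · rw [hJ1]
    exact hX1.trans (card_le_card (fun x hx => mem_inter.2 ⟨hXC hx, hcont hx⟩))

open Classical in
/-- **The expected number of spanned elements.** -/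
theorem block3 {l : ℕ} (M : Matroid (Fin n)) (hE : M.E = Set.univ) (κ : Fin n → α)
    (hκ : Function.Injective κ) (Ms : Fin l → Matroid (Fin n))
    (hM : _root_.MP_3bf421_lc.UN.IsUnion M Ms) (k : ℕ)
    (hk : ∀ j, k ≤ (univ.filter (fun i => Ms i = Ms j)).card) (A H : Finset (Fin n))
    {q θ : ℝ} (h0 : 0 < q) (h1 : q ≤ 1 / 2) (hθ0 : 0 < θ) (hθ : θ ≤ Real.exp (-1))
    (hq : 4 * q ≤ θ ^ 2 / 2) (Y : Finset (Fin n) → Finset (Fin n))
    (hY : ∀ T, T ⊆ Aᶜ → Y T ⊆ H.filter (fun e => Rel M κ Tᶜ e)) :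
    Ew Aᶜ q (fun T => (nb M κ (Y T) : ℝ))
      ≤ 3 * θ ^ k * ((H.filter (fun e => Rel M κ A e)).card : ℝ) := by
  have hq1 : q ≤ 1 := by linarith
  have hθ1 : θ ≤ 1 := hθ.trans (Real.exp_le_one_iff.2 (by norm_num))
  set P := H.filter (fun e => Rel M κ A e) with hP
  obtain ⟨x0, hx0⟩ := x0_exists (y := θ ^ k) P.card (by positivity) hθ0 hθ
  set JJ := P.powerset.filter (fun J => J.Nonempty ∧ k * J.card ≤ fs Ms J ∧ x0 < fs Ms J) with hJJ
  set CC : Finset (Fin n) → Finset (Fin n) → Finset (Fin n) := fun J T =>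
    T.filter (fun e => e ∈ cont Ms J ∧ e ∉ M.closure {y | y ∈ A ∪ (Aᶜ \ T) ∧ κ e < κ y}) with hCC
  -- pointwise
  have hpt : ∀ T, T ⊆ Aᶜ → (nb M κ (Y T) : ℝ) ≤ (x0 : ℝ) + ∑ J ∈ JJ, (fs Ms J : ℝ) *
      (if fs Ms J ≤ (CC J T).card then 1 else 0) := by
    intro T hT
    have hT2 : A ∪ (Aᶜ \ T) = Tᶜ := by
      ext x
      rw [mem_union, mem_sdiff, mem_compl, mem_compl]
      constructor
      · rintro (h | h)
        · exact fun h2 => (mem_compl.1 (hT h2)) h
        · exact h.2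
      · intro h
        by_cases hA : x ∈ A
        · exact Or.inl hA
        · exact Or.inr ⟨hA, h⟩
    obtain ⟨J, hJ1, hJ2, hJ3, hJ4⟩ := nb_witness M hE κ hκ Ms hM k hk (Y T)
    have hJ5 : fs Ms J ≤ (CC J T).card := by
      refine hJ4.trans (card_le_card ?_)
      intro x hx
      rw [mem_inter] at hx
      have h2 := hY T hT hx.1
      rw [mem_filter] at h2
      rw [hCC]
      simp only
      rw [mem_filter, hT2]
      exact ⟨by
        have := h2.2.1
        rwa [mem_compl, not_not] at this, hx.2, h2.2.2⟩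
    have hnn : ∀ J ∈ JJ, (0 : ℝ) ≤ (fs Ms J : ℝ) *
        (if fs Ms J ≤ (CC J T).card then 1 else 0) := by
      intro J _
      split_ifs <;> positivity
    by_cases hx : x0 < fs Ms J
    · have hJne : J.Nonempty := by
        rw [nonempty_iff_ne_empty]
        rintro rfl
        have h5 : fs Ms ∅ = 0 := Finset.sum_eq_zero fun j _ => _root_.MP_3bf421_lc.UN.rk_empty _
        omega
      have hmem : J ∈ JJ := by
        rw [hJJ, mem_filter, mem_powerset]
        refine ⟨?_, hJne, hJ2, hx⟩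
        intro x hxJ
        have h2 := hY T hT (hJ1 hxJ)
        rw [mem_filter] at h2
        rw [hP, mem_filter]
        refine ⟨h2.1, Rel_anti M κ ?_ h2.2⟩
        intro y hy
        rw [mem_compl]
        exact fun h3 => (mem_compl.1 (hT h3)) hy
      have h2 := single_le_sum hnn hmem
      rw [if_pos hJ5, mul_one] at h2
      have h3 : (nb M κ (Y T) : ℝ) ≤ (fs Ms J : ℝ) := by exact_mod_cast hJ3
      have h4 : (0 : ℝ) ≤ x0 := Nat.cast_nonneg _
      linarith
    · push Not at hx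
      have h2 := sum_nonneg hnn
      have h3 : (nb M κ (Y T) : ℝ) ≤ (x0 : ℝ) := by exact_mod_cast hJ3.trans hx
      linarith
  refine (Ew_mono h0.le hq1 _ hpt).trans ?_
  rw [Ew_add, Ew_const, Ew_sum]
  have h2 : ∀ J ∈ JJ, Ew Aᶜ q (fun T => (fs Ms J : ℝ) *
      (if fs Ms J ≤ (CC J T).card then 1 else 0)) ≤ θ ^ x0 * (θ ^ k) ^ J.card := by
    intro J hJ
    rw [hJJ, mem_filter] at hJ
    obtain ⟨-, -, hJk, hJx⟩ := hJ
    set lam : ℝ := 1 / (2 * q) with hlam
    have hl1 : 1 ≤ lam := by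
      rw [hlam, le_div_iff₀ (by positivity)]
      linarith
    have hql : q * lam ≤ 1 / 2 := by
      rw [hlam]
      apply le_of_eq
      field_simp
    have hm := momentB M hE κ hκ A Aᶜ (cont Ms J) (fs Ms J)
      (fun I hI1 hI2 => hM.card_le_of_cont hI2 hI1) h0.le h1 hl1 hql
    have h3 : Ew Aᶜ q (fun T => (if fs Ms J ≤ (CC J T).card then (1 : ℝ) else 0))
        ≤ (θ ^ 2 / 2) ^ (fs Ms J) := by
      have hpow : (0 : ℝ) < lam ^ (fs Ms J) := by positivity
      have h4 : Ew Aᶜ q (fun T => (if fs Ms J ≤ (CC J T).card then (1 : ℝ) else 0))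
          ≤ Ew Aᶜ q (fun T => (lam ^ (fs Ms J))⁻¹ * lam ^ (CC J T).card) := by
        refine Ew_mono h0.le hq1 _ fun T _ => ?_
        split_ifs with h5
        · rw [inv_mul_eq_div, le_div_iff₀ hpow, one_mul]
          exact pow_le_pow_right₀ hl1 h5
        · positivity
      refine h4.trans ?_
      rw [Ew_mul]
      refine (mul_le_mul_of_nonneg_left hm (by positivity)).trans ?_
      have h5 : (lam ^ (fs Ms J))⁻¹ * 2 ^ (fs Ms J) = (4 * q) ^ (fs Ms J) := by
        rw [← inv_pow, ← mul_pow]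
        congr 1
        rw [hlam]
        field_simp
        ring
      rw [h5]
      exact pow_le_pow_left₀ (by positivity) hq _
    rw [Ew_mul]
    have h6 : (fs Ms J : ℝ) ≤ 2 ^ (fs Ms J) := by
      exact_mod_cast (Nat.lt_two_pow_self).le
    have h7 : (θ ^ 2 / 2) ^ (fs Ms J) * 2 ^ (fs Ms J) = θ ^ (fs Ms J) * θ ^ (fs Ms J) := by
      rw [← mul_pow, ← mul_pow]
      congr 1
      ring
    have h8 : θ ^ (fs Ms J) ≤ θ ^ x0 := pow_le_pow_of_le_one hθ0.le hθ1 hJx.le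
    have h9 : θ ^ (fs Ms J) ≤ (θ ^ k) ^ J.card := by
      rw [← pow_mul]
      exact pow_le_pow_of_le_one hθ0.le hθ1 hJk
    calc (fs Ms J : ℝ) * _ ≤ (fs Ms J : ℝ) * (θ ^ 2 / 2) ^ (fs Ms J) :=
          mul_le_mul_of_nonneg_left h3 (Nat.cast_nonneg _)
      _ ≤ 2 ^ (fs Ms J) * (θ ^ 2 / 2) ^ (fs Ms J) :=
          mul_le_mul_of_nonneg_right h6 (by positivity)
      _ = θ ^ (fs Ms J) * θ ^ (fs Ms J) := by rw [mul_comm, h7]
      _ ≤ θ ^ x0 * (θ ^ k) ^ J.card := mul_le_mul h8 h9 (by positivity) (by positivity)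
  have h3 : ∑ J ∈ JJ, (θ ^ x0 * (θ ^ k) ^ J.card)
      ≤ θ ^ x0 * ((1 + θ ^ k) ^ P.card - 1) := by
    rw [← mul_sum, ← sum_powerset_pow]
    refine mul_le_mul_of_nonneg_left ?_ (by positivity)
    refine sum_le_sum_of_subset_of_nonneg ?_ (fun J _ _ => by positivity)
    intro J hJ
    rw [hJJ, mem_filter] at hJ
    rw [mem_filter]
    exact ⟨hJ.1, hJ.2.1⟩
  have h4 := (sum_le_sum h2).trans h3
  calc (x0 : ℝ) + ∑ J ∈ JJ, Ew Aᶜ q (fun T => (fs Ms J : ℝ) *
      (if fs Ms J ≤ (CC J T).card then 1 else 0))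
      ≤ (x0 : ℝ) + θ ^ x0 * ((1 + θ ^ k) ^ P.card - 1) := by linarith
    _ ≤ 3 * (P.card : ℝ) * θ ^ k := hx0
    _ = _ := by ring

end Pool.Agent.Work.MP_3bf421_lc_FZ
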