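import Pool.Agent.Work.MP_3bf421_lc_FZ.Lev

set_option autoImplicit false

/-!
Expected nullity of the candidates.
-/

namespace Pool.Agent.Work.MP_3bf421_lc_FZ

open Finset
open Pool.Agent.Work.MP_3bf421_lc_LU
open _root_.MP_3bf421_lc.UN (rk fs cont)

variable {n : ℕ} {α : Type*} [LinearOrder α]

theorem half_sum (F : Finset (Fin n) → ℝ) :
    ∑ A : Finset (Fin n), F A = 2 ^ n * Ew univ (1 / 2) F := by
  unfold Ew
  rw [mul_sum, powerset_univ]
  refine sum_congr rfl fun A _ => ?_
  have h1 : (1 - 1 / 2 : ℝ) = 1 / 2 := by norm_num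
  have h2 : A.card + (univ \ A).card = n := by
    have := card_sdiff_add_card_eq_card (subset_univ A)
    rw [card_univ, Fintype.card_fin] at this
    omega
  rw [h1, ← pow_add, h2, ← mul_assoc, ← mul_pow]
  norm_num

/-- the status of `e` -/
def Stt (M : Matroid (Fin n)) (κ : Fin n → α) (D : Finset (Fin n)) (e : Fin n) : Prop :=
  e ∉ M.closure {y | y ∈ D ∧ κ e < κ y}

theorem Stt_insert (M : Matroid (Fin n)) (κ : Fin n → α) (D : Finset (Fin n)) (e : Fin n) :
    Stt M κ (insert e D) e ↔ Stt M κ D e := by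
  unfold Stt
  have h1 : {y | y ∈ insert e D ∧ κ e < κ y} = {y | y ∈ D ∧ κ e < κ y} := by
    ext y
    simp only [Set.mem_setOf_eq, mem_insert]
    constructor
    · rintro ⟨h | h, h2⟩
      · rw [h] at h2
        exact absurd h2 (lt_irrefl _)
      · exact ⟨h, h2⟩
    · rintro ⟨h, h2⟩
      exact ⟨Or.inr h, h2⟩
  rw [h1]

theorem compl_insert_eq (T : Finset (Fin n)) (e : Fin n) (he : e ∉ T) :
    Tᶜ = insert e (insert e T)ᶜ := by
  ext x
  rw [mem_insert, mem_compl, mem_compl, mem_insert, not_or]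
  by_cases hx : x = e
  · rw [hx]
    tauto
  · tauto

theorem Stt_compl_insert (M : Matroid (Fin n)) (κ : Fin n → α) (T : Finset (Fin n))
    (e : Fin n) (he : e ∉ T) : Stt M κ (insert e T)ᶜ e ↔ Stt M κ Tᶜ e := by
  rw [compl_insert_eq T e he]
  exact (Stt_insert M κ _ e).symm

open Classical in
theorem stt_indep (M : Matroid (Fin n)) (hE : M.E = Set.univ) (κ : Fin n → α)
    (hκ : Function.Injective κ) (D : Finset (Fin n)) :
    M.Indep ((D.filter (fun e => Stt M κ D e) : Finset (Fin n)) : Set (Fin n)) := by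
  have h1 := greedy_indep M hE κ hκ (fun x => x ∈ D)
  refine h1.subset ?_
  intro x hx
  rw [mem_coe, mem_filter] at hx
  exact hx

open Classical in
theorem card_stt_le (M : Matroid (Fin n)) (hE : M.E = Set.univ) (κ : Fin n → α)
    (hκ : Function.Injective κ) (D : Finset (Fin n)) (U : ℕ) :
    (D.filter (fun e => Stt M κ D e ∧ xr M κ D e < U)).card ≤ U := by
  rcases (D.filter (fun e => Stt M κ D e ∧ xr M κ D e < U)).eq_empty_or_nonempty with h0 | h0
  · rw [h0, card_empty]
    exact Nat.zero_le _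
  · obtain ⟨e0, he0, hmin⟩ := exists_min_image _ κ h0
    have he0' := (mem_filter.1 he0).2
    have h1 : ((D.filter (fun e => Stt M κ D e ∧ xr M κ D e < U)).erase e0).card
        ≤ xr M κ D e0 := by
      have h2 : M.Indep ((((D.filter (fun e => Stt M κ D e ∧ xr M κ D e < U)).erase e0 :
          Finset (Fin n))) : Set (Fin n)) := by
        refine (stt_indep M hE κ hκ D).subset ?_
        intro x hx
        rw [mem_coe, mem_erase, mem_filter] at hx
        rw [mem_coe, mem_filter]
        exact ⟨hx.2.1, hx.2.2.1⟩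
      rw [_root_.MP_3bf421_lc.UN.indep_iff_rk] at h2
      refine h2.trans ?_
      unfold xr
      refine _root_.MP_3bf421_lc.UN.rk_mono M ?_
      intro x hx
      rw [mem_erase] at hx
      have h3 := hmin x hx.2
      rw [mem_filter] at hx
      rw [mem_filter]
      exact ⟨hx.2.1, lt_of_le_of_ne h3 (fun h => hx.1 (hκ h).symm)⟩
    rw [card_erase_of_mem he0] at h1
    omega

open Classical in
theorem sum_rel (M : Matroid (Fin n)) (hE : M.E = Set.univ) (κ : Fin n → α)
    (hκ : Function.Injective κ) (U : ℕ) :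
    ∑ A : Finset (Fin n), (univ.filter (fun e => Rel M κ A e ∧ xr M κ A e < U)).card
      ≤ U * 2 ^ n := by
  have h1 : ∀ A : Finset (Fin n),
      ((univ.filter (fun e => Rel M κ A e ∧ xr M κ A e < U)).card : ℝ)
      = ∑ e : Fin n, (if e ∈ A then (0 : ℝ) else
          if Stt M κ A e ∧ xr M κ A e < U then 1 else 0) := by
    intro A
    have h2 : ∀ e : Fin n, (if e ∈ A then (0 : ℝ) else
          if Stt M κ A e ∧ xr M κ A e < U then 1 else 0)
        = if Rel M κ A e ∧ xr M κ A e < U then 1 else 0 := by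
      intro e
      by_cases he : e ∈ A
      · rw [if_pos he, if_neg (fun h => h.1.1 he)]
      · rw [if_neg he]
        by_cases h3 : Stt M κ A e ∧ xr M κ A e < U
        · rw [if_pos h3, if_pos ⟨⟨he, h3.1⟩, h3.2⟩]
        · rw [if_neg h3, if_neg (fun h => h3 ⟨h.1.2, h.2⟩)]
    rw [sum_congr rfl (fun e _ => h2 e), ← sum_filter, sum_const, nsmul_eq_mul, mul_one]
  have h2 : ∀ A : Finset (Fin n),
      ∑ e : Fin n, (if e ∈ A then (if Stt M κ A e ∧ xr M κ A e < U then (1 : ℝ) else 0) else 0)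
      ≤ U := by
    intro A
    rw [← sum_filter, ← sum_filter, sum_const, nsmul_eq_mul, mul_one, filter_filter]
    have h3 := card_stt_le M hE κ hκ A U
    have h4 : univ.filter (fun e => e ∈ A ∧ (Stt M κ A e ∧ xr M κ A e < U))
        = A.filter (fun e => Stt M κ A e ∧ xr M κ A e < U) := by
      ext e
      rw [mem_filter, mem_filter]
      simp
    rw [h4]
    exact_mod_cast h3
  have hxr : ∀ (A : Finset (Fin n)) (e : Fin n), xr M κ (insert e A) e = xr M κ A e := by
    intro A e
    unfold xr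
    congr 1
    ext y
    rw [mem_filter, mem_filter, mem_insert]
    constructor
    · rintro ⟨h | h, h2⟩
      · rw [h] at h2
        exact absurd h2 (lt_irrefl _)
      · exact ⟨h, h2⟩
    · rintro ⟨h, h2⟩
      exact ⟨Or.inr h, h2⟩
  have h3 : (∑ A : Finset (Fin n),
      ((univ.filter (fun e => Rel M κ A e ∧ xr M κ A e < U)).card : ℝ)) ≤ (U : ℝ) * 2 ^ n := by
    rw [half_sum, mul_comm]
    refine mul_le_mul_of_nonneg_right ?_ (by positivity)
    rw [Ew_congr univ (1 / 2) (fun A _ => h1 A), Ew_sum]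
    have h4 : ∀ e : Fin n, Ew univ (1 / 2) (fun A => if e ∈ A then (0 : ℝ) else
          if Stt M κ A e ∧ xr M κ A e < U then 1 else 0)
        = Ew univ (1 / 2) (fun A => if e ∈ A then
          (if Stt M κ A e ∧ xr M κ A e < U then (1 : ℝ) else 0) else 0) := by
      intro e
      have h5 := Ew_flip (mem_univ e) (1 / 2) (fun A =>
        if Stt M κ A e ∧ xr M κ A e < U then (1 : ℝ) else 0) (by
          intro T _
          beta_reduce
          rw [hxr]
          have h6 := Stt_insert M κ T e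
          by_cases h7 : Stt M κ T e ∧ xr M κ T e < U
          · rw [if_pos h7, if_pos ⟨h6.2 h7.1, h7.2⟩]
          · rw [if_neg h7, if_neg (fun h => h7 ⟨h6.1 h.1, h.2⟩)])
      linarith
    rw [sum_congr rfl (fun e _ => h4 e), ← Ew_sum]
    refine (Ew_mono (by norm_num) (by norm_num) univ (fun A _ => h2 A)).trans ?_
    rw [Ew_const]
  exact_mod_cast h3

open Classical in
theorem nullB (M : Matroid (Fin n)) (hE : M.E = Set.univ) (κ : Fin n → α)
    (hκ : Function.Injective κ) (A H : Finset (Fin n))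
    (hH : ∀ x y, x ∈ H → κ x ≤ κ y → y ∈ H) {q : ℝ} (h0 : 0 ≤ q) (h1 : q ≤ 1/2) :
    Ew Aᶜ q (fun T => ((H.filter (fun e => Rel M κ Tᶜ e)).card : ℝ)
      - rk M (H.filter (fun e => Rel M κ Tᶜ e))) ≤ 2 * q^2 * rk M H := by
  have hq1 : q ≤ 1 := by linarith
  set B := (optB M κ).filter (fun b => b ∈ H) with hB
  have hBind : M.Indep ((B : Finset (Fin n)) : Set (Fin n)) :=
    (optB_indep M hE κ hκ).subset (by intro x hx; exact (mem_filter.1 hx).1)
  have hBopt : ∀ b ∈ B, ∀ D : Finset (Fin n), Stt M κ D b := by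
    intro b hb D h
    rw [hB, mem_filter] at hb
    have h2 := hb.1
    unfold optB at h2
    rw [mem_filter] at h2
    apply h2.2
    refine M.closure_subset_closure ?_ h
    rintro y ⟨_, h3⟩
    exact h3
  have hV : rk M H = B.card := rk_upperset M hE κ hκ H hH
  -- the expected number of candidates
  have hEC : (1 - q) * Ew Aᶜ q (fun T => ((H.filter (fun e => Rel M κ Tᶜ e)).card : ℝ))
      ≤ q * ((B.card : ℝ) - ((B ∩ A).card : ℝ)) := by
    have e1 : ∀ T : Finset (Fin n), T ⊆ Aᶜ →
        ((H.filter (fun e => Rel M κ Tᶜ e)).card : ℝ)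
        = ∑ e ∈ H.filter (fun e => e ∉ A), (if e ∈ T then
          (if Stt M κ Tᶜ e then (1 : ℝ) else 0) else 0) := by
      intro T hT
      rw [← sum_filter, ← sum_filter, sum_const, nsmul_eq_mul, mul_one, filter_filter,
        filter_filter]
      congr 2
      ext e
      rw [mem_filter, mem_filter]
      constructor
      · rintro ⟨h2, h3, h4⟩
        rw [mem_compl, not_not] at h3
        exact ⟨h2, mem_compl.1 (hT h3), h3, h4⟩
      · rintro ⟨h2, _, h3, h4⟩
        exact ⟨h2, by rw [mem_compl, not_not]; exact h3, h4⟩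
    rw [Ew_congr _ _ e1, Ew_sum, mul_sum]
    have e2 : ∀ e ∈ H.filter (fun e => e ∉ A), (1 - q) * Ew Aᶜ q (fun T => if e ∈ T then
          (if Stt M κ Tᶜ e then (1 : ℝ) else 0) else 0)
        = q * Ew Aᶜ q (fun T => if e ∈ T then 0 else
          (if Stt M κ Tᶜ e then (1 : ℝ) else 0)) := by
      intro e he
      rw [mem_filter] at he
      refine Ew_flip (mem_compl.2 he.2) q (fun T => if Stt M κ Tᶜ e then (1 : ℝ) else 0) ?_
      intro T hT
      beta_reduce
      have h2 : e ∉ T := fun h => (mem_erase.1 (hT h)).1 rfl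
      have h3 := Stt_compl_insert M κ T e h2
      by_cases h4 : Stt M κ Tᶜ e
      · rw [if_pos h4, if_pos (h3.2 h4)]
      · rw [if_neg h4, if_neg (fun h => h4 (h3.1 h))]
    rw [sum_congr rfl e2, ← mul_sum, ← Ew_sum]
    refine mul_le_mul_of_nonneg_left ?_ h0
    rw [← Ew_const Aᶜ q ((B.card : ℝ) - ((B ∩ A).card : ℝ))]
    refine Ew_mono h0 hq1 _ fun T hT => ?_
    have e3 : (∑ e ∈ H.filter (fun e => e ∉ A), (if e ∈ T then (0 : ℝ) else
          (if Stt M κ Tᶜ e then (1 : ℝ) else 0)))
        = ((H.filter (fun e => e ∉ A ∧ e ∉ T ∧ Stt M κ Tᶜ e)).card : ℝ) := by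
      have h2 : ∀ e, (if e ∈ T then (0 : ℝ) else
          (if Stt M κ Tᶜ e then (1 : ℝ) else 0)) = if e ∉ T ∧ Stt M κ Tᶜ e then 1 else 0 := by
        intro e
        by_cases he : e ∈ T
        · rw [if_pos he, if_neg (fun h => h.1 he)]
        · rw [if_neg he]
          by_cases h3 : Stt M κ Tᶜ e
          · rw [if_pos h3, if_pos ⟨he, h3⟩]
          · rw [if_neg h3, if_neg (fun h => h3 h.2)]
      rw [sum_congr rfl (fun e _ => h2 e), ← sum_filter, sum_const, nsmul_eq_mul, mul_one,
        filter_filter]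
    rw [e3]
    have e4 : (H.filter (fun e => e ∉ A ∧ e ∉ T ∧ Stt M κ Tᶜ e)).card + (B ∩ A).card
        ≤ B.card := by
      rw [← card_union_of_disjoint]
      · have h2 : (H.filter (fun e => e ∉ A ∧ e ∉ T ∧ Stt M κ Tᶜ e)) ∪ (B ∩ A)
            ⊆ (Tᶜ.filter (fun e => Stt M κ Tᶜ e)).filter (fun e => e ∈ H) := by
          intro e he
          rw [mem_union, mem_filter, mem_inter] at he
          rw [mem_filter, mem_filter, mem_compl]
          rcases he with ⟨a1, a2, a3, a4⟩ | ⟨a1, a2⟩
          · exact ⟨⟨a3, a4⟩, a1⟩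
          · refine ⟨⟨fun h => (mem_compl.1 (hT h)) a2, hBopt e a1 _⟩, ?_⟩
            rw [hB, mem_filter] at a1
            exact a1.2
        refine (card_le_card h2).trans ?_
        rw [← hV]
        have h3 : M.Indep ((((Tᶜ.filter (fun e => Stt M κ Tᶜ e)).filter (fun e => e ∈ H) :
            Finset (Fin n))) : Set (Fin n)) := by
          refine (stt_indep M hE κ hκ Tᶜ).subset ?_
          intro x hx
          exact (mem_filter.1 (mem_coe.1 hx)).1
        rw [_root_.MP_3bf421_lc.UN.indep_iff_rk] at h3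
        refine h3.trans (_root_.MP_3bf421_lc.UN.rk_mono M ?_)
        intro x hx
        exact (mem_filter.1 hx).2
      · rw [disjoint_left]
        intro e he he'
        rw [mem_filter] at he
        rw [mem_inter] at he'
        exact he.2.1 he'.2
    have e5 : ((H.filter (fun e => e ∉ A ∧ e ∉ T ∧ Stt M κ Tᶜ e)).card : ℝ)
        + ((B ∩ A).card : ℝ) ≤ (B.card : ℝ) := by exact_mod_cast e4
    linarith
  -- the expected rank
  have hER : q * ((B.card : ℝ) - ((B ∩ A).card : ℝ))
      ≤ Ew Aᶜ q (fun T => (rk M (H.filter (fun e => Rel M κ Tᶜ e)) : ℝ)) := by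
    have e1 : Ew Aᶜ q (fun T => ∑ b ∈ B.filter (fun b => b ∉ A),
        (if b ∈ T then (1 : ℝ) else 0)) = q * ((B.card : ℝ) - ((B ∩ A).card : ℝ)) := by
      rw [Ew_sum]
      have h2 : ∀ b ∈ B.filter (fun b => b ∉ A),
          Ew Aᶜ q (fun T => if b ∈ T then (1 : ℝ) else 0) = q := by
        intro b hb
        rw [mem_filter] at hb
        rw [Ew_mem (mem_compl.2 hb.2), Ew_const, mul_one]
      rw [sum_congr rfl h2, sum_const, nsmul_eq_mul]
      have h3 : (B.filter (fun b => b ∉ A)).card + (B ∩ A).card = B.card := by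
        rw [← filter_mem_eq_inter, add_comm]
        exact card_filter_add_card_filter_not _
      have h4 : ((B.filter (fun b => b ∉ A)).card : ℝ) + ((B ∩ A).card : ℝ) = (B.card : ℝ) := by
        exact_mod_cast h3
      rw [← h4]
      ring
    rw [← e1]
    refine Ew_mono h0 hq1 _ fun T hT => ?_
    rw [← sum_filter, sum_const, nsmul_eq_mul, mul_one, filter_filter]
    have h2 : M.Indep (((B.filter (fun b => b ∉ A ∧ b ∈ T) : Finset (Fin n))) :
        Set (Fin n)) := by
      refine hBind.subset ?_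
      intro x hx
      exact (mem_filter.1 (mem_coe.1 hx)).1
    rw [_root_.MP_3bf421_lc.UN.indep_iff_rk] at h2
    have h3 : rk M (B.filter (fun b => b ∉ A ∧ b ∈ T))
        ≤ rk M (H.filter (fun e => Rel M κ Tᶜ e)) := by
      refine _root_.MP_3bf421_lc.UN.rk_mono M ?_
      intro b hb
      rw [mem_filter] at hb
      have h4 := hb.1
      rw [hB, mem_filter] at h4
      rw [mem_filter]
      exact ⟨h4.2, by rw [mem_compl, not_not]; exact hb.2.2, hBopt b hb.1 _⟩
    exact_mod_cast h2.trans h3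
  rw [Ew_sub, hV]
  have hw0 : 0 ≤ (B.card : ℝ) - ((B ∩ A).card : ℝ) := by
    have : ((B ∩ A).card : ℝ) ≤ (B.card : ℝ) := by exact_mod_cast card_le_card inter_subset_left
    linarith
  have hwV : (B.card : ℝ) - ((B ∩ A).card : ℝ) ≤ (B.card : ℝ) := by
    have : (0 : ℝ) ≤ ((B ∩ A).card : ℝ) := Nat.cast_nonneg _
    linarith
  set w := (B.card : ℝ) - ((B ∩ A).card : ℝ) with hw
  set EC := Ew Aᶜ q (fun T => ((H.filter (fun e => Rel M κ Tᶜ e)).card : ℝ)) with hECd
  set ER := Ew Aᶜ q (fun T => (rk M (H.filter (fun e => Rel M κ Tᶜ e)) : ℝ)) with hERd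
  have h2 : EC ≤ q * w + 2 * q ^ 2 * w := by
    -- (1-q) EC ≤ q w ≤ (1-q) (q w + 2 q² w)
    have h3 : q * w ≤ (1 - q) * (q * w + 2 * q ^ 2 * w) := by
      have h4 : (1 - q) * (q * w + 2 * q ^ 2 * w) - q * w = q ^ 2 * w * (1 - 2 * q) := by ring
      have h5 : 0 ≤ q ^ 2 * w * (1 - 2 * q) :=
        mul_nonneg (mul_nonneg (sq_nonneg q) hw0) (by linarith)
      linarith
    have h4 : (1 - q) * EC ≤ (1 - q) * (q * w + 2 * q ^ 2 * w) := hEC.trans h3
    exact le_of_mul_le_mul_left h4 (by linarith)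
  have h3 : 2 * q ^ 2 * w ≤ 2 * q ^ 2 * (B.card : ℝ) :=
    mul_le_mul_of_nonneg_left hwV (by positivity)
  linarith

end Pool.Agent.Work.MP_3bf421_lc_FZ
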