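import Pool.Agent.Work.MP_3bf421_lc_FZ.PerA
import Pool.Agent.Work.MP_3bf421_lc_FZ.BlockB
import Pool.Agent.Work.MP_3bf421_lc_FZ.NulB

set_option autoImplicit false

/-!
The expected number of blocked elements.
-/

namespace Pool.Agent.Work.MP_3bf421_lc_FZ

open Finset
open Pool.Agent.Work.MP_3bf421_lc_LU
open _root_.MP_3bf421_lc.UN (rk fs cont)

variable {n : ℕ} {α : Type*} [LinearOrder α]

theorem null_mono (M : Matroid (Fin n)) {X Y : Finset (Fin n)} (h : X ⊆ Y) :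
    X.card - rk M X ≤ Y.card - rk M Y := by
  have h1 := _root_.MP_3bf421_lc.UN.rk_submod M X (Y \ X)
  have h2 := _root_.MP_3bf421_lc.UN.rk_le_card M (Y \ X)
  have h3 : X ∪ (Y \ X) = Y := union_sdiff_of_subset h
  rw [h3] at h1
  have h4 := card_sdiff_add_card_eq_card h
  have h5 := _root_.MP_3bf421_lc.UN.rk_le_card M X
  have h6 := _root_.MP_3bf421_lc.UN.rk_le_card M Y
  omega

open Classical in
theorem CC_sub (M : Matroid (Fin n)) (κ : Fin n → α) (c : Fin n → ℕ) (N : ℕ)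
    (D : Finset (Fin n)) (i : ℕ) :
    CC M κ c N D i ⊆ (univ.filter (fun e => c e < i + 1)).filter (fun e => Rel M κ D e) := by
  intro e he
  unfold CC at he
  rw [mem_filter] at he
  rw [mem_filter, mem_filter]
  exact ⟨⟨mem_univ _, by omega⟩, he.2.1.1⟩

open Classical in
/-- the bound by nullities, for any matroid -/
theorem bl1 (M : Matroid (Fin n)) (hE : M.E = Set.univ) (κ : Fin n → α)
    (hκ : Function.Injective κ) (J : ℕ) (hJ : 1 ≤ J) (A : Finset (Fin n)) (hA : GoodA M κ A)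
    (a : Fin n) (ha : a ∈ optB M κ) {q : ℝ} (h0 : 0 ≤ q) (h1 : q ≤ 1 / 2)
    (hK : KK J (rk M A) = 2 ^ 18) (i : ℕ) (hi : i ≤ cls M κ J A a) :
    Ew Aᶜ q (fun T => (bl M κ (cls M κ J A) (J + 1) Tᶜ i : ℝ))
      ≤ 18 * 2 ^ 18 * q ^ 2 * (((optB M κ).filter (fun b => κ a ≤ κ b)).card : ℝ) := by
  have hq1 : q ≤ 1 := by linarith
  set c := cls M κ J A with hc
  set H := univ.filter (fun e => c e < i + 1) with hH
  have hHup : ∀ x y, x ∈ H → κ x ≤ κ y → y ∈ H := by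
    intro x y hx hxy
    rw [hH, mem_filter] at hx ⊢
    exact ⟨mem_univ _, lt_of_le_of_lt (cls_anti M κ J A hxy) hx.2⟩
  have h2 := nullB M hE κ hκ A H hHup h0 h1
  have h3 : Ew Aᶜ q (fun T => (bl M κ c (J + 1) Tᶜ i : ℝ))
      ≤ Ew Aᶜ q (fun T => ((H.filter (fun e => Rel M κ Tᶜ e)).card : ℝ)
      - rk M (H.filter (fun e => Rel M κ Tᶜ e))) := by
    refine Ew_mono h0 hq1 _ fun T _ => ?_
    have h4 : bl M κ c (J + 1) Tᶜ i ≤ (H.filter (fun e => Rel M κ Tᶜ e)).card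
        - rk M (H.filter (fun e => Rel M κ Tᶜ e)) := by
      unfold bl
      exact (min_le_left _ _).trans (null_mono M (CC_sub M κ c (J + 1) Tᶜ i))
    have h5 := _root_.MP_3bf421_lc.UN.rk_le_card M (H.filter (fun e => Rel M κ Tᶜ e))
    rw [← Nat.cast_sub h5]
    exact_mod_cast h4
  refine h3.trans (h2.trans ?_)
  have h4 : (rk M H : ℝ) ≤ 9 * (2 ^ 18) *
      (((optB M κ).filter (fun b => κ a ≤ κ b)).card : ℝ) := by
    rw [rk_upperset M hE κ hκ H hHup]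
    have h5 : (optB M κ).filter (fun b => b ∈ H) = (optB M κ).filter (fun b => c b < i + 1) := by
      ext b
      simp only [mem_filter, hH, mem_univ, true_and]
    rw [h5]
    refine (upper_card M hE κ hκ J hJ A hA (i + 1) (by omega)).trans ?_
    have h6 := pow_cls_le M hE κ hκ J A a ha i hi
    rw [pow_succ, hK] at *
    linarith
  have h5 : (0 : ℝ) ≤ 2 * q ^ 2 := by positivity
  calc 2 * q ^ 2 * (rk M H : ℝ) ≤ 2 * q ^ 2 * (9 * (2 ^ 18) *
      (((optB M κ).filter (fun b => κ a ≤ κ b)).card : ℝ)) :=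
        mul_le_mul_of_nonneg_left h4 h5
    _ = _ := by ring

open Classical in
/-- the bound for unions -/
theorem bl2 {l : ℕ} (M : Matroid (Fin n)) (hE : M.E = Set.univ) (κ : Fin n → α)
    (hκ : Function.Injective κ) (Ms : Fin l → Matroid (Fin n))
    (hM : _root_.MP_3bf421_lc.UN.IsUnion M Ms) (k : ℕ)
    (hk : ∀ j, k ≤ (univ.filter (fun i => Ms i = Ms j)).card)
    (J : ℕ) (hJ : 1 ≤ J) (A : Finset (Fin n))
    (a : Fin n) (ha : a ∈ optB M κ) {q θ : ℝ} (h0 : 0 < q) (h1 : q ≤ 1 / 2)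
    (hθ0 : 0 < θ) (hθ : θ ≤ Real.exp (-1)) (hq : 4 * q ≤ θ ^ 2 / 2)
    (hK : KK J (rk M A) ≤ Real.exp 1 ^ k) (i : ℕ) (hi : i ≤ cls M κ J A a) :
    Ew Aᶜ q (fun T => (bl M κ (cls M κ J A) (J + 1) Tᶜ i : ℝ))
      ≤ 3 * θ ^ k * ((univ.filter (fun e => Rel M κ A e ∧ xr M κ A e <
        ⌈Real.exp 1 ^ k * (((optB M κ).filter (fun b => κ a ≤ κ b)).card : ℝ)⌉₊)).card : ℝ) := by
  have hq1 : q ≤ 1 := by linarith
  set c := cls M κ J A with hc
  set H := univ.filter (fun e => c e < i + 1) with hH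
  have h3 : Ew Aᶜ q (fun T => (bl M κ c (J + 1) Tᶜ i : ℝ))
      ≤ Ew Aᶜ q (fun T => (nb M κ (CC M κ c (J + 1) Tᶜ i) : ℝ)) := by
    refine Ew_mono h0.le hq1 _ fun T _ => ?_
    unfold bl
    exact_mod_cast min_le_right _ _
  refine h3.trans ((block3 M hE κ hκ Ms hM k hk A H h0 h1 hθ0 hθ hq _
    (fun T _ => CC_sub M κ c (J + 1) Tᶜ i)).trans ?_)
  refine mul_le_mul_of_nonneg_left ?_ (by positivity)
  have h4 : H.filter (fun e => Rel M κ A e) ⊆ univ.filter (fun e => Rel M κ A e ∧ xr M κ A e <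
        ⌈Real.exp 1 ^ k * (((optB M κ).filter (fun b => κ a ≤ κ b)).card : ℝ)⌉₊) := by
    intro e he
    rw [mem_filter, hH, mem_filter] at he
    rw [mem_filter]
    refine ⟨mem_univ _, he.2, ?_⟩
    have h5 := lt_of_lev_lt hJ (xr_le M κ A e) (by omega : 1 ≤ i + 1) he.1.2
    have h6 := pow_cls_le M hE κ hκ J A a ha i hi
    rw [Nat.lt_ceil]
    calc (xr M κ A e : ℝ) < KK J (rk M A) ^ (i + 1) := h5
      _ = KK J (rk M A) * KK J (rk M A) ^ i := by rw [pow_succ]; ring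
      _ ≤ Real.exp 1 ^ k * (((optB M κ).filter (fun b => κ a ≤ κ b)).card : ℝ) :=
          mul_le_mul hK h6 (pow_nonneg (KK_pos _ _).le _) (by positivity)
  exact_mod_cast card_le_card h4

end Pool.Agent.Work.MP_3bf421_lc_FZ
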