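import Pool.Agent.Work.MP_3bf421_lc_FZ.Defs

set_option autoImplicit false

/-!
The accepted elements are independent.
-/

namespace Pool.Agent.Work.MP_3bf421_lc_FZ

open Finset
open Pool.Agent.Work.MP_3bf421_lc_LU
open _root_.MP_3bf421_lc.UN (rk fs cont)

variable {n : ℕ} {α : Type*} [LinearOrder α]

theorem accB_indep (M : Matroid (Fin n)) (hE : M.E = Set.univ) (κ : Fin n → α)
    (c : Fin n → ℕ) (N : ℕ) (hc : ∀ x, c x < N) (r : Par)
    (hr : ∀ i i', r.act i = true → r.act i' = true → r.st i < r.st i' → r.en i ≤ r.st i')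
    (hst : ∀ i, r.st i ≤ i) (D : Finset (Fin n)) (t : Fin n → ℕ)
    (ht : Function.Injective t) : M.Indep {e | AccB M κ c N r D t e} := by
  by_contra hcon
  have hdep : M.Dep {e | AccB M κ c N r D t e} := ⟨hcon, by rw [hE]; exact Set.subset_univ _⟩
  obtain ⟨C, hC, hcirc⟩ := hdep.exists_isCircuit_subset
  have hne := hcirc.nonempty
  obtain ⟨e, he, hmax⟩ := Set.exists_max_image C (fun x => toLex (r.st (c x), t x))
    (Set.toFinite C) hne
  have h1 := hcirc.mem_closure_sdiff_singleton_of_mem he
  have hacc := hC he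
  apply hacc.2
  have hsub : C \ {e} ⊆ M.closure {x | (x ∈ D ∧ c x < r.st (c e)) ∨
      (Cd M κ c N r D x ∧ r.st (c x) = r.st (c e) ∧ t x < t e)} := by
    rintro x ⟨hx, hxe⟩
    have hxa : AccB M κ c N r D t x := hC hx
    have h2 := hmax x hx
    simp only [Prod.Lex.toLex_le_toLex] at h2
    have hne2 : t x ≠ t e := fun h => hxe (ht h)
    rcases h2 with h2 | ⟨h2, h3⟩
    · -- an earlier block
      have h4 := hr (c x) (c e) hxa.1.2.1 hacc.1.2.1 h2
      have h5 : r.st (c e) ≤ c e := hst _
      have h6 := hc e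
      rcases hxa.1.2.2 with h7 | h7
      · omega
      · refine M.closure_subset_closure ?_ h7
        rintro y ⟨h8, h9⟩
        exact Or.inl ⟨h8, by omega⟩
    · refine M.subset_closure _ (by rw [hE]; exact Set.subset_univ _) ?_
      exact Or.inr ⟨hxa.1, h2, lt_of_le_of_ne h3 hne2⟩
  have h2 := M.closure_subset_closure hsub h1
  rwa [M.closure_closure] at h2

theorem ownP_chain (w : ℕ) : ∀ i i', (ownP w).act i = true → (ownP w).act i' = true →
    (ownP w).st i < (ownP w).st i' → (ownP w).en i ≤ (ownP w).st i' := by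
  intro i i' h1 h2 h3
  unfold ownP at *
  simp only [decide_eq_true_eq] at *
  omega

theorem ownP_st (w i : ℕ) : (ownP w).st i ≤ i := by
  unfold ownP
  simp

theorem scaleP_chain (t : ℕ) : ∀ i i', (scaleP t).act i = true → (scaleP t).act i' = true →
    (scaleP t).st i < (scaleP t).st i' → (scaleP t).en i ≤ (scaleP t).st i' := by
  intro i i' _ _ h3
  unfold scaleP at *
  simp only at *
  have hpos : 0 < 2 ^ (t + 1) := by positivity
  have h4 := Nat.lt_of_mul_lt_mul_right h3
  exact Nat.mul_le_mul_right _ h4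

theorem scaleP_st (t i : ℕ) : (scaleP t).st i ≤ i := by
  unfold scaleP
  simp only
  exact Nat.div_mul_le_self i _

end Pool.Agent.Work.MP_3bf421_lc_FZ
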