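import Pool.Agent.Work.MP_3bf421_lc_LU.Greedy
import Pool.Agent.Work.MP_3bf421_lc.UN.Key

set_option autoImplicit false

/-!
Rules acting on the blocks of a chain of flats spanned by the elements seen first.
-/

namespace Pool.Agent.Work.MP_3bf421_lc_FZ

open Finset
open Pool.Agent.Work.MP_3bf421_lc_LU
open _root_.MP_3bf421_lc.UN (rk fs cont)

variable {n : ℕ} {α : Type*} [LinearOrder α]

/-- the rank of the elements of `A` heavier than `e` -/
noncomputable def xr (M : Matroid (Fin n)) (κ : Fin n → α) (A : Finset (Fin n)) (e : Fin n) : ℕ :=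
  rk M (A.filter (fun y => κ e < κ y))

/-- `e ∉ D` is not spanned by the heavier elements of `D` -/
def Rel (M : Matroid (Fin n)) (κ : Fin n → α) (D : Finset (Fin n)) (e : Fin n) : Prop :=
  e ∉ D ∧ e ∉ M.closure {y | y ∈ D ∧ κ e < κ y}

/-- `e` is spanned by the elements of `D` of class `< i` (always true for `i > N`) -/
def SpN (M : Matroid (Fin n)) (c : Fin n → ℕ) (N : ℕ) (D : Finset (Fin n)) (i : ℕ) (e : Fin n) :
    Prop :=
  N < i ∨ e ∈ M.closure {y | y ∈ D ∧ c y < i}

/-- the parameters of a rule: the active classes, the start and the end of the block of a class -/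
structure Par where
  act : ℕ → Bool
  st : ℕ → ℕ
  en : ℕ → ℕ

/-- the candidates of the rule `r`, where `c` is the class of an element -/
def Cd (M : Matroid (Fin n)) (κ : Fin n → α) (c : Fin n → ℕ) (N : ℕ) (r : Par)
    (D : Finset (Fin n)) (e : Fin n) : Prop :=
  Rel M κ D e ∧ r.act (c e) = true ∧ SpN M c N D (r.en (c e)) e

/-- the elements accepted by the rule `r`, if `t x` is the time of arrival of `x` -/
def AccB (M : Matroid (Fin n)) (κ : Fin n → α) (c : Fin n → ℕ) (N : ℕ) (r : Par)
    (D : Finset (Fin n)) (t : Fin n → ℕ) (e : Fin n) : Prop :=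
  Cd M κ c N r D e ∧
    e ∉ M.closure {x | (x ∈ D ∧ c x < r.st (c e)) ∨
      (Cd M κ c N r D x ∧ r.st (c x) = r.st (c e) ∧ t x < t e)}

/-- the rule for elements spanned by their own class -/
def ownP (w : ℕ) : Par := ⟨fun i => decide (i % 3 = w), fun i => i - 2, fun i => i + 1⟩

/-- the rule for elements spanned at scale `2 ^ t` -/
def scaleP (t : ℕ) : Par :=
  ⟨fun i => decide (i / 2 ^ t % 2 = 0), fun i => i / 2 ^ (t + 1) * 2 ^ (t + 1),
    fun i => (i / 2 ^ (t + 1) + 1) * 2 ^ (t + 1)⟩

/-- the expectation over a random subset `T` of `G` -/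
noncomputable def Ew (G : Finset (Fin n)) (q : ℝ) (F : Finset (Fin n) → ℝ) : ℝ :=
  ∑ T ∈ G.powerset, q ^ T.card * (1 - q) ^ (G \ T).card * F T

end Pool.Agent.Work.MP_3bf421_lc_FZ
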