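import Pool.Agent.Work.MP_3bf421_lc_FZ.Own

set_option autoImplicit false

/-!
Lower bounds for the number of accepted elements.
-/

namespace Pool.Agent.Work.MP_3bf421_lc_FZ

open Finset
open Pool.Agent.Work.MP_3bf421_lc_LU
open _root_.MP_3bf421_lc.UN (rk fs cont)

variable {n : ℕ} {α : Type*} [LinearOrder α]

open Classical in
/-- the candidates of class `i` spanned by their own class -/
noncomputable def CC (M : Matroid (Fin n)) (κ : Fin n → α) (c : Fin n → ℕ) (N : ℕ)
    (D : Finset (Fin n)) (i : ℕ) : Finset (Fin n) :=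
  univ.filter (fun e => Cd M κ c N (ownP (i % 3)) D e ∧ c e = i)

/-- the rules -/
def rr (m l : ℕ) : Par := if l < m then scaleP l else ownP (l - m)

open Classical in
/-- the lower bound for class `i` -/
noncomputable def LBi (M : Matroid (Fin n)) (κ : Fin n → α) (c : Fin n → ℕ) (N m : ℕ)
    (a : Fin n) (D : Finset (Fin n)) (i : ℕ) : ℝ :=
  (∑ t ∈ range m, (((optB M κ).filter (fun b => κ a ≤ κ b ∧ c b = i ∧
      ∀ ar' : Fin n → ℕ, AccB M κ c N (scaleP t) D ar' b)).card : ℝ))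
    + (((optB M κ).filter (fun b => κ a ≤ κ b ∧ c b = i ∧ b ∉ D ∧
        SpN M c N D (i+1) b)).card : ℝ)
    - (rk M (D.filter (fun y => c y < i - 2)) : ℝ)
    - ((min ((CC M κ c N D i).card - rk M (CC M κ c N D i)) (nb M κ (CC M κ c N D i)) : ℕ) : ℝ)

open Classical in
theorem acc_classes (M : Matroid (Fin n)) (κ : Fin n → α) (c : Fin n → ℕ) (a : Fin n)
    (P : Fin n → Prop) (I0 : Finset ℕ) :
    ∑ i ∈ I0, ((optB M κ).filter (fun b => κ a ≤ κ b ∧ c b = i ∧ P b)).card
    ≤ (univ.filter (fun e => κ a ≤ κ e ∧ P e)).card := by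
  rw [← card_biUnion]
  · apply card_le_card
    intro b hb
    rw [mem_biUnion] at hb
    obtain ⟨i, _, hb⟩ := hb
    rw [mem_filter] at hb
    rw [mem_filter]
    exact ⟨mem_univ _, hb.2.1, hb.2.2.2⟩
  · intro i _ i' _ hne
    rw [Function.onFun, disjoint_left]
    intro b hb hb'
    rw [mem_filter] at hb hb'
    exact hne (hb.2.2.1.symm.trans hb'.2.2.1)

open Classical in
theorem det_lb (M : Matroid (Fin n)) (hE : M.E = Set.univ) (κ : Fin n → α)
    (hκ : Function.Injective κ) (c : Fin n → ℕ) (N m : ℕ) (D : Finset (Fin n))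
    (ar : Fin n → ℕ) (har : Function.Injective ar) (a : Fin n) (I0 : Finset ℕ)
    (hI0 : ∀ i ∈ I0, i + 1 ≤ N) :
    ∑ i ∈ I0, LBi M κ c N m a D i ≤
    ∑ l : Fin (m + 3), ((univ.filter (fun e => κ a ≤ κ e ∧
      AccB M κ c N (rr m l) D ar e)).card : ℝ) := by
  rw [Fin.sum_univ_eq_sum_range (fun l => ((univ.filter (fun e => κ a ≤ κ e ∧
      AccB M κ c N (rr m l) D ar e)).card : ℝ)) (m + 3), sum_range_add]
  have h1 : ∀ t ∈ range m, ((∑ i ∈ I0, ((optB M κ).filter (fun b => κ a ≤ κ b ∧ c b = i ∧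
      ∀ ar' : Fin n → ℕ, AccB M κ c N (scaleP t) D ar' b)).card : ℕ) : ℝ)
      ≤ ((univ.filter (fun e => κ a ≤ κ e ∧ AccB M κ c N (rr m t) D ar e)).card : ℝ) := by
    intro t ht
    rw [mem_range] at ht
    have h2 := acc_classes M κ c a (fun b => ∀ ar' : Fin n → ℕ,
      AccB M κ c N (scaleP t) D ar' b) I0
    have h3 : (univ.filter (fun e => κ a ≤ κ e ∧ ∀ ar' : Fin n → ℕ,
        AccB M κ c N (scaleP t) D ar' e)).card
        ≤ (univ.filter (fun e => κ a ≤ κ e ∧ AccB M κ c N (rr m t) D ar e)).card := by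
      apply card_le_card
      intro e he
      rw [mem_filter] at he ⊢
      refine ⟨he.1, he.2.1, ?_⟩
      unfold rr
      rw [if_pos ht]
      exact he.2.2 ar
    exact_mod_cast h2.trans h3
  have h2 : ∀ w ∈ range 3, ((∑ i ∈ I0, ((optB M κ).filter (fun b => κ a ≤ κ b ∧ c b = i ∧
      AccB M κ c N (ownP w) D ar b)).card : ℕ) : ℝ)
      ≤ ((univ.filter (fun e => κ a ≤ κ e ∧ AccB M κ c N (rr m (m + w)) D ar e)).card : ℝ) := by
    intro w hw
    have h3 := acc_classes M κ c a (fun b => AccB M κ c N (ownP w) D ar b) I0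
    have h4 : rr m (m + w) = ownP w := by
      unfold rr
      rw [if_neg (by omega), Nat.add_sub_cancel_left]
    rw [h4]
    exact_mod_cast h3
  have h3 : ∑ i ∈ I0, ((((optB M κ).filter (fun b => κ a ≤ κ b ∧ c b = i ∧
      AccB M κ c N (ownP (i % 3)) D ar b)).card : ℕ) : ℝ)
      ≤ ∑ w ∈ range 3, ((∑ i ∈ I0, ((optB M κ).filter (fun b => κ a ≤ κ b ∧ c b = i ∧
      AccB M κ c N (ownP w) D ar b)).card : ℕ) : ℝ) := by
    push_cast
    rw [sum_comm]
    refine sum_le_sum fun i _ => ?_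
    exact single_le_sum (f := fun w => (((optB M κ).filter (fun b => κ a ≤ κ b ∧ c b = i ∧
      AccB M κ c N (ownP w) D ar b)).card : ℝ)) (fun w _ => Nat.cast_nonneg _)
      (mem_range.2 (Nat.mod_lt i (by norm_num)))
  have h4 : ∀ i ∈ I0, LBi M κ c N m a D i ≤
      (∑ t ∈ range m, (((optB M κ).filter (fun b => κ a ≤ κ b ∧ c b = i ∧
      ∀ ar' : Fin n → ℕ, AccB M κ c N (scaleP t) D ar' b)).card : ℝ))
      + (((optB M κ).filter (fun b => κ a ≤ κ b ∧ c b = i ∧
      AccB M κ c N (ownP (i % 3)) D ar b)).card : ℝ) := by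
    intro i hi
    have h5 := own_count M hE κ c N D ar har i a (CC M κ c N D i) rfl
    have h6 : (((optB M κ).filter (fun b => κ a ≤ κ b ∧ c b = i ∧ b ∉ D ∧
        SpN M c N D (i+1) b)).card : ℝ) ≤ (((optB M κ).filter (fun b => κ a ≤ κ b ∧ c b = i ∧
      AccB M κ c N (ownP (i % 3)) D ar b)).card : ℝ)
        + (rk M (D.filter (fun y => c y < i - 2)) : ℝ)
        + ((min ((CC M κ c N D i).card - rk M (CC M κ c N D i))
          (nb M κ (CC M κ c N D i)) : ℕ) : ℝ) := by
      exact_mod_cast h5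
    unfold LBi
    linarith
  refine (sum_le_sum h4).trans ?_
  rw [sum_add_distrib, sum_comm]
  refine add_le_add ?_ (h3.trans (sum_le_sum h2))
  refine sum_le_sum fun t ht => ?_
  have := h1 t ht
  push_cast at this
  exact this

end Pool.Agent.Work.MP_3bf421_lc_FZ
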