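import Pool.Agent.Work.MP_3bf421_lc_FZ.Ew

set_option autoImplicit false

/-!
The probability that an element of the optimum basis is accepted by the rule of a scale.
-/

namespace Pool.Agent.Work.MP_3bf421_lc_FZ

open Finset
open Pool.Agent.Work.MP_3bf421_lc_LU
open _root_.MP_3bf421_lc.UN (rk fs cont)

variable {n : ℕ} {α : Type*} [LinearOrder α]

open Classical in
/-- the probability that `b` is spanned by the other sampled elements of class `< i` -/
noncomputable def gB (M : Matroid (Fin n)) (c : Fin n → ℕ) (N : ℕ) (A : Finset (Fin n))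
    (b : Fin n) (q : ℝ) (i : ℕ) : ℝ :=
  Ew (Aᶜ.erase b) q (fun T => if SpN M c N (Tᶜ.erase b) i b then 1 else 0)

theorem gB_nonneg (M : Matroid (Fin n)) (c : Fin n → ℕ) (N : ℕ) (A : Finset (Fin n))
    (b : Fin n) {q : ℝ} (h0 : 0 ≤ q) (h1 : q ≤ 1) (i : ℕ) : 0 ≤ gB M c N A b q i := by
  classical
  unfold gB
  refine Ew_nonneg h0 h1 _ fun T _ => ?_
  split_ifs
  · exact zero_le_one
  · exact le_refl _

theorem gB_le_one (M : Matroid (Fin n)) (c : Fin n → ℕ) (N : ℕ) (A : Finset (Fin n))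
    (b : Fin n) {q : ℝ} (h0 : 0 ≤ q) (h1 : q ≤ 1) (i : ℕ) : gB M c N A b q i ≤ 1 := by
  classical
  unfold gB
  refine (Ew_mono h0 h1 _ (F' := fun _ => 1) fun T _ => ?_).trans_eq (Ew_const _ _ _)
  split_ifs
  · exact le_refl _
  · exact zero_le_one

theorem gB_eq_one (M : Matroid (Fin n)) (c : Fin n → ℕ) (N : ℕ) (A : Finset (Fin n))
    (b : Fin n) (q : ℝ) {i : ℕ} (hi : N < i) : gB M c N A b q i = 1 := by
  classical
  unfold gB
  rw [Ew_congr (F' := fun _ => 1), Ew_const]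
  intro T _
  rw [if_pos (show SpN M c N (Tᶜ.erase b) i b from Or.inl hi)]

theorem insert_compl_eq (b : Fin n) (T : Finset (Fin n)) : (insert b T)ᶜ = Tᶜ.erase b := by
  ext x
  rw [mem_compl, mem_insert, mem_erase, mem_compl, not_or]

open Classical in
theorem own_prob (M : Matroid (Fin n)) (A : Finset (Fin n))
    (c : Fin n → ℕ) (N : ℕ) (b : Fin n) (hbA : b ∉ A) (q : ℝ) :
    Ew Aᶜ q (fun T => if b ∈ T ∧ SpN M c N Tᶜ (c b + 1) b then 1 else 0)
      = q * gB M c N A b q (c b + 1) := by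
  have h1 : Ew Aᶜ q (fun T => if b ∈ T ∧ SpN M c N Tᶜ (c b + 1) b then (1 : ℝ) else 0)
      = Ew Aᶜ q (fun T => if b ∈ T then (if SpN M c N Tᶜ (c b + 1) b then (1 : ℝ) else 0)
        else 0) := by
    refine Ew_congr _ _ fun T _ => ?_
    by_cases hb : b ∈ T
    · by_cases hs : SpN M c N Tᶜ (c b + 1) b
      · rw [if_pos ⟨hb, hs⟩, if_pos hb, if_pos hs]
      · rw [if_neg (fun h => hs h.2), if_pos hb, if_neg hs]
    · rw [if_neg (fun h => hb h.1), if_neg hb]
  rw [h1, Ew_mem (mem_compl.2 hbA)]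
  unfold gB
  congr 1
  refine Ew_congr _ _ fun T _ => ?_
  rw [insert_compl_eq]

/-- one step of the domination -/
theorem dom_step {q : ℝ} (h0 : 0 ≤ q) (h1 : q ≤ 1 / 2) (G : Finset (Fin n)) {u : Fin n}
    (hu : u ∈ G) (F F' : Finset (Fin n) → ℝ)
    (hF : ∀ T, T ⊆ G.erase u → F' T = F (insert u T))
    (hF2 : ∀ T, T ⊆ G.erase u → F' (insert u T) = F T)
    (hm : ∀ T, T ⊆ G.erase u → F T ≤ F (insert u T)) : Ew G q F ≤ Ew G q F' := by
  rw [Ew_erase hu q F, Ew_erase hu q F', Ew_congr _ _ hF, Ew_congr _ _ hF2]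
  have h2 := Ew_mono h0 (by linarith : q ≤ 1) (G.erase u) hm
  nlinarith [mul_nonneg (by linarith : (0 : ℝ) ≤ 1 - 2 * q) (sub_nonneg.2 h2)]

/-- a part `L` of the ground set is chosen with probability at most `1/2`: the chosen part is
dominated by the complement -/
theorem Ew_dom {q : ℝ} (h0 : 0 ≤ q) (h1 : q ≤ 1 / 2) (G : Finset (Fin n)) (R : Fin n → Prop)
    (ψ : Set (Fin n) → ℝ) (hψ : Monotone ψ) (L : Finset (Fin n)) (hL : L ⊆ G) :
    Ew G q (fun T => ψ {x | R x ∧ ((x ∈ L ∧ x ∈ T) ∨ (x ∉ L ∧ x ∉ T))})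
      ≤ Ew G q (fun T => ψ {x | R x ∧ x ∉ T}) := by
  classical
  induction L using Finset.induction_on with
  | empty =>
    refine le_of_eq (Ew_congr _ _ fun T _ => ?_)
    congr 1
    ext x
    simp only [Set.mem_ofPred_eq, notMem_empty, false_and, not_false_eq_true, true_and, false_or]
  | @insert u L hu ih =>
    refine le_trans ?_ (ih (fun x hx => hL (mem_insert_of_mem hx)))
    refine dom_step h0 h1 G (hL (mem_insert_self u L)) _ _ ?_ ?_ ?_
    · intro T hT
      have huT : u ∉ T := fun h => (mem_erase.1 (hT h)).1 rfl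
      show ψ _ = ψ _
      congr 1
      ext x
      simp only [Set.mem_ofPred_eq, mem_insert]
      by_cases hx : x = u
      · subst hx
        simp [hu, huT]
      · simp [hx]
    · intro T hT
      have huT : u ∉ T := fun h => (mem_erase.1 (hT h)).1 rfl
      show ψ _ = ψ _
      congr 1
      ext x
      simp only [Set.mem_ofPred_eq, mem_insert]
      by_cases hx : x = u
      · subst hx
        simp [hu, huT]
      · simp [hx]
    · intro T hT
      have huT : u ∉ T := fun h => (mem_erase.1 (hT h)).1 rfl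
      refine hψ ?_
      intro x hx
      simp only [Set.mem_ofPred_eq, mem_insert] at hx ⊢
      by_cases hxu : x = u
      · subst hxu
        simp [huT] at hx
      · simp only [hxu, false_or] at hx ⊢
        exact hx

theorem scale_arith {a b t : ℕ} (ha : a / 2 ^ t % 2 = 0) (hb : b / 2 ^ t % 2 = 0)
    (h : a / 2 ^ (t + 1) * 2 ^ (t + 1) = b / 2 ^ (t + 1) * 2 ^ (t + 1)) :
    b / 2 ^ (t + 1) * 2 ^ (t + 1) ≤ a ∧ a < (b / 2 ^ t + 1) * 2 ^ t := by
  have hp : 0 < 2 ^ (t + 1) := by positivity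
  have hp' : 0 < 2 ^ t := by positivity
  have h1 : a / 2 ^ (t + 1) = b / 2 ^ (t + 1) := Nat.eq_of_mul_eq_mul_right hp h
  have h2 : a / 2 ^ t / 2 = b / 2 ^ t / 2 := by
    rw [Nat.div_div_eq_div_mul, Nat.div_div_eq_div_mul, ← pow_succ]
    exact h1
  have h3 : a / 2 ^ t = b / 2 ^ t := by omega
  refine ⟨?_, ?_⟩
  · rw [← h]
    exact Nat.div_mul_le_self _ _
  · rw [← h3]
    exact (Nat.div_lt_iff_lt_mul hp').1 (Nat.lt_succ_self _)

open Classical in
theorem scale_prob (M : Matroid (Fin n)) (_hE : M.E = Set.univ) (κ : Fin n → α)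
    (_hκ : Function.Injective κ) (A : Finset (Fin n))
    (c : Fin n → ℕ) (N : ℕ) (b : Fin n) (hbA : b ∉ A) (hbB : b ∈ optB M κ) {q : ℝ}
    (h0 : 0 ≤ q) (h1 : q ≤ 1 / 2) (t : ℕ) (hact : c b / 2 ^ t % 2 = 0) :
    q * (gB M c N A b q ((c b / 2 ^ (t + 1) + 1) * 2 ^ (t + 1))
        - gB M c N A b q ((c b / 2 ^ t + 1) * 2 ^ t))
      ≤ Ew Aᶜ q (fun T => if ∀ ar : Fin n → ℕ, AccB M κ c N (scaleP t) Tᶜ ar b then 1 else 0) := by
  have h1' : q ≤ 1 := by linarith
  have hR0 : 0 ≤ Ew Aᶜ q (fun T => if ∀ ar : Fin n → ℕ, AccB M κ c N (scaleP t) Tᶜ ar b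
      then (1 : ℝ) else 0) := by
    refine Ew_nonneg h0 h1' _ fun T _ => ?_
    split_ifs
    · exact zero_le_one
    · exact le_refl _
  by_cases hN : N < (c b / 2 ^ t + 1) * 2 ^ t
  · rw [gB_eq_one M c N A b q hN]
    have h2 := gB_le_one M c N A b h0 h1' ((c b / 2 ^ (t + 1) + 1) * 2 ^ (t + 1))
    refine le_trans ?_ hR0
    nlinarith
  -- the set of the possibly spanning elements
  set st : ℕ := c b / 2 ^ (t + 1) * 2 ^ (t + 1) with hst
  set mid : ℕ := (c b / 2 ^ t + 1) * 2 ^ t with hmid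
  set en : ℕ := (c b / 2 ^ (t + 1) + 1) * 2 ^ (t + 1) with hen
  have hstb : st ≤ c b := by
    rw [hst]
    exact Nat.div_mul_le_self _ _
  have hbmid : c b < mid := (scale_arith hact hact rfl).2
  set L : Finset (Fin n) := (Aᶜ.erase b).filter (fun x => st ≤ c x ∧ c x < mid) with hL
  have hdom := Ew_dom h0 h1 (Aᶜ.erase b) (fun x => x ≠ b ∧ c x < mid)
    (fun S => if b ∈ M.closure S then 1 else 0)
    (by
      intro S S' hSS
      by_cases hS : b ∈ M.closure S
      · have hS' : b ∈ M.closure S' := M.closure_subset_closure hSS hS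
        simp only [if_pos hS, if_pos hS', le_refl]
      · simp only [if_neg hS]
        split_ifs
        · exact zero_le_one
        · exact le_refl _) L (filter_subset _ _)
  have hg : Ew (Aᶜ.erase b) q (fun T => if b ∈ M.closure {x | (x ≠ b ∧ c x < mid) ∧ x ∉ T}
      then (1 : ℝ) else 0) = gB M c N A b q mid := by
    unfold gB
    refine Ew_congr _ _ fun T _ => ?_
    have hset : {x | (x ≠ b ∧ c x < mid) ∧ x ∉ T} = {y | y ∈ Tᶜ.erase b ∧ c y < mid} := by
      ext x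
      simp only [Set.mem_ofPred_eq, mem_erase, mem_compl]
      tauto
    rw [hset]
    by_cases hcl : b ∈ M.closure {y | y ∈ Tᶜ.erase b ∧ c y < mid}
    · rw [if_pos hcl, if_pos (show SpN M c N (Tᶜ.erase b) mid b from Or.inr hcl)]
    · rw [if_neg hcl, if_neg]
      rintro (h | h)
      · exact hN h
      · exact hcl h
  have hRHS : q * Ew (Aᶜ.erase b) q (fun T => if ∀ ar : Fin n → ℕ,
      AccB M κ c N (scaleP t) (Tᶜ.erase b) ar b then (1 : ℝ) else 0)
      ≤ Ew Aᶜ q (fun T => if ∀ ar : Fin n → ℕ, AccB M κ c N (scaleP t) Tᶜ ar b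
        then (1 : ℝ) else 0) := by
    have h2 : Ew (Aᶜ.erase b) q (fun T => if ∀ ar : Fin n → ℕ,
        AccB M κ c N (scaleP t) (Tᶜ.erase b) ar b then (1 : ℝ) else 0)
        = Ew (Aᶜ.erase b) q (fun T => (fun T => if ∀ ar : Fin n → ℕ,
        AccB M κ c N (scaleP t) Tᶜ ar b then (1 : ℝ) else 0) (insert b T)) := by
      refine Ew_congr _ _ fun T _ => ?_
      simp only [insert_compl_eq]
    rw [h2, ← Ew_mem (mem_compl.2 hbA) q (fun T => if ∀ ar : Fin n → ℕ,
        AccB M κ c N (scaleP t) Tᶜ ar b then (1 : ℝ) else 0)]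
    refine Ew_mono h0 h1' _ fun T _ => ?_
    by_cases hb : b ∈ T
    · rw [if_pos hb]
    · rw [if_neg hb]
      split_ifs
      · exact zero_le_one
      · exact le_refl _
  refine le_trans ?_ hRHS
  refine mul_le_mul_of_nonneg_left ?_ h0
  rw [← hg]
  refine le_trans (sub_le_sub_left hdom _) ?_
  unfold gB
  rw [← Ew_sub]
  refine Ew_mono h0 h1' _ fun T hT => ?_
  show (if SpN M c N (Tᶜ.erase b) en b then (1 : ℝ) else 0) - (if b ∈ M.closure
    {x | (x ≠ b ∧ c x < mid) ∧ ((x ∈ L ∧ x ∈ T) ∨ (x ∉ L ∧ x ∉ T))} then (1 : ℝ) else 0) ≤ _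
  have hge0 : (0 : ℝ) ≤ (if ∀ ar : Fin n → ℕ, AccB M κ c N (scaleP t) (Tᶜ.erase b) ar b
      then (1 : ℝ) else 0) := by
    split_ifs
    · exact zero_le_one
    · exact le_refl _
  by_cases hcl : b ∈ M.closure {x | (x ≠ b ∧ c x < mid) ∧ ((x ∈ L ∧ x ∈ T) ∨ (x ∉ L ∧ x ∉ T))}
  · rw [if_pos hcl]
    have : (if SpN M c N (Tᶜ.erase b) en b then (1 : ℝ) else 0) ≤ 1 := by
      split_ifs
      · exact le_refl _
      · exact zero_le_one
    linarith
  rw [if_neg hcl, sub_zero]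
  by_cases hsp : SpN M c N (Tᶜ.erase b) en b
  swap
  · rw [if_neg hsp]
    exact hge0
  have hacc : ∀ ar : Fin n → ℕ, AccB M κ c N (scaleP t) (Tᶜ.erase b) ar b := by
    intro ar
    refine ⟨⟨⟨notMem_erase b _, ?_⟩, ?_, ?_⟩, ?_⟩
    · intro h
      unfold optB at hbB
      refine (mem_filter.1 hbB).2 (M.closure_subset_closure ?_ h)
      intro y hy
      exact hy.2
    · simp only [scaleP, hact, decide_true]
    · exact hsp
    · intro h
      refine hcl (M.closure_subset_closure ?_ h)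
      rintro x (⟨hxD, hxc⟩ | ⟨hx, hxst, hxt⟩)
      · have hxc' : c x < st := hxc
        rw [mem_erase, mem_compl] at hxD
        refine ⟨⟨hxD.1, by omega⟩, Or.inr ⟨?_, hxD.2⟩⟩
        intro hxL
        have := (mem_filter.1 hxL).2.1
        omega
      · have hxb : x ≠ b := by
          rintro rfl
          exact lt_irrefl _ hxt
        have hxT : x ∈ T := by
          by_contra hxT
          exact hx.1.1 (mem_erase.2 ⟨hxb, mem_compl.2 hxT⟩)
        have hxa : c x / 2 ^ t % 2 = 0 := of_decide_eq_true hx.2.1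
        have har := scale_arith hxa hact hxst
        refine ⟨⟨hxb, har.2⟩, Or.inl ⟨mem_filter.2 ⟨hT hxT, har.1, har.2⟩, hxT⟩⟩
  rw [if_pos hacc]
  split_ifs
  exact le_refl _

end Pool.Agent.Work.MP_3bf421_lc_FZ
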