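import Mathlib

set_option autoImplicit false

/-!
Dyadic blocks.
-/

namespace Pool.Agent.Work.MP_3bf421_lc_FZ

open Finset

theorem tele (g : ℕ → ℝ) (m j : ℕ) (hj : j < 2 ^ m) :
    ∑ t ∈ range m, (if j / 2 ^ t % 2 = 0 then
      g ((j / 2 ^ (t + 1) + 1) * 2 ^ (t + 1)) - g ((j / 2 ^ t + 1) * 2 ^ t)
      else 0) = g (2 ^ m) - g (j + 1) := by
  induction m with
  | zero =>
    have : j = 0 := by
      rw [pow_zero] at hj
      omega
    subst this
    simp
  | succ m ih =>
    -- telescoping with the partial values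
    clear ih
    have key : ∀ s : ℕ, ∑ t ∈ range s, (if j / 2 ^ t % 2 = 0 then
      g ((j / 2 ^ (t + 1) + 1) * 2 ^ (t + 1)) - g ((j / 2 ^ t + 1) * 2 ^ t)
      else 0) = g ((j / 2 ^ s + 1) * 2 ^ s) - g (j + 1) := by
      intro s
      induction s with
      | zero => simp
      | succ s ih =>
        rw [sum_range_succ, ih]
        by_cases h : j / 2 ^ s % 2 = 0
        · rw [if_pos h]
          ring
        · rw [if_neg h, add_zero]
          congr 2
          have h1 : j / 2 ^ (s + 1) = j / 2 ^ s / 2 := by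
            rw [pow_succ, Nat.div_div_eq_div_mul]
          have h2 : j / 2 ^ s + 1 = (j / 2 ^ s / 2 + 1) * 2 := by omega
          rw [h1, h2, pow_succ]
          ring
    rw [key (m + 1), Nat.div_eq_of_lt hj, zero_add, one_mul]

end Pool.Agent.Work.MP_3bf421_lc_FZ
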