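import Pool.Agent.Work.MP_3bf421_lc_FZ.Det
import Pool.Agent.Work.MP_3bf421_lc_FZ.Scale
import Pool.Agent.Work.MP_3bf421_lc_FZ.Tele

set_option autoImplicit false

/-!
Expected numbers of accepted elements of a class.
-/

namespace Pool.Agent.Work.MP_3bf421_lc_FZ

open Finset
open Pool.Agent.Work.MP_3bf421_lc_LU
open _root_.MP_3bf421_lc.UN (rk fs cont)

variable {n : ℕ} {α : Type*} [LinearOrder α]

/-- the number bounding the blocked elements of class `i` -/
noncomputable def bl (M : Matroid (Fin n)) (κ : Fin n → α) (c : Fin n → ℕ) (N : ℕ)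
    (D : Finset (Fin n)) (i : ℕ) : ℕ :=
  min ((CC M κ c N D i).card - rk M (CC M κ c N D i)) (nb M κ (CC M κ c N D i))

open Classical in
theorem exp_class (M : Matroid (Fin n)) (hE : M.E = Set.univ) (κ : Fin n → α)
    (hκ : Function.Injective κ) (c : Fin n → ℕ) (N m : ℕ) (hNm : N < 2 ^ m)
    (A : Finset (Fin n)) (a : Fin n) {q : ℝ} (h0 : 0 ≤ q) (h1 : q ≤ 1 / 2) (i : ℕ)
    (hi : i + 1 ≤ N) :
    q * (((optB M κ).filter (fun b => κ a ≤ κ b ∧ c b = i ∧ b ∉ A)).card : ℝ)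
      - (rk M (univ.filter (fun y => c y < i - 2)) : ℝ)
      - Ew Aᶜ q (fun T => (bl M κ c N Tᶜ i : ℝ))
    ≤ Ew Aᶜ q (fun T => LBi M κ c N m a Tᶜ i) := by
  have hq1 : q ≤ 1 := by linarith
  set B' := (optB M κ).filter (fun b => κ a ≤ κ b ∧ c b = i) with hB'
  have hcard : ∀ (P : Fin n → Prop) (s : Finset (Fin n)),
      (∀ b, b ∈ s ↔ b ∈ optB M κ ∧ κ a ≤ κ b ∧ c b = i ∧ P b) → s = B'.filter P := by
    intro P s hs
    ext b
    rw [hs, mem_filter, hB', mem_filter]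
    tauto
  have hsplit : Ew Aᶜ q (fun T => LBi M κ c N m a Tᶜ i)
      = (∑ t ∈ range m, ∑ b ∈ B', Ew Aᶜ q (fun T => if ∀ ar' : Fin n → ℕ,
          AccB M κ c N (scaleP t) Tᶜ ar' b then 1 else 0))
        + (∑ b ∈ B', Ew Aᶜ q (fun T => if b ∉ Tᶜ ∧ SpN M c N Tᶜ (i+1) b then 1 else 0))
        - Ew Aᶜ q (fun T => (rk M (Tᶜ.filter (fun y => c y < i - 2)) : ℝ))
        - Ew Aᶜ q (fun T => (bl M κ c N Tᶜ i : ℝ)) := by
    have key : ∀ (P : Finset (Fin n) → Fin n → Prop) (F : Finset (Fin n) → Finset (Fin n))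
        (W : Finset (Fin n) → Fin n → ℝ),
        (∀ T b, b ∈ F T ↔ b ∈ optB M κ ∧ κ a ≤ κ b ∧ c b = i ∧ P T b) →
        (∀ T b, W T b = if P T b then 1 else 0) →
        Ew Aᶜ q (fun T => ((F T).card : ℝ)) = ∑ b ∈ B', Ew Aᶜ q (fun T => W T b) := by
      intro P F W hF hW
      rw [← Ew_sum]
      refine Ew_congr _ _ fun T _ => ?_
      rw [sum_congr rfl (fun b _ => hW T b), ← sum_filter, sum_const, nsmul_eq_mul, mul_one,
        hcard (P T) (F T) (hF T)]
    have e1 : ∀ t, Ew Aᶜ q (fun T => (((optB M κ).filter (fun b => κ a ≤ κ b ∧ c b = i ∧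
      ∀ ar' : Fin n → ℕ, AccB M κ c N (scaleP t) Tᶜ ar' b)).card : ℝ))
        = ∑ b ∈ B', Ew Aᶜ q (fun T => if ∀ ar' : Fin n → ℕ,
          AccB M κ c N (scaleP t) Tᶜ ar' b then 1 else 0) := by
      intro t
      refine key (fun T b => ∀ ar' : Fin n → ℕ, AccB M κ c N (scaleP t) Tᶜ ar' b) _ _ ?_ ?_
      · intro T b
        rw [mem_filter]
      · intro T b
        congr
    have e2 : Ew Aᶜ q (fun T => (((optB M κ).filter (fun b => κ a ≤ κ b ∧ c b = i ∧ b ∉ Tᶜ ∧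
        SpN M c N Tᶜ (i+1) b)).card : ℝ))
        = ∑ b ∈ B', Ew Aᶜ q (fun T => if b ∉ Tᶜ ∧ SpN M c N Tᶜ (i+1) b then 1 else 0) := by
      refine key (fun T b => b ∉ Tᶜ ∧ SpN M c N Tᶜ (i+1) b) _ _ ?_ ?_
      · intro T b
        rw [mem_filter]
      · intro T b
        congr
    rw [← e2, ← sum_congr rfl (fun t _ => e1 t), ← Ew_sum, ← Ew_add, ← Ew_sub, ← Ew_sub]
    rfl
  rw [hsplit]
  have hrk : Ew Aᶜ q (fun T => (rk M (Tᶜ.filter (fun y => c y < i - 2)) : ℝ))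
      ≤ (rk M (univ.filter (fun y => c y < i - 2)) : ℝ) := by
    rw [← Ew_const Aᶜ q (rk M (univ.filter (fun y => c y < i - 2)) : ℝ)]
    refine Ew_mono h0 hq1 _ fun T _ => ?_
    exact_mod_cast _root_.MP_3bf421_lc.UN.rk_mono M (filter_subset_filter _ (subset_univ _))
  have hmain : q * (((optB M κ).filter (fun b => κ a ≤ κ b ∧ c b = i ∧ b ∉ A)).card : ℝ)
      ≤ (∑ t ∈ range m, ∑ b ∈ B', Ew Aᶜ q (fun T => if ∀ ar' : Fin n → ℕ,
          AccB M κ c N (scaleP t) Tᶜ ar' b then 1 else 0))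
        + (∑ b ∈ B', Ew Aᶜ q (fun T => if b ∉ Tᶜ ∧ SpN M c N Tᶜ (i+1) b then 1 else 0)) := by
    have hBA : (optB M κ).filter (fun b => κ a ≤ κ b ∧ c b = i ∧ b ∉ A)
        = B'.filter (fun b => b ∉ A) := by
      ext b
      rw [mem_filter, mem_filter, hB', mem_filter]
      tauto
    rw [sum_comm, ← sum_add_distrib, hBA, mul_comm, ← nsmul_eq_mul, ← sum_const]
    refine (sum_le_sum (fun b hb => ?_)).trans (sum_le_sum_of_subset_of_nonneg
      (filter_subset (fun b => b ∉ A) B') ?_)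
    · rw [mem_filter, hB', mem_filter] at hb
      obtain ⟨⟨hbB, -, hci⟩, hbA⟩ := hb
      have hcm : c b < 2 ^ m := by omega
      have h2 := tele (fun x => q * gB M c N A b q x) m (c b) hcm
      have h3 : ∀ t ∈ range m, (if c b / 2 ^ t % 2 = 0 then
          q * gB M c N A b q ((c b / 2 ^ (t + 1) + 1) * 2 ^ (t + 1))
            - q * gB M c N A b q ((c b / 2 ^ t + 1) * 2 ^ t) else 0)
          ≤ Ew Aᶜ q (fun T => if ∀ ar' : Fin n → ℕ,
            AccB M κ c N (scaleP t) Tᶜ ar' b then 1 else 0) := by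
        intro t _
        by_cases hact : c b / 2 ^ t % 2 = 0
        · rw [if_pos hact, ← mul_sub]
          exact scale_prob M hE κ hκ A c N b hbA hbB h0 h1 t hact
        · rw [if_neg hact]
          refine Ew_nonneg h0 hq1 _ fun T _ => ?_
          split_ifs <;> norm_num
      have h4 := sum_le_sum h3
      rw [h2] at h4
      have h5 := own_prob M A c N b hbA q
      have h6 : Ew Aᶜ q (fun T => if b ∉ Tᶜ ∧ SpN M c N Tᶜ (i+1) b then (1 : ℝ) else 0)
          = Ew Aᶜ q (fun T => if b ∈ T ∧ SpN M c N Tᶜ (c b+1) b then 1 else 0) := by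
        refine Ew_congr _ _ fun T _ => ?_
        have h8 : (b ∉ Tᶜ ∧ SpN M c N Tᶜ (i+1) b) ↔ (b ∈ T ∧ SpN M c N Tᶜ (c b+1) b) := by
          rw [mem_compl, not_not, hci]
        by_cases h9 : b ∈ T ∧ SpN M c N Tᶜ (c b+1) b
        · rw [if_pos h9, if_pos (h8.2 h9)]
        · rw [if_neg h9, if_neg (fun h => h9 (h8.1 h))]
      rw [h6, h5]
      have h7 := gB_eq_one M c N A b q hNm
      simp only [h7] at h4
      linarith
    · intro b _ _
      refine add_nonneg (sum_nonneg fun t _ => Ew_nonneg h0 hq1 _ fun T _ => ?_)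
        (Ew_nonneg h0 hq1 _ fun T _ => ?_)
      · split_ifs <;> norm_num
      · split_ifs <;> norm_num
  linarith

end Pool.Agent.Work.MP_3bf421_lc_FZ
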