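import Pool.Agent.Work.MP_3bf421_lc_FZ.Ew

set_option autoImplicit false

/-!
The classes of elements.
-/

namespace Pool.Agent.Work.MP_3bf421_lc_FZ

open Finset
open Pool.Agent.Work.MP_3bf421_lc_LU
open _root_.MP_3bf421_lc.UN (rk fs cont)

variable {n : ℕ} {α : Type*} [LinearOrder α]

/-- the growth of the ranks from class to class -/
noncomputable def KK (J y : ℕ) : ℝ := max (2 ^ 18) ((y : ℝ) ^ ((1 : ℝ) / J))

theorem KK_ge (J y : ℕ) : (2 : ℝ) ^ 18 ≤ KK J y := le_max_left _ _

theorem KK_one_le (J y : ℕ) : (1 : ℝ) ≤ KK J y := le_trans (by norm_num) (KK_ge J y)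

theorem KK_pos (J y : ℕ) : (0 : ℝ) < KK J y := lt_of_lt_of_le one_pos (KK_one_le J y)

theorem le_KK_pow (J y : ℕ) (hJ : 1 ≤ J) : (y : ℝ) ≤ KK J y ^ J := by
  have hJ' : (J : ℝ) ≠ 0 := by
    have : 0 < J := hJ
    exact_mod_cast this.ne'
  have h1 : ((y : ℝ) ^ ((1 : ℝ) / J)) ^ J = y := by
    rw [← Real.rpow_natCast, ← Real.rpow_mul (Nat.cast_nonneg y), one_div,
      inv_mul_cancel₀ hJ', Real.rpow_one]
  calc (y : ℝ) = ((y : ℝ) ^ ((1 : ℝ) / J)) ^ J := h1.symm
    _ ≤ KK J y ^ J := pow_le_pow_left₀ (Real.rpow_nonneg (Nat.cast_nonneg y) _)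
        (le_max_right _ _) J

open Classical in
/-- the class of an element with `x` heavier ranks -/
noncomputable def lev (J y x : ℕ) : ℕ := ((Icc 1 J).filter (fun i => KK J y ^ i ≤ (x : ℝ))).card

theorem lev_le (J y x : ℕ) : lev J y x ≤ J := by
  classical
  unfold lev
  refine (card_filter_le _ _).trans ?_
  rw [Nat.card_Icc]
  omega

theorem lev_mono (J y : ℕ) {x x' : ℕ} (h : x ≤ x') : lev J y x ≤ lev J y x' := by
  classical
  unfold lev
  refine card_le_card fun i hi => ?_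
  rw [mem_filter] at hi ⊢
  exact ⟨hi.1, hi.2.trans (by exact_mod_cast h)⟩

theorem lt_of_lev_lt {J y x i : ℕ} (hJ : 1 ≤ J) (hxy : x ≤ y) (hi : 1 ≤ i)
    (h : lev J y x < i) : (x : ℝ) < KK J y ^ i := by
  classical
  by_contra hcon
  push Not at hcon
  by_cases hiJ : i ≤ J
  · have h1 : Icc 1 i ⊆ (Icc 1 J).filter (fun i => KK J y ^ i ≤ (x : ℝ)) := by
      intro i' hi'
      rw [mem_Icc] at hi'
      rw [mem_filter, mem_Icc]
      exact ⟨⟨hi'.1, hi'.2.trans hiJ⟩,
        (pow_le_pow_right₀ (KK_one_le J y) hi'.2).trans hcon⟩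
    have h2 := card_le_card h1
    rw [Nat.card_Icc] at h2
    unfold lev at h
    omega
  · push Not at hiJ
    have h1 : (x : ℝ) ≤ y := by exact_mod_cast hxy
    have h2 := le_KK_pow J y hJ
    have h3 : KK J y ^ J < KK J y ^ i :=
      pow_lt_pow_right₀ (lt_of_lt_of_le (by norm_num) (KK_ge J y)) hiJ
    linarith

theorem le_of_le_lev {J y x i : ℕ} (hi : 1 ≤ i) (h : i ≤ lev J y x) :
    KK J y ^ i ≤ (x : ℝ) := by
  classical
  by_contra hcon
  push Not at hcon
  have h1 : (Icc 1 J).filter (fun i => KK J y ^ i ≤ (x : ℝ)) ⊆ Icc 1 (i - 1) := by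
    intro i' hi'
    rw [mem_filter, mem_Icc] at hi'
    rw [mem_Icc]
    refine ⟨hi'.1.1, ?_⟩
    by_contra h2
    have h3 : i ≤ i' := by omega
    have h4 := pow_le_pow_right₀ (KK_one_le J y) h3
    linarith [hi'.2]
  have h2 := card_le_card h1
  rw [Nat.card_Icc] at h2
  unfold lev at h
  omega

theorem xr_le (M : Matroid (Fin n)) (κ : Fin n → α) (A : Finset (Fin n)) (e : Fin n) :
    xr M κ A e ≤ rk M A := by
  classical
  unfold xr
  exact _root_.MP_3bf421_lc.UN.rk_mono M (filter_subset _ _)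

theorem xr_anti (M : Matroid (Fin n)) (κ : Fin n → α) (A : Finset (Fin n)) {x y : Fin n}
    (h : κ x ≤ κ y) : xr M κ A y ≤ xr M κ A x := by
  unfold xr
  refine _root_.MP_3bf421_lc.UN.rk_mono M fun z hz => ?_
  rw [mem_filter] at hz ⊢
  exact ⟨hz.1, lt_of_le_of_lt h hz.2⟩

/-- the class of `e` -/
noncomputable def cls (M : Matroid (Fin n)) (κ : Fin n → α) (J : ℕ) (A : Finset (Fin n))
    (e : Fin n) : ℕ := lev J (rk M A) (xr M κ A e)

theorem cls_anti (M : Matroid (Fin n)) (κ : Fin n → α) (J : ℕ) (A : Finset (Fin n))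
    {x y : Fin n} (h : κ x ≤ κ y) : cls M κ J A y ≤ cls M κ J A x :=
  lev_mono _ _ (xr_anti M κ A h)

theorem cls_le (M : Matroid (Fin n)) (κ : Fin n → α) (J : ℕ) (A : Finset (Fin n))
    (x : Fin n) : cls M κ J A x ≤ J := lev_le _ _ _

theorem mem_closure_mono_rk (M : Matroid (Fin n)) (hE : M.E = Set.univ)
    {X Y : Finset (Fin n)} (h : ∀ x ∈ X, x ∈ M.closure (Y : Set (Fin n))) :
    rk M X ≤ rk M Y := by
  have h1 : M.eRk (X : Set (Fin n)) ≤ M.eRk (Y : Set (Fin n)) := by
    rw [← M.eRk_closure_eq (Y : Set (Fin n))]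
    exact M.eRk_mono h
  rw [← _root_.MP_3bf421_lc.UN.coe_rk, ← _root_.MP_3bf421_lc.UN.coe_rk] at h1
  exact_mod_cast h1

open Classical in
/-- the rank of an upper set is the number of elements of the optimum in it -/
theorem rk_upperset (M : Matroid (Fin n)) (hE : M.E = Set.univ) (κ : Fin n → α)
    (hκ : Function.Injective κ) (H : Finset (Fin n)) (hH : ∀ x y, x ∈ H → κ x ≤ κ y → y ∈ H) :
    rk M H = ((optB M κ).filter (fun b => b ∈ H)).card := by
  apply le_antisymm
  · refine le_trans (mem_closure_mono_rk M hE (Y := (optB M κ).filter (fun b => b ∈ H)) ?_)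
      (_root_.MP_3bf421_lc.UN.rk_le_card M _)
    intro x hx
    have h1 := optB_span M hE κ (κ x) x le_rfl
    refine M.closure_subset_closure ?_ h1
    rintro y ⟨h2, h3⟩
    rw [mem_coe, mem_filter]
    exact ⟨h2, hH x y hx h3⟩
  · have h1 : M.Indep (((optB M κ).filter (fun b => b ∈ H) : Finset (Fin n)) : Set (Fin n)) :=
      (optB_indep M hE κ hκ).subset (by intro x hx; exact (mem_filter.1 hx).1)
    rw [_root_.MP_3bf421_lc.UN.indep_iff_rk] at h1
    refine h1.trans (_root_.MP_3bf421_lc.UN.rk_mono M ?_)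
    intro x hx
    exact (mem_filter.1 hx).2

open Classical in
/-- a good first block sees a fixed part of every long prefix of the optimum -/
def GoodA (M : Matroid (Fin n)) (κ : Fin n → α) (A : Finset (Fin n)) : Prop :=
  ∀ a ∈ optB M κ, 64 ≤ ((optB M κ).filter (fun b => κ a ≤ κ b)).card →
    ((optB M κ).filter (fun b => κ a ≤ κ b)).card
      ≤ 8 * (((optB M κ).filter (fun b => κ a ≤ κ b)) ∩ A).card

open Classical in
theorem xr_ge (M : Matroid (Fin n)) (hE : M.E = Set.univ) (κ : Fin n → α)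
    (hκ : Function.Injective κ) (A : Finset (Fin n)) (b : Fin n) :
    (((optB M κ).filter (fun y => κ b < κ y)) ∩ A).card ≤ xr M κ A b := by
  have h1 : M.Indep ((((optB M κ).filter (fun y => κ b < κ y)) ∩ A : Finset (Fin n)) :
      Set (Fin n)) :=
    (optB_indep M hE κ hκ).subset (by
      intro x hx
      exact (mem_filter.1 (mem_inter.1 (mem_coe.1 hx)).1).1)
  rw [_root_.MP_3bf421_lc.UN.indep_iff_rk] at h1
  unfold xr
  refine h1.trans (_root_.MP_3bf421_lc.UN.rk_mono M ?_)
  intro x hx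
  rw [mem_inter, mem_filter] at hx
  rw [mem_filter]
  exact ⟨hx.2, hx.1.2⟩

open Classical in
/-- few elements of the optimum have a small class -/
theorem upper_card (M : Matroid (Fin n)) (hE : M.E = Set.univ) (κ : Fin n → α)
    (hκ : Function.Injective κ) (J : ℕ) (hJ : 1 ≤ J) (A : Finset (Fin n)) (hA : GoodA M κ A)
    (i : ℕ) (hi : 1 ≤ i) :
    (((optB M κ).filter (fun b => cls M κ J A b < i)).card : ℝ) ≤ 9 * KK J (rk M A) ^ i := by
  have hK1 : (1 : ℝ) ≤ KK J (rk M A) ^ i := one_le_pow₀ (KK_one_le _ _)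
  have hK : (2 : ℝ) ^ 18 ≤ KK J (rk M A) ^ i :=
    (KK_ge J (rk M A)).trans (le_self_pow₀ (KK_one_le _ _) (by omega))
  rcases ((optB M κ).filter (fun b => cls M κ J A b < i)).eq_empty_or_nonempty with h0 | h0
  · rw [h0, card_empty, Nat.cast_zero]
    positivity
  obtain ⟨b0, hb0, hmin⟩ := exists_min_image _ κ h0
  rw [mem_filter] at hb0
  set P := (optB M κ).filter (fun y => κ b0 < κ y) with hP
  have hcard : ((optB M κ).filter (fun b => cls M κ J A b < i)).card ≤ P.card + 1 := by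
    have h1 : (optB M κ).filter (fun b => cls M κ J A b < i) ⊆ insert b0 P := by
      intro b hb
      have h2 := hmin b hb
      rw [mem_filter] at hb
      rw [mem_insert, hP, mem_filter]
      rcases eq_or_lt_of_le h2 with h3 | h3
      · exact Or.inl (hκ h3).symm
      · exact Or.inr ⟨hb.1, h3⟩
    exact (card_le_card h1).trans (card_insert_le _ _)
  have hPc : (P.card : ℝ) ≤ 64 + 8 * KK J (rk M A) ^ i := by
    by_cases h64 : P.card < 64
    · have : (P.card : ℝ) < 64 := by exact_mod_cast h64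
      linarith
    · push Not at h64
      have hne : P.Nonempty := by
        rw [← card_pos]; omega
      obtain ⟨a, ha, hamin⟩ := exists_min_image P κ hne
      have ha' := ha
      rw [hP, mem_filter] at ha'
      have hPa : (optB M κ).filter (fun b => κ a ≤ κ b) = P := by
        ext b
        rw [mem_filter, hP, mem_filter]
        constructor
        · rintro ⟨h1, h2⟩
          exact ⟨h1, lt_of_lt_of_le ha'.2 h2⟩
        · rintro ⟨h1, h2⟩
          exact ⟨h1, hamin b (by rw [hP, mem_filter]; exact ⟨h1, h2⟩)⟩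
      have h1 := hA a ha'.1
      rw [hPa] at h1
      have h2 := h1 h64
      have h3 := xr_ge M hE κ hκ A b0
      have h4 := lt_of_lev_lt hJ (xr_le M κ A b0) hi hb0.2
      have h5 : (P.card : ℝ) ≤ 8 * ((P ∩ A).card : ℝ) := by exact_mod_cast h2
      have h6 : ((P ∩ A).card : ℝ) ≤ (xr M κ A b0 : ℝ) := by exact_mod_cast h3
      linarith
  have h7 : (((optB M κ).filter (fun b => cls M κ J A b < i)).card : ℝ) ≤ P.card + 1 := by
    exact_mod_cast hcard
  have h8 : (65 : ℝ) ≤ 2 ^ 18 := by norm_num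
  linarith

end Pool.Agent.Work.MP_3bf421_lc_FZ
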