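import Pool.Agent.Work.MP_3bf421_lc_FZ.Chain
import Pool.Agent.Work.MP_3bf421_lc_LU.RuleV

set_option autoImplicit false

/-!
The decision about an element depends only on the elements which have arrived.
-/

namespace Pool.Agent.Work.MP_3bf421_lc_FZ

open Finset
open Pool.Agent.Work.MP_3bf421_lc_LU
open _root_.MP_3bf421_lc.UN (rk fs cont)

variable {n : ℕ}

/-- the first `s` positions -/
def preP (n s : ℕ) : Finset (Fin n) := univ.filter (fun j => j.val < s)

theorem mem_preP {s : ℕ} {j : Fin n} : j ∈ preP n s ↔ j.val < s := by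
  simp [preP]

/-- closures -/
theorem cl_loc (M M' : Matroid (Fin n)) (hE : M.E = Set.univ) (hE' : M'.E = Set.univ)
    (σ : Equiv.Perm (Fin n)) (i : Fin n)
    (hP : ∀ S : Set (Fin n), S ⊆ Set.Iic i → (M'.Indep S ↔ M.Indep (σ '' S)))
    {X : Set (Fin n)} (hX : X ⊆ Set.Iic i) {x : Fin n} (hx : x ≤ i) :
    x ∈ M'.closure X ↔ σ x ∈ M.closure (σ '' X) := by
  by_cases hxX : x ∈ X
  · constructor
    · intro _
      exact M.subset_closure _ (by rw [hE]; exact Set.subset_univ _) ⟨x, hxX, rfl⟩
    · intro _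
      exact M'.subset_closure _ (by rw [hE']; exact Set.subset_univ _) hxX
  · have h1 := out_iff M hE σ i hX hx hxX
    have h2 := out_iff M' hE' 1 i hX hx hxX
    have h3 : seenP M' 1 i = seenP M σ i := by
      funext S
      unfold seenP
      rw [Equiv.Perm.coe_one, Set.image_id]
      exact propext (hP _ Set.inter_subset_right)
    rw [h3, Equiv.Perm.coe_one, Set.image_id] at h2
    have h4 := h1.symm.trans h2
    simp only [id_eq] at h4
    exact (not_iff_not.1 h4).symm

theorem exists_indep_card (M : Matroid (Fin n)) (hE : M.E = Set.univ) (X : Finset (Fin n)) :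
    ∃ I : Finset (Fin n), I ⊆ X ∧ M.Indep (I : Set (Fin n)) ∧ I.card = rk M X := by
  obtain ⟨I, hI⟩ := M.exists_isBasis (X : Set (Fin n)) (by rw [hE]; exact Set.subset_univ _)
  have hfin : I.Finite := Set.toFinite I
  refine ⟨hfin.toFinset, ?_, ?_, ?_⟩
  · intro x hx
    exact mem_coe.1 (hI.subset ((Set.Finite.mem_toFinset hfin).1 hx))
  · rw [Set.Finite.coe_toFinset]
    exact hI.indep
  · have h1 := hI.encard_eq_eRk
    rw [← _root_.MP_3bf421_lc.UN.coe_rk, ← Set.Finite.coe_toFinset hfin,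
      Set.encard_coe_eq_coe_finsetCard] at h1
    exact_mod_cast h1

/-- ranks -/
theorem rk_loc (M M' : Matroid (Fin n)) (hE : M.E = Set.univ) (hE' : M'.E = Set.univ)
    (σ : Equiv.Perm (Fin n)) (i : Fin n)
    (hP : ∀ S : Set (Fin n), S ⊆ Set.Iic i → (M'.Indep S ↔ M.Indep (σ '' S)))
    (X : Finset (Fin n)) (hX : ∀ x ∈ X, x ≤ i) :
    rk M' X = rk M (X.map σ.toEmbedding) := by
  have hmapcoe : ∀ I : Finset (Fin n), ((I.map σ.toEmbedding : Finset (Fin n)) :
      Set (Fin n)) = σ '' (I : Set (Fin n)) := by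
    intro I
    rw [coe_map]
    rfl
  apply le_antisymm
  · obtain ⟨I, hIX, hI, hIc⟩ := exists_indep_card M' hE' X
    have h1 : M.Indep ((I.map σ.toEmbedding : Finset (Fin n)) : Set (Fin n)) := by
      rw [hmapcoe]
      exact (hP _ (fun x hx => hX x (hIX (mem_coe.1 hx)))).1 hI
    rw [_root_.MP_3bf421_lc.UN.indep_iff_rk, card_map] at h1
    rw [← hIc]
    exact h1.trans (_root_.MP_3bf421_lc.UN.rk_mono M (map_subset_map.2 hIX))
  · obtain ⟨I, hIX, hI, hIc⟩ := exists_indep_card M hE (X.map σ.toEmbedding)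
    set I' := I.map σ.symm.toEmbedding with hI'
    have hII : I'.map σ.toEmbedding = I := by
      rw [hI', map_map]
      ext x
      rw [mem_map]
      simp
    have hI'X : I' ⊆ X := by
      intro x hx
      rw [hI', mem_map] at hx
      obtain ⟨y, hy, rfl⟩ := hx
      have h1 := hIX hy
      rw [mem_map] at h1
      obtain ⟨z, hz, rfl⟩ := h1
      simpa using hz
    have h1 : M'.Indep ((I' : Finset (Fin n)) : Set (Fin n)) := by
      rw [hP _ (fun x hx => hX x (hI'X (mem_coe.1 hx))), ← hmapcoe, hII]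
      exact hI
    rw [_root_.MP_3bf421_lc.UN.indep_iff_rk] at h1
    have h2 : I'.card = I.card := by rw [hI', card_map]
    rw [← hIc, ← h2]
    exact h1.trans (_root_.MP_3bf421_lc.UN.rk_mono M' hI'X)

theorem map_preP (σ : Equiv.Perm (Fin n)) (s : ℕ) :
    (preP n s).map σ.toEmbedding = pre σ s := by
  ext x
  rw [mem_map, mem_pre]
  constructor
  · rintro ⟨y, hy, rfl⟩
    rw [mem_preP] at hy
    simpa using hy
  · intro h
    exact ⟨σ.symm x, mem_preP.2 h, by simp⟩

section

variable {α β : Type*} [LinearOrder α] [LinearOrder β]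
variable (M M' : Matroid (Fin n)) (hE : M.E = Set.univ) (hE' : M'.E = Set.univ)
    (σ : Equiv.Perm (Fin n)) (i : Fin n)
    (hP : ∀ S : Set (Fin n), S ⊆ Set.Iic i → (M'.Indep S ↔ M.Indep (σ '' S)))
    (κ : Fin n → α) (κp : Fin n → β)
    (hκ : ∀ j l : Fin n, j ≤ i → l ≤ i → (κp j < κp l ↔ κ (σ j) < κ (σ l)))

include hE hE' hP hκ

theorem xr_loc (s : ℕ) (hs : s ≤ i.val) (x : Fin n) (hx : x ≤ i) :
    xr M' κp (preP n s) x = xr M κ (pre σ s) (σ x) := by
  unfold xr
  rw [rk_loc M M' hE hE' σ i hP _ (fun y hy => by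
    rw [mem_filter, mem_preP] at hy
    have : y.val ≤ i.val := by omega
    exact this)]
  congr 1
  ext y
  rw [mem_map, mem_filter, mem_pre]
  constructor
  · rintro ⟨z, hz, rfl⟩
    rw [mem_filter, mem_preP] at hz
    have hzi : z ≤ i := by
      have : z.val ≤ i.val := by omega
      exact this
    refine ⟨by simpa using hz.1, ?_⟩
    exact (hκ x z hx hzi).1 hz.2
  · rintro ⟨h1, h2⟩
    refine ⟨σ.symm y, ?_, by simp⟩
    rw [mem_filter, mem_preP]
    have hzi : σ.symm y ≤ i := by
      have : (σ.symm y).val ≤ i.val := by omega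
      exact this
    refine ⟨h1, (hκ x (σ.symm y) hx hzi).2 ?_⟩
    simpa using h2

theorem Cd_loc (c c' : Fin n → ℕ) (hc : ∀ x, x ≤ i → c' x = c (σ x)) (N : ℕ) (r : Par)
    (s : ℕ) (hs : s ≤ i.val) (x : Fin n) (hx : x ≤ i) :
    Cd M' κp c' N r (preP n s) x ↔ Cd M κ c N r (pre σ s) (σ x) := by
  have hle : ∀ y : Fin n, y ∈ preP n s → y ≤ i := by
    intro y hy
    rw [mem_preP] at hy
    have : y.val ≤ i.val := by omega
    exact this
  have hmem : ∀ y : Fin n, σ y ∈ pre σ s ↔ y ∈ preP n s := by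
    intro y
    rw [mem_pre, mem_preP, Equiv.symm_apply_apply]
  have himg : ∀ (Q : Fin n → Prop) (Q' : Fin n → Prop), (∀ y, y ∈ preP n s → (Q' y ↔ Q (σ y))) →
      σ '' {y | y ∈ preP n s ∧ Q' y} = {y | y ∈ pre σ s ∧ Q y} := by
    intro Q Q' hQ
    ext y
    constructor
    · rintro ⟨z, ⟨h1, h2⟩, rfl⟩
      exact ⟨(hmem z).2 h1, (hQ z h1).1 h2⟩
    · rintro ⟨h1, h2⟩
      have h3 : σ.symm y ∈ preP n s := by
        rw [← hmem]
        simpa using h1
      refine ⟨σ.symm y, ⟨h3, ?_⟩, by simp⟩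
      rw [hQ _ h3]
      simpa using h2
  have hRel : Rel M' κp (preP n s) x ↔ Rel M κ (pre σ s) (σ x) := by
    unfold Rel
    rw [hmem, cl_loc M M' hE hE' σ i hP (fun y hy => hle y hy.1) hx,
      himg (fun y => κ (σ x) < κ y) (fun y => κp x < κp y) (fun y hy => hκ x y hx (hle y hy))]
  have hSp : ∀ k, SpN M' c' N (preP n s) k x ↔ SpN M c N (pre σ s) k (σ x) := by
    intro k
    unfold SpN
    rw [cl_loc M M' hE hE' σ i hP (fun y hy => hle y hy.1) hx,
      himg (fun y => c y < k) (fun y => c' y < k) (fun y hy => by rw [hc y (hle y hy)])]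
  unfold Cd
  rw [hRel, hc x hx, hSp]

theorem AccB_loc (c c' : Fin n → ℕ) (hc : ∀ x, x ≤ i → c' x = c (σ x)) (N : ℕ) (r : Par)
    (s : ℕ) (hs : s ≤ i.val) :
    AccB M' κp c' N r (preP n s) (fun x => x.val) i ↔
      AccB M κ c N r (pre σ s) (fun x => (σ.symm x).val) (σ i) := by
  unfold AccB
  rw [Cd_loc M M' hE hE' σ i hP κ κp hκ c c' hc N r s hs i le_rfl,
    cl_loc M M' hE hE' σ i hP ?_ le_rfl]
  · have himg : σ '' {x | (x ∈ preP n s ∧ c' x < r.st (c' i)) ∨
        (Cd M' κp c' N r (preP n s) x ∧ r.st (c' x) = r.st (c' i) ∧ x.val < i.val)}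
        = {x | (x ∈ pre σ s ∧ c x < r.st (c (σ i))) ∨
          (Cd M κ c N r (pre σ s) x ∧ r.st (c x) = r.st (c (σ i)) ∧
            (σ.symm x).val < (σ.symm (σ i)).val)} := by
      ext y
      constructor
      · rintro ⟨z, hz, rfl⟩
        rcases hz with ⟨h1, h2⟩ | ⟨h1, h2, h3⟩
        · left
          rw [mem_preP] at h1
          have hzi : z ≤ i := by
            have : z.val ≤ i.val := by omega
            exact this
          rw [hc z hzi, hc i le_rfl] at h2
          refine ⟨?_, h2⟩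
          rw [mem_pre, Equiv.symm_apply_apply]
          exact h1
        · right
          have hzi : z ≤ i := by
            have : z.val ≤ i.val := by omega
            exact this
          rw [Cd_loc M M' hE hE' σ i hP κ κp hκ c c' hc N r s hs z hzi] at h1
          rw [hc z hzi, hc i le_rfl] at h2
          refine ⟨h1, h2, ?_⟩
          rw [Equiv.symm_apply_apply, Equiv.symm_apply_apply]
          exact h3
      · rintro hy
        refine ⟨σ.symm y, ?_, by simp⟩
        rcases hy with ⟨h1, h2⟩ | ⟨h1, h2, h3⟩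
        · left
          rw [mem_pre] at h1
          have hzi : σ.symm y ≤ i := by
            have : (σ.symm y).val ≤ i.val := by omega
            exact this
          refine ⟨mem_preP.2 h1, ?_⟩
          rw [hc _ hzi, hc i le_rfl, Equiv.apply_symm_apply]
          exact h2
        · right
          rw [Equiv.symm_apply_apply] at h3
          have hzi : σ.symm y ≤ i := by
            have : (σ.symm y).val ≤ i.val := by omega
            exact this
          rw [Cd_loc M M' hE hE' σ i hP κ κp hκ c c' hc N r s hs _ hzi,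
            Equiv.apply_symm_apply, hc _ hzi, hc i le_rfl, Equiv.apply_symm_apply]
          exact ⟨h1, h2, h3⟩
    rw [himg]
  · rintro x (⟨h1, _⟩ | ⟨_, _, h3⟩)
    · rw [mem_preP] at h1
      have : x.val ≤ i.val := by omega
      exact this
    · have h4 : x.val < i.val := h3
      have : x.val ≤ i.val := by omega
      exact this

end

end Pool.Agent.Work.MP_3bf421_lc_FZ
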