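import Pool.Agent.Work.MP_3bf421_lc_FZ.Ew
import Pool.Agent.Work.MP_3bf421_lc.UN.Greedy

set_option autoImplicit false

/-!
The exponential moment of the number of candidates in a set of small rank.
-/

namespace Pool.Agent.Work.MP_3bf421_lc_FZ

open Finset
open Pool.Agent.Work.MP_3bf421_lc_LU
open _root_.MP_3bf421_lc.UN (rk fs cont)

variable {n : ℕ} {α : Type*} [LinearOrder α]

open Classical in
/-- the chosen elements -/
noncomputable def P1 (M : Matroid (Fin n)) (κ : Fin n → α) (A F G T : Finset (Fin n)) :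
    Finset (Fin n) :=
  T.filter (fun e => e ∈ F ∧ e ∉ M.closure {y | y ∈ A ∪ (G \ T) ∧ κ e < κ y})

open Classical in
/-- the other elements -/
noncomputable def P2 (M : Matroid (Fin n)) (κ : Fin n → α) (A F G T : Finset (Fin n)) :
    Finset (Fin n) :=
  (G \ T).filter (fun e => e ∈ F ∧ e ∉ M.closure {y | y ∈ A ∪ (G \ T) ∧ κ e < κ y})

theorem set_ins (κ : Fin n → α) (A G T : Finset (Fin n)) (a e : Fin n) (hae : κ a ≤ κ e) :
    {y | y ∈ A ∪ (insert a G \ T) ∧ κ e < κ y} = {y | y ∈ A ∪ (G \ T) ∧ κ e < κ y} := by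
  ext y
  simp only [Set.mem_setOf_eq, mem_union, mem_sdiff, mem_insert]
  constructor
  · rintro ⟨h1 | ⟨h1 | h1, h2⟩, h3⟩
    · exact ⟨Or.inl h1, h3⟩
    · rw [h1] at h3
      exact absurd (lt_of_lt_of_le h3 hae) (lt_irrefl _)
    · exact ⟨Or.inr ⟨h1, h2⟩, h3⟩
  · rintro ⟨h1 | ⟨h1, h2⟩, h3⟩
    · exact ⟨Or.inl h1, h3⟩
    · exact ⟨Or.inr ⟨Or.inr h1, h2⟩, h3⟩

theorem set_ins2 (κ : Fin n → α) (A G T : Finset (Fin n)) (a e : Fin n) (ha : a ∉ G) :
    {y | y ∈ A ∪ (insert a G \ insert a T) ∧ κ e < κ y}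
      = {y | y ∈ A ∪ (G \ T) ∧ κ e < κ y} := by
  have h1 : insert a G \ insert a T = G \ T := by
    ext x
    rw [mem_sdiff, mem_sdiff, mem_insert, mem_insert, not_or]
    constructor
    · rintro ⟨h | h, h2, h3⟩
      · exact absurd h h2
      · exact ⟨h, h3⟩
    · rintro ⟨h2, h3⟩
      exact ⟨Or.inr h2, fun h => ha (h ▸ h2), h3⟩
  rw [h1]

open Classical in
theorem pot_le (M : Matroid (Fin n)) (κ : Fin n → α)
    (hκ : Function.Injective κ) (A F : Finset (Fin n)) {q lam mu : ℝ} (h0 : 0 ≤ q)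
    (h1 : q ≤ 1) (hl : 0 ≤ lam) (hm : 0 ≤ mu) (hlm : (1 - q) * mu + q * lam ≤ 1)
    (G : Finset (Fin n)) :
    Ew G q (fun T => lam ^ (P1 M κ A F G T).card * mu ^ (P2 M κ A F G T).card) ≤ 1 := by
  refine _root_.MP_3bf421_lc.UN.min_induction (κ := κ) hκ (p := fun G =>
    Ew G q (fun T => lam ^ (P1 M κ A F G T).card * mu ^ (P2 M κ A F G T).card) ≤ 1) ?_ ?_ G
  · beta_reduce
    rw [Ew_empty]
    have e1 : P1 M κ A F ∅ ∅ = ∅ := by
      unfold P1
      rw [filter_empty]
    have e2 : P2 M κ A F ∅ ∅ = ∅ := by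
      unfold P2
      rw [sdiff_empty, filter_empty]
    rw [e1, e2, card_empty, pow_zero, pow_zero, one_mul]
  · intro a G' ha hmin ih
    beta_reduce at ih ⊢
    rw [Ew_insert ha, ← Ew_mul, ← Ew_mul, ← Ew_add]
    refine le_trans (Ew_mono h0 h1 G' fun T hT => ?_) ih
    have haT : a ∉ T := fun h => ha (hT h)
    set s : Prop := a ∈ F ∧ a ∉ M.closure {y | y ∈ A ∪ (G' \ T) ∧ κ a < κ y} with hs
    have e1 : P1 M κ A F (insert a G') T = P1 M κ A F G' T := by
      unfold P1
      refine filter_congr fun e he => ?_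
      rw [set_ins κ A G' T a e (hmin e (hT he)).le]
    have e2 : P2 M κ A F (insert a G') (insert a T) = P2 M κ A F G' T := by
      unfold P2
      have h2 : insert a G' \ insert a T = G' \ T := by
        ext x
        rw [mem_sdiff, mem_sdiff, mem_insert, mem_insert, not_or]
        constructor
        · rintro ⟨h | h, h2, h3⟩
          · exact absurd h h2
          · exact ⟨h, h3⟩
        · rintro ⟨h2, h3⟩
          exact ⟨Or.inr h2, fun h => ha (h ▸ h2), h3⟩
      rw [h2]
    have e3 : (P2 M κ A F (insert a G') T).card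
        = (P2 M κ A F G' T).card + (if s then 1 else 0) := by
      have h2 : P2 M κ A F (insert a G') T = if s then insert a (P2 M κ A F G' T)
          else P2 M κ A F G' T := by
        ext x
        have hx : x ∈ P2 M κ A F (insert a G') T ↔ (x = a ∧ s) ∨ x ∈ P2 M κ A F G' T := by
          unfold P2
          rw [mem_filter, mem_filter, mem_sdiff, mem_sdiff, mem_insert]
          constructor
          · rintro ⟨⟨h2 | h2, h3⟩, h4, h5⟩
            · left
              refine ⟨h2, ?_⟩
              rw [h2] at h4 h5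
              rw [set_ins κ A G' T a a le_rfl] at h5
              exact ⟨h4, h5⟩
            · right
              rw [set_ins κ A G' T a x (hmin x h2).le] at h5
              exact ⟨⟨h2, h3⟩, h4, h5⟩
          · rintro (⟨h2, h3⟩ | ⟨⟨h2, h3⟩, h4, h5⟩)
            · rw [h2]
              refine ⟨⟨Or.inl rfl, haT⟩, h3.1, ?_⟩
              rw [set_ins κ A G' T a a le_rfl]
              exact h3.2
            · refine ⟨⟨Or.inr h2, h3⟩, h4, ?_⟩
              rw [set_ins κ A G' T a x (hmin x h2).le]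
              exact h5
        rw [hx]
        split_ifs with h2
        · rw [mem_insert]
          tauto
        · tauto
      rw [h2]
      split_ifs with h3
      · rw [card_insert_of_notMem]
        intro h4
        unfold P2 at h4
        rw [mem_filter, mem_sdiff] at h4
        exact ha h4.1.1
      · rw [add_zero]
    have e4 : (P1 M κ A F (insert a G') (insert a T)).card
        = (P1 M κ A F G' T).card + (if s then 1 else 0) := by
      have h2 : P1 M κ A F (insert a G') (insert a T) = if s then insert a (P1 M κ A F G' T)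
          else P1 M κ A F G' T := by
        ext x
        have hx : x ∈ P1 M κ A F (insert a G') (insert a T) ↔
            (x = a ∧ s) ∨ x ∈ P1 M κ A F G' T := by
          unfold P1
          rw [mem_filter, mem_filter, mem_insert, set_ins2 κ A G' T a x ha]
          constructor
          · rintro ⟨h2 | h2, h4, h5⟩
            · left
              refine ⟨h2, ?_⟩
              rw [h2] at h4 h5
              exact ⟨h4, h5⟩
            · exact Or.inr ⟨h2, h4, h5⟩
          · rintro (⟨h2, h3⟩ | ⟨h2, h4, h5⟩)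
            · rw [h2]
              exact ⟨Or.inl rfl, h3.1, h3.2⟩
            · exact ⟨Or.inr h2, h4, h5⟩
        rw [hx]
        split_ifs with h2
        · rw [mem_insert]
          tauto
        · tauto
      rw [h2]
      split_ifs with h3
      · rw [card_insert_of_notMem]
        intro h4
        unfold P1 at h4
        rw [mem_filter] at h4
        exact haT h4.1
      · rw [add_zero]
    rw [e1, e2, e3, e4]
    have hp : 0 ≤ lam ^ (P1 M κ A F G' T).card * mu ^ (P2 M κ A F G' T).card := by positivity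
    split_ifs with h2
    · rw [pow_succ, pow_succ]
      calc (1 - q) * (lam ^ (P1 M κ A F G' T).card * (mu ^ (P2 M κ A F G' T).card * mu))
            + q * (lam ^ (P1 M κ A F G' T).card * lam * mu ^ (P2 M κ A F G' T).card)
          = (lam ^ (P1 M κ A F G' T).card * mu ^ (P2 M κ A F G' T).card)
            * ((1 - q) * mu + q * lam) := by ring
        _ ≤ (lam ^ (P1 M κ A F G' T).card * mu ^ (P2 M κ A F G' T).card) * 1 :=
            mul_le_mul_of_nonneg_left hlm hp
        _ = _ := by rw [mul_one]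
    · rw [add_zero, add_zero]
      apply le_of_eq
      ring

open Classical in
theorem momentB (M : Matroid (Fin n)) (hE : M.E = Set.univ) (κ : Fin n → α)
    (hκ : Function.Injective κ) (A G F : Finset (Fin n)) (f : ℕ)
    (hF : ∀ I : Finset (Fin n), I ⊆ F → M.Indep (I : Set (Fin n)) → I.card ≤ f) {q lam : ℝ}
    (h0 : 0 ≤ q) (h1 : q ≤ 1/2) (hl : 1 ≤ lam) (hql : q * lam ≤ 1/2) :
    Ew G q (fun T => lam ^ (T.filter (fun e => e ∈ F ∧
      e ∉ M.closure {y | y ∈ A ∪ (G \ T) ∧ κ e < κ y})).card) ≤ 2 ^ f := by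
  have hq1 : q ≤ 1 := by linarith
  have h1q : 0 < 1 - q := by linarith
  set mu : ℝ := 1 / (2 * (1 - q)) with hmu
  have hmu0 : 0 < mu := by positivity
  have hmu1 : mu ≤ 1 := by
    rw [hmu, div_le_one (by positivity)]
    linarith
  have hmq : (1 - q) * mu = 1 / 2 := by
    rw [hmu]
    field_simp
  have h2 := pot_le M κ hκ A F h0 hq1 (by linarith : (0:ℝ) ≤ lam) hmu0.le
    (by rw [hmq]; linarith) G
  have hP2 : ∀ T, (P2 M κ A F G T).card ≤ f := by
    intro T
    apply hF
    · intro x hx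
      unfold P2 at hx
      rw [mem_filter] at hx
      exact hx.2.1
    · have h3 := greedy_indep M hE κ hκ (fun x => x ∈ A ∪ (G \ T))
      apply h3.subset
      intro x hx
      rw [mem_coe] at hx
      unfold P2 at hx
      rw [mem_filter] at hx
      exact ⟨mem_union_right _ hx.1, hx.2.2⟩
  have h3 : mu ^ f * Ew G q (fun T => lam ^ (T.filter (fun e => e ∈ F ∧
      e ∉ M.closure {y | y ∈ A ∪ (G \ T) ∧ κ e < κ y})).card) ≤ 1 := by
    rw [← Ew_mul]
    refine le_trans (Ew_mono h0 hq1 G fun T _ => ?_) h2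
    have h4 : mu ^ f ≤ mu ^ (P2 M κ A F G T).card :=
      pow_le_pow_of_le_one hmu0.le hmu1 (hP2 T)
    have h5 : 0 ≤ lam ^ (P1 M κ A F G T).card := by positivity
    calc mu ^ f * lam ^ (T.filter (fun e => e ∈ F ∧
      e ∉ M.closure {y | y ∈ A ∪ (G \ T) ∧ κ e < κ y})).card
        = mu ^ f * lam ^ (P1 M κ A F G T).card := rfl
      _ ≤ mu ^ (P2 M κ A F G T).card * lam ^ (P1 M κ A F G T).card :=
          mul_le_mul_of_nonneg_right h4 h5
      _ = _ := mul_comm _ _
  have h4 : (1 : ℝ) ≤ 2 ^ f * mu ^ f := by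
    rw [← mul_pow]
    apply one_le_pow₀
    rw [hmu, mul_one_div, le_div_iff₀ (by positivity)]
    linarith
  have h5 : 0 ≤ Ew G q (fun T => lam ^ (T.filter (fun e => e ∈ F ∧
      e ∉ M.closure {y | y ∈ A ∪ (G \ T) ∧ κ e < κ y})).card) :=
    Ew_nonneg h0 hq1 _ fun T _ => by positivity
  calc _ = 1 * Ew G q (fun T => lam ^ (T.filter (fun e => e ∈ F ∧
      e ∉ M.closure {y | y ∈ A ∪ (G \ T) ∧ κ e < κ y})).card) := (one_mul _).symm
    _ ≤ (2 ^ f * mu ^ f) * Ew G q (fun T => lam ^ (T.filter (fun e => e ∈ F ∧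
      e ∉ M.closure {y | y ∈ A ∪ (G \ T) ∧ κ e < κ y})).card) :=
        mul_le_mul_of_nonneg_right h4 h5
    _ = 2 ^ f * (mu ^ f * Ew G q (fun T => lam ^ (T.filter (fun e => e ∈ F ∧
      e ∉ M.closure {y | y ∈ A ∪ (G \ T) ∧ κ e < κ y})).card)) := by ring
    _ ≤ 2 ^ f * 1 := mul_le_mul_of_nonneg_left h3 (by positivity)
    _ = 2 ^ f := mul_one _

end Pool.Agent.Work.MP_3bf421_lc_FZ
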