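import Pool.Agent.Work.MP_3bf421_lc_FZ.Own
import Pool.Agent.Work.MP_3bf421_lc_TR.XSet

set_option autoImplicit false

/-!
The number of elements of the optimum which are spanned by other candidates, in terms of a small
set `J` of candidates.
-/

namespace Pool.Agent.Work.MP_3bf421_lc_FZ

open Finset
open Pool.Agent.Work.MP_3bf421_lc_LU
open Pool.Agent.Work.MP_3bf421_lc_TR (exists_X exists_circuit_mem)
open _root_.MP_3bf421_lc.UN (rk fs cont IsUnion fs_mono exists_small_span subset_cont_of_fs_eq)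

variable {n : ℕ} {α : Type*} [LinearOrder α]

open Classical in
theorem nb_le {l : ℕ} {Ms : Fin l → Matroid (Fin n)} {N : Matroid (Fin n)}
    (hN : IsUnion N Ms) (hE : N.E = Set.univ) (κ : Fin n → α) (hκ : Function.Injective κ)
    {k : ℕ} (hk : ∀ j, k ≤ (univ.filter fun i => Ms i = Ms j).card) (C : Finset (Fin n)) :
    ∃ J, J ⊆ C ∧ k * J.card ≤ fs Ms J ∧ nb N κ C ≤ fs Ms J ∧
      fs Ms J ≤ (C ∩ cont Ms J).card := by
  obtain ⟨X, hXC, hX1, hX2⟩ := exists_X hN C
  obtain ⟨J, hJX, hJ1, hJ2⟩ := exists_small_span Ms hk X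
  refine ⟨J, hJX.trans hXC, hJ2, ?_, ?_⟩
  · unfold nb
    set W : Finset (Fin n) := (optB N κ).filter (fun b => b ∈ C ∧
      b ∈ N.closure ((C.erase b : Finset (Fin n)) : Set (Fin n))) with hW
    have hWX : W ⊆ X := by
      intro b hb
      rw [hW, mem_filter] at hb
      obtain ⟨D, hD, hc, hbD⟩ := exists_circuit_mem N C b hb.2.1 hb.2.2
      exact hX2 D hD hc hbD
    have hWI : N.Indep (W : Set (Fin n)) :=
      (optB_indep N hE κ hκ).subset (by
        intro x hx
        exact (mem_filter.1 (mem_coe.1 hx)).1)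
    have h1 := (hN.indep_iff W).1 hWI W (Subset.refl _)
    have h2 := fs_mono Ms hWX
    omega
  · have h1 : X ⊆ C ∩ cont Ms J := by
      intro x hx
      exact mem_inter.2 ⟨hXC hx, subset_cont_of_fs_eq hJX hJ1 hx⟩
    have h2 := card_le_card h1
    omega

end Pool.Agent.Work.MP_3bf421_lc_FZ
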