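import Pool.Agent.Work.MP_3bf421_lc_FZ.Ew

set_option autoImplicit false

/-!
The expected nullity of the set of relevant elements, and the number of relevant elements of
small rank.
-/

namespace Pool.Agent.Work.MP_3bf421_lc_FZ

open Finset
open Pool.Agent.Work.MP_3bf421_lc_LU
open _root_.MP_3bf421_lc.UN (rk fs cont)

variable {n : ℕ} {α : Type*} [LinearOrder α]

/-- an independent subset has at most `rk` elements -/
theorem card_le_rk (M : Matroid (Fin n)) {I X : Finset (Fin n)} (hI : M.Indep (I : Set (Fin n)))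
    (h : I ⊆ X) : I.card ≤ rk M X :=
  ((_root_.MP_3bf421_lc.UN.indep_iff_rk M I).1 hI).trans (_root_.MP_3bf421_lc.UN.rk_mono M h)

/-- the greedy basis of an upper set -/
theorem rk_upper_le (M : Matroid (Fin n)) (hE : M.E = Set.univ) (κ : Fin n → α)
    (H : Finset (Fin n)) (hH : ∀ x y, x ∈ H → κ x ≤ κ y → y ∈ H) :
    rk M H ≤ (H ∩ optB M κ).card := by
  have h1 : ((H : Finset (Fin n)) : Set (Fin n)) ⊆
      M.closure ((H ∩ optB M κ : Finset (Fin n)) : Set (Fin n)) := by
    intro u hu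
    have h2 := optB_span M hE κ (κ u) u le_rfl
    refine M.closure_subset_closure ?_ h2
    rintro x ⟨hx, hux⟩
    exact mem_coe.2 (mem_inter.2 ⟨hH u x (mem_coe.1 hu) hux, hx⟩)
  have h2 : M.eRk ((H : Finset (Fin n)) : Set (Fin n)) ≤
      M.eRk ((H ∩ optB M κ : Finset (Fin n)) : Set (Fin n)) := by
    rw [← M.eRk_closure_eq ((H ∩ optB M κ : Finset (Fin n)) : Set (Fin n))]
    exact M.eRk_mono h1
  rw [← _root_.MP_3bf421_lc.UN.coe_rk, ← _root_.MP_3bf421_lc.UN.coe_rk] at h2
  have h3 : rk M H ≤ rk M (H ∩ optB M κ) := by exact_mod_cast h2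
  exact h3.trans (_root_.MP_3bf421_lc.UN.rk_le_card M _)

open Classical in
theorem nullB (M : Matroid (Fin n)) (hE : M.E = Set.univ) (κ : Fin n → α)
    (hκ : Function.Injective κ) (A H : Finset (Fin n))
    (hH : ∀ x y, x ∈ H → κ x ≤ κ y → y ∈ H) {q : ℝ} (h0 : 0 ≤ q) (h1 : q ≤ 1 / 2) :
    Ew Aᶜ q (fun T => ((H.filter (fun e => Rel M κ Tᶜ e)).card : ℝ)
      - rk M (H.filter (fun e => Rel M κ Tᶜ e))) ≤ 2 * q ^ 2 * rk M H := by
  have hq1 : q ≤ 1 := by linarith
  set B := optB M κ with hB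
  -- the condition which does not look at the label of `e`
  let P : Fin n → Finset (Fin n) → Prop := fun e T => e ∉ M.closure {y | y ∈ Tᶜ ∧ κ e < κ y}
  have hPins : ∀ e T, P e (insert e T) ↔ P e T := by
    intro e T
    have h2 : {y | y ∈ (insert e T)ᶜ ∧ κ e < κ y} = {y | y ∈ Tᶜ ∧ κ e < κ y} := by
      ext y
      simp only [Set.mem_setOf_eq, mem_compl, mem_insert, not_or]
      constructor
      · rintro ⟨⟨_, h4⟩, h5⟩
        exact ⟨h4, h5⟩
      · rintro ⟨h4, h5⟩
        exact ⟨⟨fun h => lt_irrefl _ (h ▸ h5), h4⟩, h5⟩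
    show (e ∉ M.closure {y | y ∈ (insert e T)ᶜ ∧ κ e < κ y}) ↔ _
    rw [h2]
  -- the expected number of relevant elements
  have hcard : ∀ T, T ⊆ Aᶜ → ((H.filter (fun e => Rel M κ Tᶜ e)).card : ℝ)
      = ∑ e ∈ H \ A, (if e ∈ T then (if P e T then (1 : ℝ) else 0) else 0) := by
    intro T hT
    have h2 : H.filter (fun e => Rel M κ Tᶜ e) = (H \ A).filter (fun e => e ∈ T ∧ P e T) := by
      ext e
      rw [mem_filter, mem_filter, mem_sdiff]
      constructor
      · rintro ⟨h3, h4, h5⟩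
        have h6 : e ∈ T := by
          by_contra hcon
          exact h4 (mem_compl.2 hcon)
        exact ⟨⟨h3, mem_compl.1 (hT h6)⟩, h6, h5⟩
      · rintro ⟨⟨h3, _⟩, h4, h5⟩
        exact ⟨h3, fun h => (mem_compl.1 h) h4, h5⟩
    rw [h2, card_filter, Nat.cast_sum]
    refine sum_congr rfl fun e _ => ?_
    by_cases h3 : e ∈ T <;> by_cases h4 : P e T <;> simp [h3, h4]
  have hcount : (1 - q) * Ew Aᶜ q (fun T => ((H.filter (fun e => Rel M κ Tᶜ e)).card : ℝ))
      ≤ q * ((rk M H : ℝ) - ((H ∩ B) ∩ A).card) := by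
    rw [Ew_congr Aᶜ q hcard, Ew_sum, mul_sum]
    have h2 : ∀ e ∈ H \ A, (1 - q) * Ew Aᶜ q
        (fun T => if e ∈ T then (if P e T then (1 : ℝ) else 0) else 0)
        = q * Ew Aᶜ q (fun T => if e ∈ T then 0 else (if P e T then (1 : ℝ) else 0)) := by
      intro e he
      refine Ew_flip (mem_compl.2 (mem_sdiff.1 he).2) q _ fun T _ => ?_
      by_cases h4 : P e T
      · rw [if_pos h4, if_pos ((hPins e T).2 h4)]
      · rw [if_neg h4, if_neg (fun h => h4 ((hPins e T).1 h))]
    rw [sum_congr rfl h2, ← mul_sum, ← Ew_sum]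
    refine mul_le_mul_of_nonneg_left ?_ h0
    have h3 : ∀ T, T ⊆ Aᶜ →
        ∑ e ∈ H \ A, (if e ∈ T then 0 else (if P e T then (1 : ℝ) else 0))
          ≤ (rk M H : ℝ) - ((H ∩ B) ∩ A).card := by
      intro T hT
      have h4 : ∑ e ∈ H \ A, (if e ∈ T then 0 else (if P e T then (1 : ℝ) else 0))
          = (((H \ A).filter (fun e => e ∉ T ∧ P e T)).card : ℝ) := by
        rw [card_filter, Nat.cast_sum]
        refine sum_congr rfl fun e _ => ?_
        by_cases h3 : e ∈ T <;> by_cases h4 : P e T <;> simp [h3, h4]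
      have hdis : Disjoint ((H \ A).filter (fun e => e ∉ T ∧ P e T)) ((H ∩ B) ∩ A) := by
        rw [disjoint_left]
        intro x hx hx2
        exact (mem_sdiff.1 (mem_filter.1 hx).1).2 (mem_inter.1 hx2).2
      have hind := greedy_indep M hE κ hκ (fun x => x ∈ Tᶜ)
      have h5 : (((H \ A).filter (fun e => e ∉ T ∧ P e T)) ∪ ((H ∩ B) ∩ A)).card ≤ rk M H := by
        refine card_le_rk M (hind.subset ?_) ?_
        · intro x hx
          rcases mem_union.1 (mem_coe.1 hx) with h6 | h6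
          · have h7 := (mem_filter.1 h6).2
            exact ⟨mem_compl.2 h7.1, h7.2⟩
          · have h7 := mem_inter.1 h6
            have h8 : x ∉ T := fun h => (mem_compl.1 (hT h)) h7.2
            refine ⟨mem_compl.2 h8, fun h => ?_⟩
            have h9 := (mem_inter.1 h7.1).2
            rw [hB] at h9
            unfold optB at h9
            rw [mem_filter] at h9
            exact h9.2 (M.closure_subset_closure (fun y hy => hy.2) h)
        · intro x hx
          rcases mem_union.1 hx with h6 | h6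
          · exact (mem_sdiff.1 (mem_filter.1 h6).1).1
          · exact (mem_inter.1 (mem_inter.1 h6).1).1
      rw [card_union_of_disjoint hdis] at h5
      rw [h4]
      have h6 : ((((H \ A).filter (fun e => e ∉ T ∧ P e T)).card + ((H ∩ B) ∩ A).card : ℕ) : ℝ)
          ≤ (rk M H : ℝ) := by exact_mod_cast h5
      push_cast at h6
      linarith
    calc _ ≤ Ew Aᶜ q (fun _ => (rk M H : ℝ) - ((H ∩ B) ∩ A).card) := Ew_mono h0 hq1 _ h3
      _ = _ := Ew_const _ _ _
  -- the rank
  have hrk : q * (((H ∩ B) \ A).card : ℝ)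
      ≤ Ew Aᶜ q (fun T => (rk M (H.filter (fun e => Rel M κ Tᶜ e)) : ℝ)) := by
    have h2 : Ew Aᶜ q (fun T => ∑ b ∈ (H ∩ B) \ A, (if b ∈ T then (1 : ℝ) else 0))
        = q * (((H ∩ B) \ A).card : ℝ) := by
      rw [Ew_sum]
      have h3 : ∀ b ∈ (H ∩ B) \ A, Ew Aᶜ q (fun T => if b ∈ T then (1 : ℝ) else 0) = q := by
        intro b hb
        rw [Ew_mem (mem_compl.2 (mem_sdiff.1 hb).2) q (fun _ => (1 : ℝ)), Ew_const, mul_one]
      rw [sum_congr rfl h3, sum_const, nsmul_eq_mul, mul_comm]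
    rw [← h2]
    refine Ew_mono h0 hq1 _ fun T hT => ?_
    have h3 : ∑ b ∈ (H ∩ B) \ A, (if b ∈ T then (1 : ℝ) else 0)
        = ((((H ∩ B) \ A).filter (fun b => b ∈ T)).card : ℝ) := by
      rw [card_filter, Nat.cast_sum]
      refine sum_congr rfl fun e _ => ?_
      by_cases h3 : e ∈ T <;> simp [h3]
    rw [h3]
    have h4 : (((H ∩ B) \ A).filter (fun b => b ∈ T)).card
        ≤ rk M (H.filter (fun e => Rel M κ Tᶜ e)) := by
      refine card_le_rk M ((optB_indep M hE κ hκ).subset ?_) ?_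
      · intro x hx
        exact (mem_inter.1 (mem_sdiff.1 (mem_filter.1 (mem_coe.1 hx)).1).1).2
      · intro x hx
        have h5 := mem_filter.1 hx
        have h6 := mem_inter.1 (mem_sdiff.1 h5.1).1
        refine mem_filter.2 ⟨h6.1, fun h => (mem_compl.1 h) h5.2, fun h => ?_⟩
        have h9 := h6.2
        rw [hB] at h9
        unfold optB at h9
        rw [mem_filter] at h9
        exact h9.2 (M.closure_subset_closure (fun y hy => hy.2) h)
    exact_mod_cast h4
  rw [Ew_sub]
  set X := Ew Aᶜ q (fun T => ((H.filter (fun e => Rel M κ Tᶜ e)).card : ℝ)) with hX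
  set Y := Ew Aᶜ q (fun T => (rk M (H.filter (fun e => Rel M κ Tᶜ e)) : ℝ)) with hY
  have h2 : rk M H ≤ (H ∩ B).card := rk_upper_le M hE κ H hH
  have h3 : ((H ∩ B) ∩ A).card + ((H ∩ B) \ A).card = (H ∩ B).card := card_inter_add_card_sdiff _ _
  have h4 : (rk M H : ℝ) ≤ ((H ∩ B) ∩ A).card + ((H ∩ B) \ A).card := by
    rw [← h3] at h2
    exact_mod_cast h2
  have h5 : (((H ∩ B) \ A).card : ℝ) ≤ rk M H := by
    have : ((H ∩ B) \ A).card ≤ rk M H := by
      refine card_le_rk M ((optB_indep M hE κ hκ).subset ?_) ?_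
      · intro x hx
        exact (mem_inter.1 (mem_sdiff.1 (mem_coe.1 hx)).1).2
      · intro x hx
        exact (mem_inter.1 (mem_sdiff.1 hx).1).1
    exact_mod_cast this
  set m : ℝ := (((H ∩ B) \ A).card : ℝ) with hm
  have hm0 : 0 ≤ m := Nat.cast_nonneg _
  have h6 : (1 - q) * X ≤ q * m := by
    refine hcount.trans (mul_le_mul_of_nonneg_left ?_ h0)
    linarith
  have h7 : X ≤ q * m + 2 * q ^ 2 * m := by
    have h8 : (1 - q) * (q * m + 2 * q ^ 2 * m) ≥ q * m := by
      have : (1 - q) * (q * m + 2 * q ^ 2 * m) - q * m = q ^ 2 * m * (1 - 2 * q) := by ring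
      have h9 : 0 ≤ q ^ 2 * m * (1 - 2 * q) := by
        apply mul_nonneg (by positivity); linarith
      linarith
    have h9 : (1 - q) * X ≤ (1 - q) * (q * m + 2 * q ^ 2 * m) := h6.trans h8
    exact le_of_mul_le_mul_left h9 (by linarith)
  have h8 : 2 * q ^ 2 * m ≤ 2 * q ^ 2 * rk M H := mul_le_mul_of_nonneg_left h5 (by positivity)
  linarith

open Classical in
/-- at most `U` elements of the greedy basis of `A` have fewer than `U` predecessors in rank -/
theorem card_xr_le (M : Matroid (Fin n)) (hE : M.E = Set.univ) (κ : Fin n → α)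
    (hκ : Function.Injective κ) (U : ℕ) (A : Finset (Fin n)) :
    (A.filter (fun e => e ∉ M.closure {y | y ∈ A ∧ κ e < κ y} ∧ xr M κ A e < U)).card ≤ U := by
  set J := A.filter (fun e => e ∉ M.closure {y | y ∈ A ∧ κ e < κ y} ∧ xr M κ A e < U) with hJ
  by_cases hne : J.Nonempty
  · obtain ⟨x, hx, hmin⟩ := exists_min_image J κ hne
    have hind := greedy_indep M hE κ hκ (fun y => y ∈ A)
    have h1 : (J.erase x).card ≤ rk M (A.filter (fun y => κ x < κ y)) := by
      refine card_le_rk M (hind.subset ?_) ?_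
      · intro y hy
        have h2 := mem_filter.1 (mem_of_mem_erase (mem_coe.1 hy))
        exact ⟨h2.1, h2.2.1⟩
      · intro y hy
        have h2 := mem_filter.1 (mem_of_mem_erase hy)
        refine mem_filter.2 ⟨h2.1, lt_of_le_of_ne (hmin y (mem_of_mem_erase hy)) ?_⟩
        intro h3
        exact (mem_erase.1 hy).1 (hκ h3).symm
    have h2 : rk M (A.filter (fun y => κ x < κ y)) < U := (mem_filter.1 hx).2.2
    rw [card_erase_of_mem hx] at h1
    omega
  · rw [not_nonempty_iff_eq_empty] at hne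
    rw [hne, card_empty]
    exact Nat.zero_le _

open Classical in
theorem sum_rel (M : Matroid (Fin n)) (hE : M.E = Set.univ) (κ : Fin n → α)
    (hκ : Function.Injective κ) (U : ℕ) :
    ∑ A : Finset (Fin n), (univ.filter (fun e => Rel M κ A e ∧ xr M κ A e < U)).card
      ≤ U * 2 ^ n := by
  have h1 : ∑ A : Finset (Fin n),
      (A.filter (fun e => e ∉ M.closure {y | y ∈ A ∧ κ e < κ y} ∧ xr M κ A e < U)).card
      ≤ U * 2 ^ n := by
    calc _ ≤ ∑ _A : Finset (Fin n), U := sum_le_sum fun A _ => card_xr_le M hE κ hκ U A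
      _ = _ := by
          rw [sum_const, card_univ, Fintype.card_finset, Fintype.card_fin, smul_eq_mul, mul_comm]
  refine le_trans ?_ h1
  rw [← card_sigma, ← card_sigma]
  have hset : ∀ (A : Finset (Fin n)) (x : Fin n),
      {y | y ∈ insert x A ∧ κ x < κ y} = {y | y ∈ A ∧ κ x < κ y} := by
    intro A x
    ext y
    constructor
    · rintro ⟨h3, h4⟩
      rcases mem_insert.1 h3 with rfl | h3
      · exact absurd h4 (lt_irrefl _)
      · exact ⟨h3, h4⟩
    · rintro ⟨h3, h4⟩
      exact ⟨mem_insert_of_mem h3, h4⟩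
  refine card_le_card_of_injOn (fun q => ⟨insert q.2 q.1, q.2⟩) ?_ ?_
  · rintro ⟨A, x⟩ hq
    rw [mem_coe, mem_sigma] at hq
    have hx := (mem_filter.1 hq.2).2
    simp only at hx
    rw [mem_coe, mem_sigma]
    refine ⟨mem_univ _, mem_filter.2 ⟨mem_insert_self _ _, ?_, ?_⟩⟩
    · show x ∉ M.closure {y | y ∈ insert x A ∧ κ x < κ y}
      rw [hset A x]
      exact hx.1.2
    · show xr M κ (insert x A) x < U
      have h2 : xr M κ (insert x A) x = xr M κ A x := by
        unfold xr
        congr 1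
        rw [filter_insert, if_neg (lt_irrefl _)]
      rw [h2]
      exact hx.2
  · rintro ⟨A, x⟩ hq ⟨A', x'⟩ hq' heq
    rw [mem_coe, mem_sigma] at hq hq'
    have hx := (mem_filter.1 hq.2).2.1.1
    have hx' := (mem_filter.1 hq'.2).2.1.1
    simp only at hx hx' heq
    rw [Sigma.mk.injEq] at heq
    obtain ⟨h3, h4⟩ := heq
    have h5 : x = x' := eq_of_heq h4
    subst h5
    have h6 : A = A' := by
      rw [← erase_insert hx, h3, erase_insert hx']
    subst h6
    rfl

end Pool.Agent.Work.MP_3bf421_lc_FZ
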