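import Pool.Agent.Work.MP_3bf421_lc_FZ.ExpI

set_option autoImplicit false

/-!
The expected number of accepted elements above `a` for a good first block.
-/

namespace Pool.Agent.Work.MP_3bf421_lc_FZ

open Finset
open Pool.Agent.Work.MP_3bf421_lc_LU
open _root_.MP_3bf421_lc.UN (rk fs cont)

variable {n : ℕ} {α : Type*} [LinearOrder α]

open Classical in
theorem pow_cls_le (M : Matroid (Fin n)) (hE : M.E = Set.univ) (κ : Fin n → α)
    (hκ : Function.Injective κ) (J : ℕ) (A : Finset (Fin n)) (a : Fin n)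
    (ha : a ∈ optB M κ) (i : ℕ) (hi : i ≤ cls M κ J A a) :
    KK J (rk M A) ^ i ≤ (((optB M κ).filter (fun b => κ a ≤ κ b)).card : ℝ) := by
  rcases Nat.eq_zero_or_pos i with h | h
  · rw [h, pow_zero]
    have : 0 < ((optB M κ).filter (fun b => κ a ≤ κ b)).card := by
      rw [card_pos]
      exact ⟨a, mem_filter.2 ⟨ha, le_rfl⟩⟩
    exact_mod_cast this
  · have h1 := le_of_le_lev h hi
    refine h1.trans ?_
    have h2 : xr M κ A a ≤ rk M (univ.filter (fun y => κ a < κ y)) := by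
      unfold xr
      exact _root_.MP_3bf421_lc.UN.rk_mono M (filter_subset_filter _ (subset_univ _))
    have h3 := rk_upperset M hE κ hκ (univ.filter (fun y => κ a < κ y)) (by
      intro x y hx hxy
      rw [mem_filter] at hx ⊢
      exact ⟨mem_univ _, lt_of_lt_of_le hx.2 hxy⟩)
    have h4 : ((optB M κ).filter (fun b => b ∈ univ.filter (fun y => κ a < κ y))).card
        ≤ ((optB M κ).filter (fun b => κ a ≤ κ b)).card := by
      apply card_le_card
      intro b hb
      rw [mem_filter, mem_filter] at hb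
      rw [mem_filter]
      exact ⟨hb.1, hb.2.2.le⟩
    exact_mod_cast h2.trans (h3.le.trans h4)

open Classical in
/-- few elements of the optimum have a class below `j - s` -/
theorem upper_card_sub (M : Matroid (Fin n)) (hE : M.E = Set.univ) (κ : Fin n → α)
    (hκ : Function.Injective κ) (J : ℕ) (hJ : 1 ≤ J) (A : Finset (Fin n)) (hA : GoodA M κ A)
    (a : Fin n) (ha : a ∈ optB M κ) (i s : ℕ) (hi : i ≤ cls M κ J A a) :
    (((optB M κ).filter (fun b => cls M κ J A b < i - s)).card : ℝ)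
      ≤ 9 / (2 ^ 18) ^ s * (((optB M κ).filter (fun b => κ a ≤ κ b)).card : ℝ) := by
  rcases Nat.eq_zero_or_pos (i - s) with h | h
  · have h1 : (optB M κ).filter (fun b => cls M κ J A b < i - s) = ∅ := by
      rw [filter_eq_empty_iff]
      intro b _
      omega
    rw [h1, card_empty, Nat.cast_zero]
    positivity
  · have h1 := upper_card M hE κ hκ J hJ A hA (i - s) h
    have h2 := pow_cls_le M hE κ hκ J A a ha i hi
    have h3 : KK J (rk M A) ^ (i - s) * KK J (rk M A) ^ s = KK J (rk M A) ^ i := by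
      rw [← pow_add]
      congr 1
      omega
    have h4 : ((2 : ℝ) ^ 18) ^ s ≤ KK J (rk M A) ^ s := pow_le_pow_left₀ (by positivity) (KK_ge _ _) s
    have h5 : (0 : ℝ) < KK J (rk M A) ^ (i - s) := pow_pos (KK_pos _ _) _
    have h6 : KK J (rk M A) ^ (i - s) * (2 ^ 18) ^ s
        ≤ (((optB M κ).filter (fun b => κ a ≤ κ b)).card : ℝ) := by
      calc _ ≤ KK J (rk M A) ^ (i - s) * KK J (rk M A) ^ s :=
            mul_le_mul_of_nonneg_left h4 h5.le
        _ = KK J (rk M A) ^ i := h3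
        _ ≤ _ := h2
    refine h1.trans ?_
    rw [div_mul_eq_mul_div, le_div_iff₀ (by positivity)]
    calc 9 * KK J (rk M A) ^ (i - s) * (2 ^ 18) ^ s
        = 9 * (KK J (rk M A) ^ (i - s) * (2 ^ 18) ^ s) := by ring
      _ ≤ _ := mul_le_mul_of_nonneg_left h6 (by norm_num)

open Classical in
theorem perA (M : Matroid (Fin n)) (hE : M.E = Set.univ) (κ : Fin n → α)
    (hκ : Function.Injective κ) (J : ℕ) (hJ : 1 ≤ J) (A : Finset (Fin n)) (hA : GoodA M κ A)
    (a : Fin n) (ha : a ∈ optB M κ) (m : ℕ) (hm : J + 1 < 2 ^ m) {q : ℝ} (h0 : 0 ≤ q)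
    (h1 : q ≤ 1 / 2) (W : ℝ)
    (hW : ∀ i, i ≤ cls M κ J A a →
      Ew Aᶜ q (fun T => (bl M κ (cls M κ J A) (J + 1) Tᶜ i : ℝ)) ≤ W) :
    q * ((((optB M κ).filter (fun b => κ a ≤ κ b ∧ b ∉ A)).card : ℝ)
        - 9 / 2 ^ 18 * (((optB M κ).filter (fun b => κ a ≤ κ b)).card : ℝ))
      - 18 / 2 ^ 36 * (((optB M κ).filter (fun b => κ a ≤ κ b)).card : ℝ) - 2 * max W 0
    ≤ Ew Aᶜ q (fun T => ∑ i ∈ ({cls M κ J A a - 1, cls M κ J A a} : Finset ℕ),
        LBi M κ (cls M κ J A) (J + 1) m a Tᶜ i) := by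
  set j := cls M κ J A a with hj
  set ρ : ℝ := (((optB M κ).filter (fun b => κ a ≤ κ b)).card : ℝ) with hρ
  have hρ0 : 0 ≤ ρ := Nat.cast_nonneg _
  set I0 : Finset ℕ := {j - 1, j} with hI0
  have hI0j : ∀ i ∈ I0, i ≤ j := by
    intro i hi
    rw [hI0, mem_insert, mem_singleton] at hi
    omega
  have hI0c : I0.card ≤ 2 := card_le_two
  rw [Ew_sum]
  have hcl : ∀ i ∈ I0, q * (((optB M κ).filter (fun b => κ a ≤ κ b ∧
      cls M κ J A b = i ∧ b ∉ A)).card : ℝ) - 9 / 2 ^ 36 * ρ - max W 0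
      ≤ Ew Aᶜ q (fun T => LBi M κ (cls M κ J A) (J + 1) m a Tᶜ i) := by
    intro i hi
    have hij := hI0j i hi
    have hjJ : j ≤ J := cls_le M κ J A a
    have h2 := exp_class M hE κ hκ (cls M κ J A) (J + 1) m hm A a h0 h1 i (by omega)
    have h3 := hW i hij
    have h4 : (rk M (univ.filter (fun y => cls M κ J A y < i - 2)) : ℝ) ≤ 9 / 2 ^ 36 * ρ := by
      have h5 := rk_upperset M hE κ hκ (univ.filter (fun y => cls M κ J A y < i - 2)) (by
        intro x y hx hxy
        rw [mem_filter] at hx ⊢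
        exact ⟨mem_univ _, lt_of_le_of_lt (cls_anti M κ J A hxy) hx.2⟩)
      have h6 := upper_card_sub M hE κ hκ J hJ A hA a ha i 2 hij
      rw [h5]
      have h7 : (optB M κ).filter (fun b => b ∈ univ.filter
          (fun y => cls M κ J A y < i - 2)) = (optB M κ).filter
          (fun b => cls M κ J A b < i - 2) := by
        ext b
        simp only [mem_filter, mem_univ, true_and]
      rw [h7]
      refine h6.trans (le_of_eq ?_)
      rw [← pow_mul]
    have h8 : W ≤ max W 0 := le_max_left _ _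
    linarith
  refine le_trans ?_ (sum_le_sum hcl)
  rw [sum_sub_distrib, sum_sub_distrib, sum_const, sum_const, nsmul_eq_mul, nsmul_eq_mul,
    ← mul_sum]
  have h2 : (I0.card : ℝ) ≤ 2 := by exact_mod_cast hI0c
  have h3 : (((optB M κ).filter (fun b => κ a ≤ κ b ∧ b ∉ A)).card : ℝ)
      - 9 / 2 ^ 18 * ρ ≤ ∑ i ∈ I0, (((optB M κ).filter (fun b => κ a ≤ κ b ∧
      cls M κ J A b = i ∧ b ∉ A)).card : ℝ) := by
    have h4 := upper_card_sub M hE κ hκ J hJ A hA a ha j 1 le_rfl
    rw [pow_one] at h4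
    have h5 : ((optB M κ).filter (fun b => κ a ≤ κ b ∧ b ∉ A)).card
        ≤ ∑ i ∈ I0, ((optB M κ).filter (fun b => κ a ≤ κ b ∧
          cls M κ J A b = i ∧ b ∉ A)).card
          + ((optB M κ).filter (fun b => cls M κ J A b < j - 1)).card := by
      have h6 : (optB M κ).filter (fun b => κ a ≤ κ b ∧ b ∉ A) ⊆
          (I0.biUnion (fun i => (optB M κ).filter (fun b => κ a ≤ κ b ∧
          cls M κ J A b = i ∧ b ∉ A))) ∪
          (optB M κ).filter (fun b => cls M κ J A b < j - 1) := by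
        intro b hb
        rw [mem_filter] at hb
        rw [mem_union, mem_biUnion]
        have h7 : cls M κ J A b ≤ j := cls_anti M κ J A hb.2.1
        by_cases h8 : cls M κ J A b < j - 1
        · exact Or.inr (mem_filter.2 ⟨hb.1, h8⟩)
        · refine Or.inl ⟨cls M κ J A b, ?_, mem_filter.2 ⟨hb.1, hb.2.1, rfl, hb.2.2⟩⟩
          rw [hI0, mem_insert, mem_singleton]
          omega
      exact (card_le_card h6).trans ((card_union_le _ _).trans
        (Nat.add_le_add_right card_biUnion_le _))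
    have h6 : (((optB M κ).filter (fun b => κ a ≤ κ b ∧ b ∉ A)).card : ℝ)
        ≤ ∑ i ∈ I0, (((optB M κ).filter (fun b => κ a ≤ κ b ∧
          cls M κ J A b = i ∧ b ∉ A)).card : ℝ)
          + (((optB M κ).filter (fun b => cls M κ J A b < j - 1)).card : ℝ) := by
      exact_mod_cast h5
    linarith
  have h4 := mul_le_mul_of_nonneg_left h3 h0
  have h5 : (I0.card : ℝ) * (9 / 2 ^ 36 * ρ) ≤ 2 * (9 / 2 ^ 36 * ρ) :=
    mul_le_mul_of_nonneg_right h2 (by positivity)
  have h6 : (I0.card : ℝ) * max W 0 ≤ 2 * max W 0 :=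
    mul_le_mul_of_nonneg_right h2 (le_max_right _ _)
  have h7 : 18 / 2 ^ 36 * ρ = 2 * (9 / 2 ^ 36 * ρ) := by ring
  rw [h7]
  linarith

end Pool.Agent.Work.MP_3bf421_lc_FZ
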