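import Mathlib

set_option autoImplicit false

/-!
The sum over the subsets of `P` in the bound for the number of blocked elements.
-/

namespace Pool.Agent.Work.MP_3bf421_lc_FZ

open Finset

variable {n : ℕ}

theorem term_le {m x0 k j : ℕ} {th : ℝ} (h0 : 0 ≤ th) (h1 : th ≤ 1) (hx : x0 ≤ m)
    (hk : k * j ≤ m) : (m : ℝ) * (th ^ 2 / 2) ^ m ≤ th ^ x0 * (th ^ k) ^ j := by
  have e1 : (m : ℝ) * (th ^ 2 / 2) ^ m = (m / 2 ^ m) * (th ^ m * th ^ m) := by
    rw [div_pow, ← pow_mul, two_mul, pow_add]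
    ring
  have e2 : (m : ℝ) / 2 ^ m ≤ 1 := by
    rw [div_le_one (by positivity)]
    exact_mod_cast (Nat.lt_two_pow_self (n := m)).le
  have e3 : th ^ m ≤ th ^ x0 := pow_le_pow_of_le_one h0 h1 hx
  have e4 : th ^ m ≤ (th ^ k) ^ j := by
    rw [← pow_mul]
    exact pow_le_pow_of_le_one h0 h1 hk
  rw [e1]
  calc (m / 2 ^ m : ℝ) * (th ^ m * th ^ m) ≤ 1 * (th ^ m * th ^ m) :=
        mul_le_mul_of_nonneg_right e2 (by positivity)
    _ = th ^ m * th ^ m := one_mul _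
    _ ≤ th ^ x0 * (th ^ k) ^ j := mul_le_mul e3 e4 (by positivity) (by positivity)

theorem sum_nonempty (P : Finset (Fin n)) (u : ℝ) :
    ∑ J ∈ P.powerset.filter (fun J => J.Nonempty), u ^ J.card = (1 + u) ^ P.card - 1 := by
  classical
  have h1 := Finset.sum_pow_mul_eq_add_pow u 1 P
  simp only [one_pow, mul_one] at h1
  have h2 := Finset.sum_filter_add_sum_filter_not P.powerset (fun J => J.Nonempty)
    (fun J => u ^ J.card)
  have h3 : P.powerset.filter (fun J => ¬ J.Nonempty) = {∅} := by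
    ext J
    rw [mem_filter, mem_powerset, mem_singleton, not_nonempty_iff_eq_empty]
    constructor
    · exact fun h => h.2
    · rintro rfl
      exact ⟨empty_subset _, rfl⟩
  rw [h3, sum_singleton, card_empty, pow_zero, h1] at h2
  rw [add_comm 1 u]
  linarith

/-- **The sum over the nonempty subsets of `P`.** -/
theorem sumJ_ne (P : Finset (Fin n)) (f : Finset (Fin n) → ℕ) (k : ℕ) {th : ℝ} (h0 : 0 < th)
    (h1 : th ≤ 1 / 10) : ∃ x0 : ℕ, (x0 : ℝ) +
      ∑ J ∈ P.powerset.filter (fun J => J.Nonempty ∧ k * J.card ≤ f J ∧ x0 < f J),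
        (f J : ℝ) * (th ^ 2 / 2) ^ f J ≤ 3 * P.card * th ^ k := by
  classical
  have h1' : th ≤ 1 := h1.trans (by norm_num)
  have key : ∀ x0 : ℕ, ∑ J ∈ P.powerset.filter
      (fun J => J.Nonempty ∧ k * J.card ≤ f J ∧ x0 < f J), (f J : ℝ) * (th ^ 2 / 2) ^ f J ≤
      th ^ x0 * ((1 + th ^ k) ^ P.card - 1) := by
    intro x0
    rw [← sum_nonempty, mul_sum]
    refine le_trans (sum_le_sum fun J hJ => ?_)
      (sum_le_sum_of_subset_of_nonneg (fun J hJ => ?_) fun J _ _ => by positivity)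
    · rw [mem_filter] at hJ
      exact term_le h0.le h1' hJ.2.2.2.le hJ.2.2.1
    · rw [mem_filter] at hJ ⊢
      exact ⟨hJ.1, hJ.2.1⟩
  set y : ℝ := P.card * th ^ k with hy
  have hy0 : 0 ≤ y := by positivity
  have hexp : (1 + th ^ k) ^ P.card ≤ Real.exp y := by
    rw [hy, Real.exp_nat_mul]
    refine pow_le_pow_left₀ (by positivity) ?_ _
    rw [add_comm]
    exact Real.add_one_le_exp _
  rcases le_or_gt y 1 with h2 | h2
  · refine ⟨0, ?_⟩
    have h3 := key 0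
    rw [pow_zero, one_mul] at h3
    have h4 := Real.abs_exp_sub_one_sub_id_le (x := y) (by rw [abs_of_nonneg hy0]; exact h2)
    have h5 := (abs_le.1 h4).2
    have h6 : y ^ 2 ≤ y := by nlinarith
    have h7 : (3 : ℝ) * P.card * th ^ k = 3 * y := by rw [hy]; ring
    rw [h7]
    push_cast
    linarith
  · refine ⟨⌈y⌉₊, ?_⟩
    have h3 := key ⌈y⌉₊
    have h4 : th ≤ Real.exp (-1) := by
      have h5 := Real.exp_one_lt_d9
      have h6 : (1 / 3 : ℝ) ≤ Real.exp (-1) := by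
        rw [Real.exp_neg, ← one_div]
        exact one_div_le_one_div_of_le (Real.exp_pos 1) (by linarith)
      have h7 : (1 / 10 : ℝ) ≤ 1 / 3 := by norm_num
      linarith
    have h5 : th ^ ⌈y⌉₊ ≤ Real.exp (-y) := by
      calc th ^ ⌈y⌉₊ ≤ Real.exp (-1) ^ ⌈y⌉₊ := pow_le_pow_left₀ h0.le h4 _
        _ = Real.exp (⌈y⌉₊ * (-1)) := (Real.exp_nat_mul _ _).symm
        _ ≤ Real.exp (-y) := by
          apply Real.exp_le_exp.2
          have := Nat.le_ceil y
          linarith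
    have h6 : th ^ ⌈y⌉₊ * ((1 + th ^ k) ^ P.card - 1) ≤ 1 := by
      calc th ^ ⌈y⌉₊ * ((1 + th ^ k) ^ P.card - 1) ≤ th ^ ⌈y⌉₊ * Real.exp y := by
            refine mul_le_mul_of_nonneg_left ?_ (by positivity)
            linarith
        _ ≤ Real.exp (-y) * Real.exp y := mul_le_mul_of_nonneg_right h5 (Real.exp_pos y).le
        _ = 1 := by rw [← Real.exp_add]; simp
    have h7 : (⌈y⌉₊ : ℝ) ≤ y + 1 := (Nat.ceil_lt_add_one hy0).le
    have h8 : (3 : ℝ) * P.card * th ^ k = 3 * y := by rw [hy]; ring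
    rw [h8]
    linarith

/-- **The sum over the subsets of `P`.** -/
theorem sumJ (P : Finset (Fin n)) (f : Finset (Fin n) → ℕ) (hf : f ∅ = 0) {k : ℕ} (_hk : 1 ≤ k)
    {θ : ℝ} (h0 : 0 < θ) (h1 : θ ≤ 1 / 10) : ∃ x0 : ℕ, (x0 : ℝ) +
      ∑ J ∈ P.powerset.filter (fun J => k * J.card ≤ f J ∧ x0 < f J),
        (f J : ℝ) * (θ ^ 2 / 2) ^ f J ≤ 3 * P.card * θ ^ k := by
  obtain ⟨x0, h⟩ := sumJ_ne P f k h0 h1
  refine ⟨x0, ?_⟩
  have h2 : P.powerset.filter (fun J => k * J.card ≤ f J ∧ x0 < f J) =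
      P.powerset.filter (fun J => J.Nonempty ∧ k * J.card ≤ f J ∧ x0 < f J) := by
    ext J
    rw [mem_filter, mem_filter]
    constructor
    · rintro ⟨h3, h4, h5⟩
      refine ⟨h3, ?_, h4, h5⟩
      rw [nonempty_iff_ne_empty]
      rintro rfl
      omega
    · rintro ⟨h3, -, h4, h5⟩
      exact ⟨h3, h4, h5⟩
  rw [h2]
  exact h

/-- **The expectation.**  Finitely many outcomes with weights of sum at most one.  If the value at
the outcome is not `0`, then it is the value of a nonempty subset `J` of `P` with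
`k * #J ≤ f J` whose event occurs. -/
theorem exp_le_sumJ {Ω : Type*} (s : Finset Ω) (w : Ω → ℝ) (hw : ∀ ω ∈ s, 0 ≤ w ω)
    (hw1 : ∑ ω ∈ s, w ω ≤ 1) (g : Ω → ℕ) (P : Finset (Fin n)) (f : Finset (Fin n) → ℕ) (k : ℕ)
    (Ev : Finset (Fin n) → Ω → Prop) [∀ J, DecidablePred (Ev J)] {th : ℝ} (h0 : 0 < th)
    (h1 : th ≤ 1 / 10)
    (hg : ∀ ω ∈ s, 0 < g ω → ∃ J ⊆ P, J.Nonempty ∧ k * J.card ≤ f J ∧ g ω ≤ f J ∧ Ev J ω)
    (hE : ∀ J ⊆ P, J.Nonempty → k * J.card ≤ f J →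
      ∑ ω ∈ s.filter (Ev J), w ω ≤ (th ^ 2 / 2) ^ f J) :
    ∑ ω ∈ s, w ω * g ω ≤ 3 * P.card * th ^ k := by
  classical
  obtain ⟨x0, hx0⟩ := sumJ_ne P f k h0 h1
  refine le_trans ?_ hx0
  set F := P.powerset.filter (fun J => J.Nonempty ∧ k * J.card ≤ f J ∧ x0 < f J) with hF
  have h2 : ∀ ω ∈ s, (g ω : ℝ) ≤ x0 + ∑ J ∈ F, (if Ev J ω then (f J : ℝ) else 0) := by
    intro ω hω
    have hpos : ∀ J ∈ F, (0 : ℝ) ≤ (if Ev J ω then (f J : ℝ) else 0) := fun J _ => by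
      split_ifs <;> positivity
    rcases Nat.lt_or_ge x0 (g ω) with h3 | h3
    · obtain ⟨J, hJP, hJ, hk, hgJ, hEv⟩ := hg ω hω (by omega)
      have hJF : J ∈ F := by
        rw [hF, mem_filter, mem_powerset]
        exact ⟨hJP, hJ, hk, lt_of_lt_of_le h3 hgJ⟩
      have h4 := single_le_sum hpos hJF
      rw [if_pos hEv] at h4
      have h5 : (g ω : ℝ) ≤ f J := by exact_mod_cast hgJ
      have h6 : (0 : ℝ) ≤ x0 := by positivity
      linarith
    · have h4 : (g ω : ℝ) ≤ x0 := by exact_mod_cast h3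
      have h5 := sum_nonneg hpos
      linarith
  calc ∑ ω ∈ s, w ω * g ω ≤ ∑ ω ∈ s, w ω * (x0 + ∑ J ∈ F, (if Ev J ω then (f J : ℝ) else 0)) :=
        sum_le_sum fun ω hω => mul_le_mul_of_nonneg_left (h2 ω hω) (hw ω hω)
    _ = (∑ ω ∈ s, w ω) * x0 + ∑ J ∈ F, (f J : ℝ) * ∑ ω ∈ s.filter (Ev J), w ω := by
        simp_rw [mul_add]
        rw [sum_add_distrib, ← sum_mul]
        congr 1
        simp_rw [mul_sum]
        rw [sum_comm]
        refine sum_congr rfl fun J _ => ?_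
        rw [sum_filter]
        refine sum_congr rfl fun ω _ => ?_
        split_ifs <;> ring
    _ ≤ 1 * x0 + ∑ J ∈ F, (f J : ℝ) * (th ^ 2 / 2) ^ f J := by
        refine add_le_add (mul_le_mul_of_nonneg_right hw1 (by positivity))
          (sum_le_sum fun J hJ => ?_)
        rw [hF, mem_filter, mem_powerset] at hJ
        exact mul_le_mul_of_nonneg_left (hE J hJ.1 hJ.2.1 hJ.2.2.1) (by positivity)
    _ = x0 + ∑ J ∈ F, (f J : ℝ) * (th ^ 2 / 2) ^ f J := by rw [one_mul]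

end Pool.Agent.Work.MP_3bf421_lc_FZ
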