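import Pool.Agent.Work.MP_3bf421_lc_FZ.BlBound
import Pool.Agent.Work.MP_3bf421_lc_FZ.Avg
import Pool.Agent.Work.MP_3bf421_lc_FZ.Bad

set_option autoImplicit false

/-!
The total over all orders and coins.
-/

namespace Pool.Agent.Work.MP_3bf421_lc_FZ

open Finset
open Pool.Agent.Work.MP_3bf421_lc_LU
open _root_.MP_3bf421_lc.UN (rk fs cont)

variable {n : ℕ} {α : Type*} [LinearOrder α]

theorem card_opt_le_R (M : Matroid (Fin n)) (hE : M.E = Set.univ) (κ : Fin n → α)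
    (hκ : Function.Injective κ) (A : Finset (Fin n)) : rk M A ≤ (optB M κ).card := by
  classical
  refine (_root_.MP_3bf421_lc.UN.rk_mono M (subset_univ A)).trans ?_
  rw [rk_upperset M hE κ hκ univ (fun x y _ _ => mem_univ _)]
  exact card_filter_le _ _

open Classical in
/-- the lower bound for given first blocks -/
noncomputable def FF (M : Matroid (Fin n)) (κ : Fin n → α) (J m : ℕ) (a : Fin n)
    (A D : Finset (Fin n)) : ℝ :=
  if GoodA M κ A then ∑ i ∈ ({cls M κ J A a - 1, cls M κ J A a} : Finset ℕ),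
    LBi M κ (cls M κ J A) (J + 1) m a D i else 0

open Classical in
theorem FF_le (M : Matroid (Fin n)) (hE : M.E = Set.univ) (κ : Fin n → α)
    (hκ : Function.Injective κ) (J m : ℕ) (a : Fin n) (A D : Finset (Fin n))
    (ar : Fin n → ℕ) (har : Function.Injective ar) :
    FF M κ J m a A D ≤ ∑ l : Fin (m + 3), ((univ.filter (fun e => κ a ≤ κ e ∧
      AccB M κ (cls M κ J A) (J + 1) (rr m l) D ar e)).card : ℝ) := by
  unfold FF
  split_ifs with h
  · refine det_lb M hE κ hκ (cls M κ J A) (J + 1) m D ar har a _ ?_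
    intro i hi
    have h1 := cls_le M κ J A a
    rw [mem_insert, mem_singleton] at hi
    omega
  · exact sum_nonneg fun l _ => Nat.cast_nonneg _

/-- sum over subsets of the number of missed elements -/
theorem sum_missed (hn : 1 ≤ n) (B : Finset (Fin n)) :
    ∑ A : Finset (Fin n), ((B.filter (fun b => b ∉ A)).card : ℝ) = (B.card : ℝ) * 2 ^ n / 2 := by
  classical
  have h1 : ∀ A : Finset (Fin n), ((B.filter (fun b => b ∉ A)).card : ℝ)
      = ∑ b ∈ B, (if b ∉ A then (1 : ℝ) else 0) := by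
    intro A
    rw [← sum_filter, sum_const, nsmul_eq_mul, mul_one]
  rw [sum_congr rfl (fun A _ => h1 A), sum_comm]
  have h2 : ∀ b ∈ B, ∑ A : Finset (Fin n), (if b ∉ A then (1 : ℝ) else 0) = 2 ^ n / 2 := by
    intro b _
    rw [← sum_filter, sum_const, nsmul_eq_mul, mul_one]
    have h3 : (univ : Finset (Finset (Fin n))).filter (fun A => b ∉ A)
        = (univ.erase b).powerset := by
      ext A
      rw [mem_filter, mem_powerset, subset_erase]
      simp
    rw [h3, card_powerset, card_erase_of_mem (mem_univ b), card_univ, Fintype.card_fin]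
    obtain ⟨k, rfl⟩ : ∃ k, n = k + 1 := ⟨n - 1, by omega⟩
    rw [Nat.add_sub_cancel, pow_succ]
    push_cast
    ring
  rw [sum_congr rfl h2, sum_const, nsmul_eq_mul]
  ring

open Classical in
theorem sum_FF {l : ℕ} (M : Matroid (Fin n)) (hE : M.E = Set.univ) (κ : Fin n → α)
    (hκ : Function.Injective κ) (Ms : Fin l → Matroid (Fin n))
    (hM : _root_.MP_3bf421_lc.UN.IsUnion M Ms) (k R : ℕ)
    (hk : ∀ j, k ≤ (univ.filter (fun i => Ms i = Ms j)).card)
    (hR : ∀ I : Finset (Fin n), M.Indep (I : Set (Fin n)) → I.card ≤ R)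
    (J : ℕ) (hJ : 1 ≤ J) (hRk : (R : ℝ) ^ ((1 : ℝ) / J) ≤ Real.exp 1 ^ k)
    (a : Fin n) (ha : a ∈ optB M κ) (m : ℕ) (hm : J + 1 < 2 ^ m) :
    (1 / 2 ^ 28) / 4 * 2 ^ n * (((optB M κ).filter (fun b => κ a ≤ κ b)).card : ℝ)
    ≤ ∑ A : Finset (Fin n), Ew Aᶜ (1 / 2 ^ 28) (fun T => FF M κ J m a A Tᶜ) := by
  obtain ⟨q, hq⟩ : ∃ q : ℝ, q = 1 / 2 ^ 28 := ⟨_, rfl⟩
  rw [← hq]
  have hq0 : 0 < q := by rw [hq]; positivity
  have hq1 : q ≤ 1 / 2 := by rw [hq]; norm_num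
  obtain ⟨θ, hθ⟩ : ∃ θ : ℝ, θ = 1 / 2 ^ 12 := ⟨_, rfl⟩
  have hθ0 : 0 < θ := by rw [hθ]; positivity
  have he1 : Real.exp 1 < 3 := by
    have := Real.exp_one_lt_d9
    linarith
  have hθ1 : θ ≤ Real.exp (-1) := by
    rw [Real.exp_neg, hθ, one_div]
    apply inv_anti₀ (Real.exp_pos 1)
    linarith
  have hqθ : 4 * q ≤ θ ^ 2 / 2 := by rw [hq, hθ]; norm_num
  obtain ⟨ρ, hρ⟩ : ∃ ρ : ℝ, ρ = (((optB M κ).filter (fun b => κ a ≤ κ b)).card : ℝ) := ⟨_, rfl⟩
  rw [← hρ]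
  have hn : 1 ≤ n := by have := a.2; omega
  have hρ1 : 1 ≤ ρ := by
    have : 0 < ((optB M κ).filter (fun b => κ a ≤ κ b)).card := by
      rw [card_pos]
      exact ⟨a, mem_filter.2 ⟨ha, le_rfl⟩⟩
    rw [hρ]
    exact_mod_cast this
  obtain ⟨Ub, hUb⟩ : ∃ Ub : ℕ, Ub = ⌈Real.exp 1 ^ k * ρ⌉₊ := ⟨_, rfl⟩
  obtain ⟨S, hS⟩ : ∃ S : Finset (Fin n) → ℝ, ∀ A, S A =
    ((univ.filter (fun e => Rel M κ A e ∧ xr M κ A e < Ub)).card : ℝ) := ⟨_, fun _ => rfl⟩
  have hS0 : ∀ A, 0 ≤ S A := fun A => by rw [hS]; exact Nat.cast_nonneg _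
  obtain ⟨g, hg⟩ : ∃ g : ℝ, g = if (2 : ℝ) ^ 18 ≤ Real.exp 1 ^ k then 3 * θ ^ k else 0 :=
    ⟨_, rfl⟩
  have hg0 : 0 ≤ g := by
    rw [hg]; split_ifs
    · positivity
    · exact le_rfl
  have hc0 : 0 ≤ 18 * 2 ^ 18 * q ^ 2 * ρ := by positivity
  obtain ⟨W, hW⟩ : ∃ W : Finset (Fin n) → ℝ, ∀ A, W A =
    18 * 2 ^ 18 * q ^ 2 * ρ + g * S A := ⟨_, fun _ => rfl⟩
  have hgS : ∀ A, 0 ≤ g * S A := fun A => mul_nonneg hg0 (hS0 A)
  have hW0 : ∀ A, 0 ≤ W A := by
    intro A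
    rw [hW]
    exact add_nonneg hc0 (hgS A)
  have hWb : ∀ A, GoodA M κ A → ∀ i, i ≤ cls M κ J A a →
      Ew Aᶜ q (fun T => (bl M κ (cls M κ J A) (J + 1) Tᶜ i : ℝ)) ≤ W A := by
    intro A hA i hi
    have hrkR : rk M A ≤ R := by
      have h1 := card_opt_le_R M hE κ hκ A
      exact h1.trans (hR _ (optB_indep M hE κ hκ))
    by_cases hK : (rk M A : ℝ) ^ ((1 : ℝ) / J) ≤ 2 ^ 18
    · have hK' : KK J (rk M A) = 2 ^ 18 := max_eq_left hK
      have h1 := bl1 M hE κ hκ J hJ A hA a ha hq0.le hq1 hK' i hi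
      rw [← hρ] at h1
      rw [hW]
      exact h1.trans (le_add_of_nonneg_right (hgS A))
    · push Not at hK
      have h1 : (rk M A : ℝ) ^ ((1 : ℝ) / J) ≤ (R : ℝ) ^ ((1 : ℝ) / J) := by
        apply Real.rpow_le_rpow (Nat.cast_nonneg _)
        · exact_mod_cast hrkR
        · positivity
      have h2 : (2 : ℝ) ^ 18 ≤ Real.exp 1 ^ k := hK.le.trans (h1.trans hRk)
      have hK' : KK J (rk M A) ≤ Real.exp 1 ^ k := max_le h2 (h1.trans hRk)
      have h3 := bl2 M hE κ hκ Ms hM k hk J hJ A a ha hq0 hq1 hθ0 hθ1 hqθ hK' i hi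
      have h4 : g = 3 * θ ^ k := by rw [hg, if_pos h2]
      rw [← hρ, ← hUb, ← hS A, ← h4] at h3
      rw [hW]
      exact h3.trans (le_add_of_nonneg_left hc0)
  -- lower bound for each A
  have hA : ∀ A : Finset (Fin n),
      q * (((((optB M κ).filter (fun b => κ a ≤ κ b)).filter (fun b => b ∉ A)).card : ℝ))
        - (if GoodA M κ A then 0 else q * ρ)
        - (q * (9 / 2 ^ 18) + 18 / 2 ^ 36 + 36 * 2 ^ 18 * q ^ 2) * ρ - 2 * g * S A
      ≤ Ew Aᶜ q (fun T => FF M κ J m a A Tᶜ) := by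
    intro A
    have hSA : 0 ≤ g * S A := hgS A
    by_cases hgood : GoodA M κ A
    · have h1 := perA M hE κ hκ J hJ A hgood a ha m hm hq0.le hq1 (W A) (hWb A hgood)
      have h2 : Ew Aᶜ q (fun T => FF M κ J m a A Tᶜ)
          = Ew Aᶜ q (fun T => ∑ i ∈ ({cls M κ J A a - 1, cls M κ J A a} : Finset ℕ),
        LBi M κ (cls M κ J A) (J + 1) m a Tᶜ i) := by
        refine Ew_congr _ _ fun T _ => ?_
        unfold FF
        rw [if_pos hgood]
      rw [h2, if_pos hgood]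
      refine le_trans (le_of_eq ?_) h1
      rw [← hρ, max_eq_left (hW0 A), hW, filter_filter]
      ring
    · have h2 : Ew Aᶜ q (fun T => FF M κ J m a A Tᶜ) = 0 := by
        rw [Ew_congr (F' := fun _ => 0), Ew_const]
        intro T _
        unfold FF
        rw [if_neg hgood]
      rw [h2, if_neg hgood]
      have h3 : ((((optB M κ).filter (fun b => κ a ≤ κ b)).filter (fun b => b ∉ A)).card : ℝ)
          ≤ ρ := by
        rw [hρ]
        exact_mod_cast card_filter_le _ _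
      have h4 := mul_le_mul_of_nonneg_left h3 hq0.le
      have h5 : 0 ≤ (q * (9 / 2 ^ 18) + 18 / 2 ^ 36 + 36 * 2 ^ 18 * q ^ 2) * ρ := by positivity
      have h6 : 2 * g * S A = 2 * (g * S A) := by ring
      rw [h6]
      linarith
  refine le_trans ?_ (sum_le_sum fun A _ => hA A)
  have hcardA : ((univ : Finset (Finset (Fin n))).card : ℝ) = 2 ^ n := by
    rw [card_univ, Fintype.card_finset, Fintype.card_fin]
    push_cast
    rfl
  rw [sum_sub_distrib, sum_sub_distrib, sum_sub_distrib, ← mul_sum, sum_missed hn, ← hρ,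
    sum_const, nsmul_eq_mul, hcardA, ← mul_sum]
  have hbad : ∑ A : Finset (Fin n), (if GoodA M κ A then (0 : ℝ) else q * ρ)
      ≤ q * ρ * 2 ^ n / 8 := by
    have h1 := bad_count κ hκ (optB M κ)
    have h1e : (univ : Finset (Finset (Fin n))).filter (fun A => ¬ ∀ a ∈ optB M κ,
      64 ≤ ((optB M κ).filter (fun b => κ a ≤ κ b)).card →
        ((optB M κ).filter (fun b => κ a ≤ κ b)).card
        ≤ 8 * (((optB M κ).filter (fun b => κ a ≤ κ b)) ∩ A).card)
        = (univ : Finset (Finset (Fin n))).filter (fun A => ¬ GoodA M κ A) := by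
      ext A
      rw [mem_filter, mem_filter]
      exact Iff.rfl
    rw [h1e] at h1
    have h2 : ∀ A : Finset (Fin n), (if GoodA M κ A then (0 : ℝ) else q * ρ)
        = if ¬ GoodA M κ A then q * ρ else 0 := by
      intro A
      by_cases h : GoodA M κ A
      · rw [if_pos h, if_neg (not_not.2 h)]
      · rw [if_neg h, if_pos h]
    rw [sum_congr rfl (fun A _ => h2 A), ← sum_filter, sum_const, nsmul_eq_mul]
    have h3 : (((univ : Finset (Finset (Fin n))).filter (fun A => ¬ GoodA M κ A)).card : ℝ)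
        * 8 ≤ 2 ^ n := by
      rw [mul_comm]
      exact_mod_cast h1
    have h4 : 0 ≤ q * ρ := by positivity
    have h5 := mul_le_mul_of_nonneg_left h3 h4
    rw [le_div_iff₀ (by norm_num)]
    calc _ = q * ρ * ((((univ : Finset (Finset (Fin n))).filter
        (fun A => ¬ GoodA M κ A)).card : ℝ) * 8) := by ring
      _ ≤ _ := h5
  have hrel : ∑ A : Finset (Fin n), S A ≤ (Ub : ℝ) * 2 ^ n := by
    have h1 := sum_rel M hE κ hκ Ub
    rw [sum_congr rfl (fun A _ => hS A)]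
    exact_mod_cast h1
  have hgU : 2 * g * (Ub : ℝ) ≤ q / 1024 * ρ := by
    rw [hg]
    split_ifs with h18
    · have hk13 : 12 ≤ k := by
        by_contra hcon
        push Not at hcon
        have h1 : Real.exp 1 ^ k ≤ 3 ^ k := pow_le_pow_left₀ (Real.exp_pos 1).le he1.le k
        have h2 : (3 : ℝ) ^ k ≤ 3 ^ 11 := pow_le_pow_right₀ (by norm_num) (by omega)
        have h3 : (3 : ℝ) ^ 11 < 2 ^ 18 := by norm_num
        linarith
      have h1 : (Ub : ℝ) ≤ 2 * (Real.exp 1 ^ k * ρ) := by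
        have h2 : (Ub : ℝ) < Real.exp 1 ^ k * ρ + 1 := by
          rw [hUb]
          exact Nat.ceil_lt_add_one (by positivity)
        have h3 : 1 ≤ Real.exp 1 ^ k * ρ := by
          have h4 : (1 : ℝ) ≤ Real.exp 1 ^ k := le_trans (by norm_num) h18
          nlinarith
        linarith
      have h2 : (θ * Real.exp 1) ^ k ≤ (1 / 2 ^ 10) ^ k := by
        apply pow_le_pow_left₀ (by positivity)
        rw [hθ]
        have : Real.exp 1 ≤ 4 := by linarith
        calc 1 / 2 ^ 12 * Real.exp 1 ≤ 1 / 2 ^ 12 * 4 := by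
              apply mul_le_mul_of_nonneg_left this (by positivity)
          _ = 1 / 2 ^ 10 := by norm_num
      have h3 : ((1 : ℝ) / 2 ^ 10) ^ k ≤ (1 / 2 ^ 10) ^ 12 :=
        pow_le_pow_of_le_one (by positivity) (by norm_num) hk13
      have h4 : 12 * ((1 : ℝ) / 2 ^ 10) ^ 12 ≤ q / 1024 := by
        have h5 : ((1 : ℝ) / 2 ^ 10) ^ 12 ≤ (1 / 2 ^ 10) ^ 5 :=
          pow_le_pow_of_le_one (by positivity) (by norm_num) (by norm_num)
        have h6 : 12 * ((1 : ℝ) / 2 ^ 10) ^ 5 ≤ q / 1024 := by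
          rw [hq]; norm_num
        linarith
      calc 2 * (3 * θ ^ k) * (Ub : ℝ) ≤ 2 * (3 * θ ^ k) * (2 * (Real.exp 1 ^ k * ρ)) :=
            mul_le_mul_of_nonneg_left h1 (by positivity)
        _ = 12 * (θ * Real.exp 1) ^ k * ρ := by rw [mul_pow]; ring
        _ ≤ q / 1024 * ρ := by
            apply mul_le_mul_of_nonneg_right _ (by linarith)
            linarith
    · rw [mul_zero, zero_mul]
      exact mul_nonneg (div_nonneg hq0.le (by norm_num)) (by linarith)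
  have h2n : (0 : ℝ) < 2 ^ n := by positivity
  have h3 : 2 * g * ∑ A : Finset (Fin n), S A ≤ q / 1024 * ρ * 2 ^ n := by
    calc 2 * g * ∑ A : Finset (Fin n), S A ≤ 2 * g * ((Ub : ℝ) * 2 ^ n) :=
          mul_le_mul_of_nonneg_left hrel (by positivity)
      _ = (2 * g * (Ub : ℝ)) * 2 ^ n := by ring
      _ ≤ _ := mul_le_mul_of_nonneg_right hgU h2n.le
  have h4 : (q * (9 / 2 ^ 18) + 18 / 2 ^ 36 + 36 * 2 ^ 18 * q ^ 2) ≤ 7 / 64 * q := by
    rw [hq]; norm_num
  have h5 : (q * (9 / 2 ^ 18) + 18 / 2 ^ 36 + 36 * 2 ^ 18 * q ^ 2) * ρ * 2 ^ n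
      ≤ 7 / 64 * q * ρ * 2 ^ n := by
    apply mul_le_mul_of_nonneg_right _ h2n.le
    exact mul_le_mul_of_nonneg_right h4 (by linarith)
  have h6 : 0 ≤ q * ρ * 2 ^ n := by positivity
  have h7 : (2 : ℝ) ^ n * ((q * (9 / 2 ^ 18) + 18 / 2 ^ 36 + 36 * 2 ^ 18 * q ^ 2) * ρ)
      = (q * (9 / 2 ^ 18) + 18 / 2 ^ 36 + 36 * 2 ^ 18 * q ^ 2) * ρ * 2 ^ n := by ring
  rw [h7]
  have h8 : q * (ρ * 2 ^ n / 2) = q * ρ * 2 ^ n / 2 := by ring
  rw [h8]
  have h9 : q / 4 * 2 ^ n * ρ = q * ρ * 2 ^ n / 4 := by ring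
  rw [h9]
  have h10 : q / 1024 * ρ * 2 ^ n = q * ρ * 2 ^ n / 1024 := by ring
  rw [h10] at h3
  have h11 : 7 / 64 * q * ρ * 2 ^ n = 7 / 64 * (q * ρ * 2 ^ n) := by ring
  rw [h11] at h5
  linarith

end Pool.Agent.Work.MP_3bf421_lc_FZ
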